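import Mathlib.Tactic
import Mathlib.Geometry.Manifold.PartitionOfUnity
import Mathlib.Topology.UniformSpace.Uniformizable
import Mathlib.Order.CompletePartialOrder
import Mathlib.Topology.MetricSpace.Contracting
import Mathlib.Analysis.SpecialFunctions.Trigonometric.Series
import Mathlib.Analysis.SpecialFunctions.Trigonometric.DerivHyp
import Mathlib.Analysis.SpecialFunctions.Trigonometric.Cotangent
import Mathlib.Data.Int.Star
import Mathlib.RingTheory.SimpleRing.Principal
import Mathlib.RingTheory.Flat.TorsionFree
import Mathlib.Algebra.Module.StablyFree.Basic
import Mathlib.Analysis.Complex.Polynomial.Basic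
import Mathlib.RingTheory.TotallySplit
import Mathlib.RingTheory.PicardGroup
import Mathlib.Analysis.SumIntegralComparisons
import Mathlib.RingTheory.RootsOfUnity.Lemmas
import Mathlib.MeasureTheory.Order.Group.Lattice
import Mathlib.Analysis.SpecialFunctions.Integrals.PosLogEqCircleAverage
import Mathlib.RingTheory.Etale.Weakly
import Mathlib.Analysis.Real.Pi.Bounds
import Mathlib.RingTheory.Finiteness.ModuleFinitePresentation
import Mathlib.Analysis.Complex.ExponentialBounds
import Mathlib.Analysis.SpecialFunctions.Gaussian.FourierTransform
import Mathlib.Algebra.Order.Chebyshev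
import Mathlib.Analysis.Complex.Schwarz
import Mathlib.Algebra.Ring.IsFormallyReal
import Mathlib.Analysis.SpecialFunctions.Trigonometric.InverseDeriv
import Mathlib.Tactic.NormNum.RealSqrt
import Mathlib.Analysis.Calculus.ParametricIntervalIntegral
import Mathlib.RingTheory.Polynomial.Cyclotomic.Basic
import Mathlib.Analysis.Fourier.AddCircleMulti
import Mathlib.MeasureTheory.Integral.CurveIntegral.Poincare
import Mathlib.Analysis.Calculus.FDeriv.Star
import Mathlib.Data.Nat.Bitwise

/-!
# The part of Mathlib used by the Kashaev invariant files

Importing this file instead of all of Mathlib halves the time of loading.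
-/
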