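import Pool.Statements.S00583
import Pool.Agent.Helper36.SF.Model

set_option autoImplicit false
open Pool Pool.MP_01a6c4_al

namespace Pool.Agent.S00583

/-- There is a not-necessarily-associative ring of odd prime characteristic p that is simple, has nonzero products, and is generated by a set X on which every map into it extends to an endomorphism, i.e. it is free in some variety. -/
theorem result :
    ∃ (R : Type) (_ : NonUnitalNonAssocRing R) (p : ℕ),
      p.Prime ∧ 3 ≤ p ∧ (∀ r : R, p • r = 0) ∧
      IsSimpleOrder (TwoSidedIdeal R) ∧ (∃ a b : R, a * b ≠ 0) ∧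
      ∃ X : Set R,
        (∀ S : NonUnitalSubring R, X ⊆ (S : Set R) → S = ⊤) ∧
        ∀ f : R → R, ∃ φ : R →ₙ+* R, ∀ x ∈ X, φ x = f x :=
  Pool.Agent.Helper36.SF.main

end Pool.Agent.S00583
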