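import Pool.Statements.S00656
import Pool.Agent.Helper46.Final

set_option autoImplicit false
open Pool Pool.MP_08ae53_al

namespace Pool.Agent.S00656

/-- The negation of the preceding statement: Every infinite group with a non-discrete Hausdorff group topology has, for each k, a chain of k+1 Hausdorff group topologies, each strictly finer than the previous, with no group topology strictly between consecutive ones. -/
theorem result :
    ¬ (∀ (G : Type) [Group G], Infinite G →
      (∃ t : GroupTopology G, @T2Space G t.toTopologicalSpace ∧ t.toTopologicalSpace ≠ ⊥) →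
      ∀ k : ℕ, ∃ τ : Fin (k + 1) → GroupTopology G,
        (∀ i, @T2Space G (τ i).toTopologicalSpace) ∧
        ∀ i : Fin k, τ i.succ ⋖ τ i.castSucc) := by
  intro H
  obtain ⟨G, hG, F0, hinf, hex, hdich⟩ := Pool.Agent.Helper46.exists_group
  obtain ⟨τ, hT2, hcov⟩ := @H G hG hinf hex 2
  have hext : ∀ i j : Fin 3, @nhds G (τ i).toTopologicalSpace 1 =
      @nhds G (τ j).toTopologicalSpace 1 → τ i = τ j := by
    intro i j hij
    apply GroupTopology.toTopologicalSpace_injective
    exact IsTopologicalGroup.ext (τ i).toIsTopologicalGroup (τ j).toIsTopologicalGroup hij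
  have h10 : τ 1 < τ 0 := (hcov 0).lt
  have h21 : τ 2 < τ 1 := (hcov 1).lt
  have e : ∀ i j : Fin 3, τ i < τ j → @nhds G (τ i).toTopologicalSpace 1 ≠
      @nhds G (τ j).toTopologicalSpace 1 := fun i j hlt h => hlt.ne (hext i j h)
  have n10 := e 1 0 h10
  have n21 := e 2 1 h21
  have n20 := e 2 0 (h21.trans h10)
  rcases hdich (τ 0) (hT2 0) with h0 | h0 <;> rcases hdich (τ 1) (hT2 1) with h1 | h1 <;>
    rcases hdich (τ 2) (hT2 2) with h2 | h2
  all_goals first
    | exact n10 (h1.trans h0.symm)
    | exact n21 (h2.trans h1.symm)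
    | exact n20 (h2.trans h0.symm)

end Pool.Agent.S00656
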