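import Pool.Statements.S00675
import Pool.Agent.Lead.PAutShift
import Pool.Agent.Helper66.PAutCoord

set_option autoImplicit false
open Pool Pool.MP_0a57ef_al

namespace Pool.Agent.S00675

/-- For every prime p and every finite abelian p-group A there is a group G such that A is isomorphic, via an injective homomorphism, to the group of automorphisms of G mapping every subgroup onto itself. -/
theorem result :
    ∀ (p : ℕ), p.Prime →
      ∀ (A : Type) [CommGroup A] [Finite A], IsPGroup p A →
        ∃ (G : Type) (_ : Group G) (f : A →* MulAut G),
          Function.Injective f ∧
            ∀ φ : MulAut G,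
              (φ ∈ f.range ↔ ∀ H : Subgroup G, H.map φ.toMonoidHom = H) := by
  intro p hp A _ _ hA
  exact Pool.Agent.Lead.PAut.Grp.final p hp
    (fun r m _ hm => Pool.Agent.Helper66.PAutCoord.exists_data hp m hm) A hA

end Pool.Agent.S00675
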