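import Pool.Statements.S01384
import Pool.Agent.Helper51.TwistedPGL

set_option autoImplicit false
open Pool Pool.MP_4b4c0c_al

namespace Pool.Agent.S01384

open Polynomial Pool.Agent.Helper51

noncomputable section

/-- The rational function field over the field with two elements. -/
abbrev F := RatFunc (ZMod 2)

/-- The substitution `X ↦ X + 1` on polynomials. -/
def phi : (ZMod 2)[X] ≃+* (ZMod 2)[X] := (Polynomial.algEquivAevalXAddC (1 : ZMod 2)).toRingEquiv

lemma phi_apply (p : (ZMod 2)[X]) : phi p = p.comp (X + C 1) := by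
  simp [phi, Polynomial.algEquivAevalXAddC, Polynomial.comp, Polynomial.aeval_def]

lemma phi_phi (p : (ZMod 2)[X]) : phi (phi p) = p := by
  rw [phi_apply, phi_apply, comp_assoc]
  have : (X + C 1 : (ZMod 2)[X]).comp (X + C 1) = X := by
    have h2 : (C (1 : ZMod 2)) + C 1 = 0 := by
      rw [← C_add]; 
      have : (1 + 1 : ZMod 2) = 0 := by decide
      rw [this, C_0]
    rw [add_comp, X_comp, C_comp, add_assoc, h2, add_zero]
  rw [this, comp_X]

lemma natDegree_phi (p : (ZMod 2)[X]) : (phi p).natDegree = p.natDegree := by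
  rw [phi_apply, natDegree_comp, natDegree_X_add_C, mul_one]

/-- The induced automorphism of the rational function field. -/
def sigma : F ≃+* F := IsFractionRing.ringEquivOfRingEquiv (K := F) (L := F) phi

lemma sigma_algebraMap (p : (ZMod 2)[X]) :
    sigma (algebraMap (ZMod 2)[X] F p) = algebraMap (ZMod 2)[X] F (phi p) := by
  exact IsFractionRing.ringEquivOfRingEquiv_algebraMap phi p

lemma sigma_div (p q : (ZMod 2)[X]) :
    sigma (algebraMap (ZMod 2)[X] F p / algebraMap (ZMod 2)[X] F q) =
      algebraMap (ZMod 2)[X] F (phi p) / algebraMap (ZMod 2)[X] F (phi q) := by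
  rw [map_div₀, sigma_algebraMap, sigma_algebraMap]

lemma sigma_sigma (x : F) : sigma (sigma x) = x := by
  rw [← RatFunc.num_div_denom x, sigma_div, sigma_div, phi_phi, phi_phi]

lemma intDegree_sigma (x : F) (hx : x ≠ 0) : (sigma x).intDegree = x.intDegree := by
  have hn : x.num ≠ 0 := RatFunc.num_ne_zero hx
  have hd : x.denom ≠ 0 := RatFunc.denom_ne_zero x
  have hn' : phi x.num ≠ 0 := by
    intro h; exact hn (by simpa using h)
  have hd' : phi x.denom ≠ 0 := by
    intro h; exact hd (by simpa using h)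
  conv_lhs => rw [← RatFunc.num_div_denom x, sigma_div]
  rw [RatFunc.intDegree_div (RatFunc.algebraMap_ne_zero hn') (RatFunc.algebraMap_ne_zero hd'),
    RatFunc.intDegree_polynomial, RatFunc.intDegree_polynomial, natDegree_phi, natDegree_phi]
  rfl

/-- The parity of the degree. -/
def kappa : Fˣ →* ℤˣ where
  toFun c := (-1 : ℤˣ) ^ (RatFunc.intDegree (c : F))
  map_one' := by simp
  map_mul' a b := by
    rw [Units.val_mul, RatFunc.intDegree_mul a.ne_zero b.ne_zero, zpow_add]

/-- The twisting data. -/
def data : TwData F where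
  σ := sigma
  hσ := sigma_sigma
  κ := kappa
  hκ c := by
    change (-1 : ℤˣ) ^ (RatFunc.intDegree (sigma (c : F))) = (-1 : ℤˣ) ^ (RatFunc.intDegree (c : F))
    rw [intDegree_sigma _ c.ne_zero]

end

/-- The negation of the preceding statement: Every 3-transitive group on at least 3 points whose 3-point stabilizers are trivial and whose 2-point stabilizers have no involutions is permutation-isomorphic to PGL_2(P) on the projective line over some field P of characteristic 2. -/
theorem result :
    ¬ (∀ (G X : Type) [Group G] [MulAction G X],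
      (∃ a b c : X, a ≠ b ∧ a ≠ c ∧ b ≠ c) →
      (∀ a b c a' b' c' : X, a ≠ b → a ≠ c → b ≠ c → a' ≠ b' → a' ≠ c' → b' ≠ c' →
        ∃ g : G, g • a = a' ∧ g • b = b' ∧ g • c = c') →
      (∀ a b : X, a ≠ b → ∀ g : G, g • a = a → g • b = b → g * g = 1 → g = 1) →
      (∀ a b c : X, a ≠ b → a ≠ c → b ≠ c → ∀ g : G,
        g • a = a → g • b = b → g • c = c → g = 1) →
      ∃ (P : Type) (_ : Field P), CharP P 2 ∧
        ∃ e : X ≃ Projectivization P (Fin 2 → P),
          ∀ σ : Equiv.Perm (Projectivization P (Fin 2 → P)),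
            ((∃ g : G, ∀ x : X, σ (e x) = e (g • x)) ↔
              ∃ A : Matrix.GeneralLinearGroup (Fin 2) P,
                ∀ (v : Fin 2 → P) (hv : v ≠ 0) (w : Fin 2 → P) (hw : w ≠ 0),
                  w = Matrix.mulVec (A : Matrix (Fin 2) (Fin 2) P) v →
                    σ (Projectivization.mk P v hv) = Projectivization.mk P w hw)) := by
  classical
  have : CharP F 2 := inferInstance
  refine TwData.key data ⟨Units.mk0 (RatFunc.X ^ 2) (pow_ne_zero _ RatFunc.X_ne_zero),
    Units.mk0 RatFunc.X RatFunc.X_ne_zero, ?_, ?_, ?_⟩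
  · change (-1 : ℤˣ) ^ (RatFunc.intDegree (RatFunc.X ^ 2 : F)) = 1
    rw [sq, RatFunc.intDegree_mul RatFunc.X_ne_zero RatFunc.X_ne_zero, RatFunc.intDegree_X]
    decide
  · change (-1 : ℤˣ) ^ (RatFunc.intDegree (RatFunc.X : F)) = -1
    rw [RatFunc.intDegree_X]
    decide
  · change sigma (RatFunc.X ^ 2 : F) ≠ RatFunc.X ^ 2
    rw [← RatFunc.algebraMap_X, ← map_pow, sigma_algebraMap, phi_apply]
    intro h
    have h2 := RatFunc.algebraMap_injective (ZMod 2) h
    have h3 := congrArg (fun p => Polynomial.eval 0 p) h2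
    simp at h3

end Pool.Agent.S01384
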