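import Pool.Statements.S01427

set_option autoImplicit false
open FirstOrder
open Pool Pool.MP_4f5d8b_al

namespace Pool.Agent.S01427

/-!
A finite nilpotent loop of order 36 whose identities have no finite basis.

Let `L0` be the loop of order 18 on `Z3 x Z2 x Z3` with product
`(x, z, w) (x', z', w') = (x + x', z + z' + f x x', w + w' + G x z x')`,
and let `LQ` be the quotient of the fibre square of `L0` over the first factor by the diagonal
copy of the last factor.  An identity `s = t` holds in `LQ` exactly when, in `L0`, the two sides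
differ by an element of the last factor which only depends on the first coordinates.

For each `m` the term `nuT m` (in `m + 1` variables) evaluates in `L0` to an element of the last
factor which is a function of the first coordinates, so `nuT m = 1` is a law of `LQ`.

The test loop `W n` is the quotient, by the kernel of the summation map, of the subloop of the
power of `L0` indexed by `X n = Z3 ^ n` consisting of the families whose first coordinate is an
additive function of the index.  A law of `LQ` in fewer than `n` variables holds in `W n`, because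
it contributes a sum over `X n` of a function invariant under a nonzero translation, which is zero
modulo three; but `nuT (n - 1) = 1` fails in `W n`.
-/

/-- The loop language: one constant, three binary operations. -/
abbrev Lg : FirstOrder.Language := FirstOrder.Language.mk
  (fun n => Fin (if n = 0 then 1 else if n = 2 then 3 else 0)) (fun _ => Empty)

/-- The structure given by three binary operations and a constant. -/
@[reducible] def mkStr {M : Type} (mul ldiv rdiv : M → M → M) (e : M) : Lg.Structure M where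
  funMap := fun {n} g v =>
    match n, g, v with
    | 0, _, _ => e
    | 1, g, _ => Fin.elim0 g
    | 2, g, v => (![mul (v 0) (v 1), ldiv (v 0) (v 1), rdiv (v 0) (v 1)] : Fin 3 → M) g
    | (_ + 3), g, _ => Fin.elim0 g
  RelMap := fun r _ => r.elim

/-- Evaluation of a term in the structure given by the operations. -/
def ev {M : Type} (mul ldiv rdiv : M → M → M) (e : M) (v : ℕ → M) (t : Lg.Term ℕ) : M :=
  @FirstOrder.Language.Term.realize Lg M (mkStr mul ldiv rdiv e) ℕ v t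

def eT : Lg.Term ℕ := FirstOrder.Language.Term.func (l := 0) (0 : Fin 1) ![]
def vT (i : ℕ) : Lg.Term ℕ := FirstOrder.Language.Term.var i
def mulT (s t : Lg.Term ℕ) : Lg.Term ℕ :=
  FirstOrder.Language.Term.func (l := 2) (0 : Fin 3) ![s, t]
def ldivT (s t : Lg.Term ℕ) : Lg.Term ℕ :=
  FirstOrder.Language.Term.func (l := 2) (1 : Fin 3) ![s, t]

section
variable {M : Type} (mul ldiv rdiv : M → M → M) (e : M) (v : ℕ → M)

theorem ev_eT : ev mul ldiv rdiv e v eT = e := rfl
theorem ev_vT (i : ℕ) : ev mul ldiv rdiv e v (vT i) = v i := rfl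
theorem ev_mulT (s t : Lg.Term ℕ) : ev mul ldiv rdiv e v (mulT s t) =
    mul (ev mul ldiv rdiv e v s) (ev mul ldiv rdiv e v t) := rfl
theorem ev_ldivT (s t : Lg.Term ℕ) : ev mul ldiv rdiv e v (ldivT s t) =
    ldiv (ev mul ldiv rdiv e v s) (ev mul ldiv rdiv e v t) := rfl
end

/-- Fundamental lemma for relations closed under the operations. -/
theorem rel_term {M M' X : Type}
    (mul ldiv rdiv : M → M → M) (e : M)
    (mul' ldiv' rdiv' : M' → M' → M') (e' : M')
    (r : M → (X → M') → Prop)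
    (he : r e (fun _ => e'))
    (hm : ∀ a b a' b', r a a' → r b b' → r (mul a b) (fun x => mul' (a' x) (b' x)))
    (hl : ∀ a b a' b', r a a' → r b b' → r (ldiv a b) (fun x => ldiv' (a' x) (b' x)))
    (hr : ∀ a b a' b', r a a' → r b b' → r (rdiv a b) (fun x => rdiv' (a' x) (b' x)))
    (t : Lg.Term ℕ) (v : ℕ → M) (v' : X → ℕ → M') (h : ∀ i, r (v i) (fun x => v' x i)) :
    r (ev mul ldiv rdiv e v t) (fun x => ev mul' ldiv' rdiv' e' (v' x) t) := by
  induction t with
  | var i => exact h i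
  | @func l g ts ih =>
    match l, g, ts, ih with
    | 0, g, ts, ih => exact he
    | 1, g, ts, ih => exact Fin.elim0 g
    | 2, g, ts, ih =>
      have key : ∀ g' : Fin 3,
          r ((![mul (ev mul ldiv rdiv e v (ts 0)) (ev mul ldiv rdiv e v (ts 1)),
              ldiv (ev mul ldiv rdiv e v (ts 0)) (ev mul ldiv rdiv e v (ts 1)),
              rdiv (ev mul ldiv rdiv e v (ts 0)) (ev mul ldiv rdiv e v (ts 1))] : Fin 3 → M) g')
            (fun x => (![mul' (ev mul' ldiv' rdiv' e' (v' x) (ts 0)) (ev mul' ldiv' rdiv' e' (v' x) (ts 1)),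
              ldiv' (ev mul' ldiv' rdiv' e' (v' x) (ts 0)) (ev mul' ldiv' rdiv' e' (v' x) (ts 1)),
              rdiv' (ev mul' ldiv' rdiv' e' (v' x) (ts 0)) (ev mul' ldiv' rdiv' e' (v' x) (ts 1))]
                : Fin 3 → M') g') := by
        intro g'
        fin_cases g'
        · exact hm _ _ _ _ (ih 0) (ih 1)
        · exact hl _ _ _ _ (ih 0) (ih 1)
        · exact hr _ _ _ _ (ih 0) (ih 1)
      exact key g
    | (_ + 3), g, ts, ih => exact Fin.elim0 g

/-- A term only depends on finitely many variables. -/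
theorem term_bound (t : Lg.Term ℕ) : ∃ N : ℕ, ∀ (M : Type) (mul ldiv rdiv : M → M → M) (e : M)
    (v v' : ℕ → M), (∀ i < N, v i = v' i) →
      ev mul ldiv rdiv e v t = ev mul ldiv rdiv e v' t := by
  induction t with
  | var i =>
    refine ⟨i + 1, fun M mul ldiv rdiv e v v' h => ?_⟩
    exact h i (Nat.lt_succ_self i)
  | @func l g ts ih =>
    choose N hN using ih
    refine ⟨Finset.univ.sup N, fun M mul ldiv rdiv e v v' h => ?_⟩
    have h' : ∀ i, ev mul ldiv rdiv e v (ts i) = ev mul ldiv rdiv e v' (ts i) := by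
      intro i
      apply hN i
      intro j hj
      exact h j (lt_of_lt_of_le hj (Finset.le_sup (Finset.mem_univ i)))
    unfold ev at h' ⊢
    simp only [FirstOrder.Language.Term.realize]
    congr 1
    funext i
    exact h' i

/-! ### The loop of order 18 -/

/-- The first cocycle. -/
def f (a b : ZMod 3) : ZMod 2 := if a = 1 ∧ b = 2 then 1 else 0
/-- The second cocycle. -/
def G (a : ZMod 3) (z : ZMod 2) (b : ZMod 3) : ZMod 3 := if a = 0 ∧ z = 1 ∧ b = 1 then 1 else 0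

theorem f_zero_left (b : ZMod 3) : f 0 b = 0 := by revert b; decide
theorem f_zero_right (b : ZMod 3) : f b 0 = 0 := by revert b; decide
theorem G_zero_right (a : ZMod 3) (z : ZMod 2) : G a z 0 = 0 := by revert a z; decide
theorem G_zero_zero (b : ZMod 3) : G 0 0 b = 0 := by revert b; decide

abbrev L0 : Type := ZMod 3 × ZMod 2 × ZMod 3

def mul0 (a b : L0) : L0 :=
  (a.1 + b.1, a.2.1 + b.2.1 + f a.1 b.1, a.2.2 + b.2.2 + G a.1 a.2.1 b.1)
def ldiv0 (a b : L0) : L0 :=
  (b.1 - a.1, b.2.1 - a.2.1 - f a.1 (b.1 - a.1), b.2.2 - a.2.2 - G a.1 a.2.1 (b.1 - a.1))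
def rdiv0 (b a : L0) : L0 :=
  (b.1 - a.1, b.2.1 - a.2.1 - f (b.1 - a.1) a.1,
    b.2.2 - a.2.2 - G (b.1 - a.1) (b.2.1 - a.2.1 - f (b.1 - a.1) a.1) a.1)
def e0 : L0 := (0, 0, 0)

/-! ### The loop of order 36 -/

abbrev LQ : Type := ZMod 3 × ZMod 2 × ZMod 2 × ZMod 3

def mulQ (a b : LQ) : LQ :=
  (a.1 + b.1, a.2.1 + b.2.1 + f a.1 b.1, a.2.2.1 + b.2.2.1 + f a.1 b.1,
    a.2.2.2 + b.2.2.2 + (G a.1 a.2.1 b.1 - G a.1 a.2.2.1 b.1))
def ldivQ (a b : LQ) : LQ :=
  (b.1 - a.1, b.2.1 - a.2.1 - f a.1 (b.1 - a.1), b.2.2.1 - a.2.2.1 - f a.1 (b.1 - a.1),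
    b.2.2.2 - a.2.2.2 - (G a.1 a.2.1 (b.1 - a.1) - G a.1 a.2.2.1 (b.1 - a.1)))
def rdivQ (b a : LQ) : LQ :=
  (b.1 - a.1, b.2.1 - a.2.1 - f (b.1 - a.1) a.1, b.2.2.1 - a.2.2.1 - f (b.1 - a.1) a.1,
    b.2.2.2 - a.2.2.2 - (G (b.1 - a.1) (b.2.1 - a.2.1 - f (b.1 - a.1) a.1) a.1 -
      G (b.1 - a.1) (b.2.2.1 - a.2.2.1 - f (b.1 - a.1) a.1) a.1))
def eQ : LQ := (0, 0, 0, 0)

theorem loopQ (x y : LQ) : mulQ x (ldivQ x y) = y ∧ ldivQ x (mulQ x y) = y ∧
    mulQ (rdivQ y x) x = y ∧ rdivQ (mulQ y x) x = y := by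
  obtain ⟨x1, x2, x3, x4⟩ := x
  obtain ⟨y1, y2, y3, y4⟩ := y
  refine ⟨?_, ?_, ?_, ?_⟩ <;>
    simp only [mulQ, ldivQ, rdivQ, Prod.mk.injEq]
  · refine ⟨by ring, by ring, by ring, by ring⟩
  · simp only [add_sub_cancel_left]
    refine ⟨trivial, by ring, by ring, by ring⟩
  · refine ⟨by ring, by ring, by ring, by ring⟩
  · simp only [add_sub_cancel_right]
    refine ⟨trivial, by ring, by ring, ?_⟩
    have h1 : y2 + x2 + f y1 x1 - x2 - f y1 x1 = y2 := by ring
    have h2 : y3 + x3 + f y1 x1 - x3 - f y1 x1 = y3 := by ring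
    rw [h1, h2]
    ring

theorem unitQ (x : LQ) : mulQ eQ x = x ∧ mulQ x eQ = x := by
  obtain ⟨x1, x2, x3, x4⟩ := x
  simp only [mulQ, eQ, f_zero_left, f_zero_right, G_zero_right, G_zero_zero, Prod.mk.injEq]
  simp

/-- The upper central series. -/
def Zs : ℕ → Set LQ
  | 0 => {eQ}
  | (k + 1) => {a : LQ | ∀ x y : LQ,
          (∃ z ∈ Zs k, mulQ a x = mulQ (mulQ x a) z) ∧
          (∃ z ∈ Zs k, mulQ (mulQ a x) y = mulQ (mulQ a (mulQ x y)) z) ∧
          (∃ z ∈ Zs k, mulQ (mulQ x a) y = mulQ (mulQ x (mulQ a y)) z) ∧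
          (∃ z ∈ Zs k, mulQ (mulQ x y) a = mulQ (mulQ x (mulQ y a)) z)}

theorem Z1_sub (w : ZMod 3) : ((0, 0, 0, w) : LQ) ∈ Zs 1 := by
  intro x y
  refine ⟨⟨eQ, rfl, ?_⟩, ⟨eQ, rfl, ?_⟩, ⟨eQ, rfl, ?_⟩, ⟨eQ, rfl, ?_⟩⟩ <;>
  · rw [(unitQ _).2]
    simp only [mulQ, f_zero_left, f_zero_right, G_zero_right, G_zero_zero, add_zero, zero_add,
      sub_zero, Prod.mk.injEq]
    refine ⟨?_, ?_, ?_, ?_⟩ <;> first | trivial | ring

theorem diff1 {p r : LQ} (h1 : p.1 = r.1) (h2 : p.2.1 = r.2.1) (h3 : p.2.2.1 = r.2.2.1) :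
    ∃ z ∈ Zs 1, p = mulQ r z := by
  refine ⟨_, Z1_sub (p.2.2.2 - r.2.2.2), ?_⟩
  obtain ⟨p1, p2, p3, p4⟩ := p
  obtain ⟨r1, r2, r3, r4⟩ := r
  simp only at h1 h2 h3
  subst h1 h2 h3
  simp [mulQ, f_zero_right, G_zero_right]

theorem Z2_sub (z z' : ZMod 2) (w : ZMod 3) : ((0, z, z', w) : LQ) ∈ Zs 2 := by
  intro x y
  refine ⟨diff1 ?_ ?_ ?_, diff1 ?_ ?_ ?_, diff1 ?_ ?_ ?_, diff1 ?_ ?_ ?_⟩ <;>
  · simp only [mulQ, f_zero_left, f_zero_right, add_zero, zero_add]
    try ring

theorem diff2 {p r : LQ} (h1 : p.1 = r.1) :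
    ∃ z ∈ Zs 2, p = mulQ r z := by
  refine ⟨_, Z2_sub (p.2.1 - r.2.1) (p.2.2.1 - r.2.2.1) (p.2.2.2 - r.2.2.2), ?_⟩
  obtain ⟨p1, p2, p3, p4⟩ := p
  obtain ⟨r1, r2, r3, r4⟩ := r
  simp only at h1
  subst h1
  simp [mulQ, f_zero_right, G_zero_right]

theorem Z3_univ : Zs 3 = Set.univ := by
  refine Set.eq_univ_of_forall fun a => ?_
  intro x y
  refine ⟨diff2 ?_, diff2 ?_, diff2 ?_, diff2 ?_⟩ <;>
  · simp only [mulQ]
    ring

/-! ### The test loops -/

abbrev X (n : ℕ) : Type := Fin n → ZMod 3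
abbrev W (n : ℕ) : Type := (X n →+ ZMod 3) × (X n → ZMod 2) × ZMod 3

def mulW {n : ℕ} (a b : W n) : W n :=
  (a.1 + b.1, fun x => a.2.1 x + b.2.1 x + f (a.1 x) (b.1 x),
    a.2.2 + b.2.2 + ∑ x : X n, G (a.1 x) (a.2.1 x) (b.1 x))
def ldivW {n : ℕ} (a b : W n) : W n :=
  (b.1 - a.1, fun x => b.2.1 x - a.2.1 x - f (a.1 x) (b.1 x - a.1 x),
    b.2.2 - a.2.2 - ∑ x : X n, G (a.1 x) (a.2.1 x) (b.1 x - a.1 x))
def rdivW {n : ℕ} (b a : W n) : W n :=
  (b.1 - a.1, fun x => b.2.1 x - a.2.1 x - f (b.1 x - a.1 x) (a.1 x),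
    b.2.2 - a.2.2 - ∑ x : X n, G (b.1 x - a.1 x)
      (b.2.1 x - a.2.1 x - f (b.1 x - a.1 x) (a.1 x)) (a.1 x))
def eW {n : ℕ} : W n := (0, fun _ => 0, 0)

abbrev evQ (v : ℕ → LQ) (t : Lg.Term ℕ) : LQ := ev mulQ ldivQ rdivQ eQ v t
abbrev ev0 (v : ℕ → L0) (t : Lg.Term ℕ) : L0 := ev mul0 ldiv0 rdiv0 e0 v t
abbrev evW {n : ℕ} (v : ℕ → W n) (t : Lg.Term ℕ) : W n := ev mulW ldivW rdivW eW v t

def relQ (c : LQ) (a : Bool → L0) : Prop :=
  (a true).1 = c.1 ∧ (a false).1 = c.1 ∧ (a true).2.1 = c.2.1 ∧ (a false).2.1 = c.2.2.1 ∧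
    (a true).2.2 - (a false).2.2 = c.2.2.2

theorem relQ_term (t : Lg.Term ℕ) (v : ℕ → LQ) (v' : Bool → ℕ → L0)
    (h : ∀ i, relQ (v i) (fun x => v' x i)) :
    relQ (evQ v t) (fun x => ev0 (v' x) t) := by
  refine rel_term mulQ ldivQ rdivQ eQ mul0 ldiv0 rdiv0 e0 relQ ?_ ?_ ?_ ?_ t v v' h
  · simp [relQ, e0, eQ]
  · rintro a b a' b' ⟨h1, h2, h3, h4, h5⟩ ⟨k1, k2, k3, k4, k5⟩
    simp only [relQ, mul0, mulQ, h1, h2, h3, h4, k1, k2, k3, k4, ← h5, ← k5]
    refine ⟨trivial, trivial, trivial, trivial, by ring⟩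
  · rintro a b a' b' ⟨h1, h2, h3, h4, h5⟩ ⟨k1, k2, k3, k4, k5⟩
    simp only [relQ, ldiv0, ldivQ, h1, h2, h3, h4, k1, k2, k3, k4, ← h5, ← k5]
    refine ⟨trivial, trivial, trivial, trivial, by ring⟩
  · rintro a b a' b' ⟨h1, h2, h3, h4, h5⟩ ⟨k1, k2, k3, k4, k5⟩
    simp only [relQ, rdiv0, rdivQ, h1, h2, h3, h4, k1, k2, k3, k4, ← h5, ← k5]
    refine ⟨trivial, trivial, trivial, trivial, by ring⟩

def relW {n : ℕ} (c : W n) (a : X n → L0) : Prop :=
  (∀ x, (a x).1 = c.1 x) ∧ (∀ x, (a x).2.1 = c.2.1 x) ∧ ∑ x, (a x).2.2 = c.2.2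

theorem relW_term {n : ℕ} (t : Lg.Term ℕ) (v : ℕ → W n) (v' : X n → ℕ → L0)
    (h : ∀ i, relW (v i) (fun x => v' x i)) :
    relW (evW v t) (fun x => ev0 (v' x) t) := by
  refine rel_term mulW ldivW rdivW eW mul0 ldiv0 rdiv0 e0 relW ?_ ?_ ?_ ?_ t v v' h
  · simp [relW, e0, eW]
  · rintro a b a' b' ⟨h1, h2, h3⟩ ⟨k1, k2, k3⟩
    simp only [relW, mul0, mulW, h1, h2, k1, k2, ← h3, ← k3]
    refine ⟨fun x => rfl, fun x => trivial, by simp only [Finset.sum_add_distrib]⟩
  · rintro a b a' b' ⟨h1, h2, h3⟩ ⟨k1, k2, k3⟩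
    simp only [relW, ldiv0, ldivW, h1, h2, k1, k2, ← h3, ← k3]
    refine ⟨fun x => rfl, fun x => trivial, by simp only [Finset.sum_sub_distrib]⟩
  · rintro a b a' b' ⟨h1, h2, h3⟩ ⟨k1, k2, k3⟩
    simp only [relW, rdiv0, rdivW, h1, h2, k1, k2, ← h3, ← k3]
    refine ⟨fun x => rfl, fun x => trivial, by simp only [Finset.sum_sub_distrib]⟩

/-- A law of `LQ` says that the values in `L0` differ by an element of the last factor which only
depends on the first coordinates. -/
theorem law_L0 {s t : Lg.Term ℕ} (hst : ∀ v : ℕ → LQ, evQ v s = evQ v t)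
    (u u' : ℕ → L0) (h : ∀ i, (u i).1 = (u' i).1) :
    (ev0 u s).1 = (ev0 u t).1 ∧ (ev0 u s).2.1 = (ev0 u t).2.1 ∧
      (ev0 u s).2.2 - (ev0 u' s).2.2 = (ev0 u t).2.2 - (ev0 u' t).2.2 := by
  let v : ℕ → LQ := fun i => ((u i).1, (u i).2.1, (u' i).2.1, (u i).2.2 - (u' i).2.2)
  let v' : Bool → ℕ → L0 := fun b => if b then u else u'
  have hv : ∀ i, relQ (v i) (fun x => v' x i) := by
    intro i
    refine ⟨?_, ?_, ?_, ?_, ?_⟩ <;> simp [v, v', h i]
  obtain ⟨h1, h2, h3, h4, h5⟩ := relQ_term s v v' hv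
  obtain ⟨k1, k2, k3, k4, k5⟩ := relQ_term t v v' hv
  simp only [v', if_true, Bool.false_eq_true, if_false] at h1 h2 h3 h4 h5 k1 k2 k3 k4 k5
  rw [hst v] at h1 h2 h3 h4 h5
  exact ⟨h1.trans k1.symm, h3.trans k3.symm, h5.trans k5.symm⟩

theorem sum_zero {n : ℕ} (g : X n → ZMod 3) (v : X n) (hv : v ≠ 0)
    (hg : ∀ x, g (x + v) = g x) : ∑ x, g x = 0 := by
  have : Fact (Nat.Prime 3) := ⟨Nat.prime_three⟩
  obtain ⟨i, hi⟩ : ∃ i, v i ≠ 0 := by
    by_contra hcon
    push Not at hcon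
    exact hv (funext hcon)
  have h1 : ∑ x, g x * x i = ∑ x, g x * x i + v i * ∑ x, g x := by
    calc ∑ x, g x * x i = ∑ x, g (x + v) * (x + v) i :=
          (Equiv.sum_comp (Equiv.addRight v) (fun x => g x * x i)).symm
      _ = ∑ x, (g x * x i + v i * g x) := by
          refine Finset.sum_congr rfl fun x _ => ?_
          rw [hg x, Pi.add_apply]
          ring
      _ = ∑ x, g x * x i + v i * ∑ x, g x := by
          rw [Finset.sum_add_distrib, Finset.mul_sum]
  have h2 : v i * ∑ x, g x = 0 := by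
    have := h1
    rw [left_eq_add] at this
    exact this
  rcases mul_eq_zero.mp h2 with h | h
  · exact absurd h hi
  · exact h

theorem law_W {n : ℕ} {s t : Lg.Term ℕ} (hst : ∀ v : ℕ → LQ, evQ v s = evQ v t)
    (T : ℕ → W n) (v : X n) (hv : v ≠ 0) (hT : ∀ i, (T i).1 v = 0) :
    evW T s = evW T t := by
  let T' : X n → ℕ → L0 := fun x i => ((T i).1 x, (T i).2.1 x, if x = 0 then (T i).2.2 else 0)
  have hT' : ∀ i, relW (T i) (fun x => T' x i) := by
    intro i
    refine ⟨fun x => rfl, fun x => rfl, ?_⟩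
    simp [T']
  obtain ⟨h1, h2, h3⟩ := relW_term s T T' hT'
  obtain ⟨k1, k2, k3⟩ := relW_term t T T' hT'
  have hlaw := fun x => law_L0 hst (T' x) (T' x) (fun i => rfl)
  have e1 : (evW T s).1 = (evW T t).1 := by
    refine DFunLike.ext _ _ fun x => ?_
    rw [← h1 x, ← k1 x]
    exact (hlaw x).1
  have e2 : (evW T s).2.1 = (evW T t).2.1 := by
    funext x
    rw [← h2 x, ← k2 x]
    exact (hlaw x).2.1
  have e3 : (evW T s).2.2 = (evW T t).2.2 := by
    rw [← h3, ← k3, ← sub_eq_zero, ← Finset.sum_sub_distrib]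
    apply sum_zero _ v hv
    intro x
    have hshift : ∀ i, (T' (x + v) i).1 = (T' x i).1 := by
      intro i
      change (T i).1 (x + v) = (T i).1 x
      rw [map_add, hT i, add_zero]
    have := (law_L0 hst (T' (x + v)) (T' x) hshift).2.2
    linear_combination this
  exact Prod.ext e1 (Prod.ext e2 e3)

/-! ### The laws -/

def psiT (i : ℕ) : Lg.Term ℕ :=
  ldivT (mulT (mulT (vT i) (vT i)) (vT i)) (mulT (vT i) (mulT (vT i) (vT i)))
def PT : ℕ → Lg.Term ℕ
  | 0 => eT
  | (k + 1) => mulT (PT k) (psiT k)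
def nuT (m : ℕ) : Lg.Term ℕ := ldivT (mulT (vT m) (PT m)) (mulT (PT m) (vT m))

def eps (a : ZMod 3) : ZMod 3 := if a = 0 then 1 else -1
def sg (z : ZMod 2) : ZMod 3 := if z = 0 then 1 else -1
def del (a : ZMod 3) : ZMod 3 := if a = 1 then 1 else 0

theorem psi0 (a : L0) : (ldiv0 (mul0 (mul0 a a) a) (mul0 a (mul0 a a))).1 = 0 ∧
    sg (ldiv0 (mul0 (mul0 a a) a) (mul0 a (mul0 a a))).2.1 = eps a.1 := by
  obtain ⟨x, z, w⟩ := a
  simp only [mul0, ldiv0]
  constructor
  · ring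
  · have : ∀ (x : ZMod 3) (z : ZMod 2), sg (z + (z + z + f x x) + f x (x + x) -
        (z + z + f x x + z + f (x + x) x) -
        f (x + x + x) (x + (x + x) - (x + x + x))) = eps x := by decide
    exact this x z

theorem sg_add (z z' : ZMod 2) : sg (z + z') = sg z * sg z' := by revert z z'; decide

theorem P0 (u : ℕ → L0) (k : ℕ) : (ev0 u (PT k)).1 = 0 ∧
    sg (ev0 u (PT k)).2.1 = ∏ i ∈ Finset.range k, eps (u i).1 := by
  induction k with
  | zero => exact ⟨rfl, by simp [PT, ev0, ev_eT, e0, sg]⟩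
  | succ k ih =>
    obtain ⟨ih1, ih2⟩ := ih
    obtain ⟨q1, q2⟩ := psi0 (u k)
    have hval : ev0 u (PT (k + 1)) = mul0 (ev0 u (PT k))
      (ldiv0 (mul0 (mul0 (u k) (u k)) (u k)) (mul0 (u k) (mul0 (u k) (u k)))) := rfl
    rw [hval]
    constructor
    · simp only [mul0] at q1 ⊢
      rw [ih1]
      simpa using q1
    · rw [Finset.prod_range_succ, ← ih2, ← q2, ← sg_add]
      change sg (_ + _ + f (ev0 u (PT k)).1 _) = _
      rw [ih1, f_zero_left, add_zero]

theorem comm0 (p v : L0) (hp : p.1 = 0) :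
    ldiv0 (mul0 v p) (mul0 p v) = (0, 0, (sg p.2.1 - 1) * del v.1) := by
  obtain ⟨p1, p2, p3⟩ := p
  obtain ⟨v1, v2, v3⟩ := v
  simp only at hp
  subst hp
  simp only [mul0, ldiv0, f_zero_left, f_zero_right, G_zero_right, add_zero, zero_add, sub_self,
    Prod.mk.injEq, true_and]
  constructor
  · ring
  · have : ∀ (p2 : ZMod 2) (v1 : ZMod 3), G 0 p2 v1 = (sg p2 - 1) * del v1 := by decide
    rw [this]
    ring

theorem nu0 (u : ℕ → L0) (m : ℕ) : ev0 u (nuT m) =
    (0, 0, ((∏ i ∈ Finset.range m, eps (u i).1) - 1) * del (u m).1) := by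
  obtain ⟨h1, h2⟩ := P0 u m
  have hval : ev0 u (nuT m) = ldiv0 (mul0 (u m) (ev0 u (PT m))) (mul0 (ev0 u (PT m)) (u m)) := rfl
  rw [hval, comm0 _ _ h1, h2]

theorem nuQ (v : ℕ → LQ) (m : ℕ) : evQ v (nuT m) = evQ v eT := by
  let u : ℕ → L0 := fun i => ((v i).1, (v i).2.1, (v i).2.2.2)
  let u' : ℕ → L0 := fun i => ((v i).1, (v i).2.2.1, 0)
  let v' : Bool → ℕ → L0 := fun b => if b then u else u'
  have hv : ∀ i, relQ (v i) (fun x => v' x i) := by
    intro i
    refine ⟨?_, ?_, ?_, ?_, ?_⟩ <;> simp [u, u', v']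
  obtain ⟨h1, h2, h3, h4, h5⟩ := relQ_term (nuT m) v v' hv
  simp only [v', if_true, Bool.false_eq_true, if_false, nu0] at h1 h2 h3 h4 h5
  have : ev0 u (nuT m) = ev0 u' (nuT m) := by rw [nu0, nu0]
  refine Prod.ext h1.symm (Prod.ext h3.symm (Prod.ext h4.symm ?_))
  rw [← h5]
  simp [u, u', evQ, ev_eT, eQ]

theorem sum_ne {m : ℕ} (hm : 1 ≤ m) :
    ∑ x : X (m + 1), ((∏ i : Fin m, eps (x i.castSucc)) - 1) * del (x (Fin.last m)) ≠ 0 := by
  have key : ∀ h : ZMod 3 → ZMod 3,
      ∑ x : X (m + 1), (∏ i : Fin m, h (x i.castSucc)) * del (x (Fin.last m)) =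
        (∑ a, h a) ^ m * (∑ a, del a) := by
    intro h
    have h1 := Finset.prod_univ_sum (fun _ : Fin (m + 1) => (Finset.univ : Finset (ZMod 3)))
      (fun i a => if i = Fin.last m then del a else h a)
    rw [Fintype.piFinset_univ] at h1
    rw [Fin.prod_univ_castSucc] at h1
    simp only [if_true, Fin.prod_univ_castSucc, Fin.castSucc_ne_last, if_false,
      Finset.prod_const, Finset.card_univ, Fintype.card_fin] at h1
    exact h1.symm
  have h1 := key eps
  have h2 := key (fun _ => 1)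
  simp only [Finset.prod_const_one] at h2
  simp only [sub_mul, Finset.sum_sub_distrib]
  rw [h1, h2]
  have e1 : ∑ a : ZMod 3, eps a = -1 := by decide
  have e2 : ∑ a : ZMod 3, del a = 1 := by decide
  have e3 : ∑ a : ZMod 3, (1 : ZMod 3) = 0 := by decide
  rw [e1, e2, e3, zero_pow (by omega)]
  rcases neg_one_pow_eq_or (ZMod 3) m with h | h <;> rw [h] <;> decide

/-- There is a finite nilpotent loop (signature: identity, multiplication, left and right division) whose identities are not all consequences of any finite set of its identities. -/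
theorem result :
    ∃ (Q : Type) (_ : Fintype Q)
      (_ : (FirstOrder.Language.mk (fun n => Fin (if n = 0 then 1 else if n = 2 then 3 else 0))
              (fun _ => Empty)).Structure Q)
      (mul ldiv rdiv : Q → Q → Q) (e : Q),
      (∀ x y : Q,
        FirstOrder.Language.Structure.funMap
            (L := FirstOrder.Language.mk
              (fun n => Fin (if n = 0 then 1 else if n = 2 then 3 else 0)) (fun _ => Empty))
            (n := 2) (0 : Fin 3) ![x, y] = mul x y ∧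
        FirstOrder.Language.Structure.funMap
            (L := FirstOrder.Language.mk
              (fun n => Fin (if n = 0 then 1 else if n = 2 then 3 else 0)) (fun _ => Empty))
            (n := 2) (1 : Fin 3) ![x, y] = ldiv x y ∧
        FirstOrder.Language.Structure.funMap
            (L := FirstOrder.Language.mk
              (fun n => Fin (if n = 0 then 1 else if n = 2 then 3 else 0)) (fun _ => Empty))
            (n := 2) (2 : Fin 3) ![x, y] = rdiv x y) ∧
      FirstOrder.Language.Structure.funMap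
          (L := FirstOrder.Language.mk
            (fun n => Fin (if n = 0 then 1 else if n = 2 then 3 else 0)) (fun _ => Empty))
          (M := Q) (n := 0) (0 : Fin 1) ![] = e ∧
      (∀ x y : Q, mul x (ldiv x y) = y ∧ ldiv x (mul x y) = y ∧
        mul (rdiv y x) x = y ∧ rdiv (mul y x) x = y) ∧
      (∀ x : Q, mul e x = x ∧ mul x e = x) ∧
      (∃ (n : ℕ) (Z : ℕ → Set Q), Z 0 = {e} ∧ Z n = Set.univ ∧
        ∀ k < n, Z (k + 1) = {a : Q | ∀ x y : Q,
          (∃ z ∈ Z k, mul a x = mul (mul x a) z) ∧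
          (∃ z ∈ Z k, mul (mul a x) y = mul (mul a (mul x y)) z) ∧
          (∃ z ∈ Z k, mul (mul x a) y = mul (mul x (mul a y)) z) ∧
          (∃ z ∈ Z k, mul (mul x y) a = mul (mul x (mul y a)) z)}) ∧
      ¬ ∃ B : Finset ((FirstOrder.Language.mk
              (fun n => Fin (if n = 0 then 1 else if n = 2 then 3 else 0))
              (fun _ => Empty)).Term ℕ ×
            (FirstOrder.Language.mk
              (fun n => Fin (if n = 0 then 1 else if n = 2 then 3 else 0))
              (fun _ => Empty)).Term ℕ),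
          (∀ p ∈ B, ∀ v : ℕ → Q, p.1.realize v = p.2.realize v) ∧
          ∀ (M : Type) [(FirstOrder.Language.mk
              (fun n => Fin (if n = 0 then 1 else if n = 2 then 3 else 0))
              (fun _ => Empty)).Structure M],
            (∀ p ∈ B, ∀ w : ℕ → M, p.1.realize w = p.2.realize w) →
            ∀ t s : (FirstOrder.Language.mk
                (fun n => Fin (if n = 0 then 1 else if n = 2 then 3 else 0))
                (fun _ => Empty)).Term ℕ,
              (∀ v : ℕ → Q, t.realize v = s.realize v) →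
              ∀ w : ℕ → M, t.realize w = s.realize w := by
  refine ⟨LQ, inferInstance, mkStr mulQ ldivQ rdivQ eQ, mulQ, ldivQ, rdivQ, eQ,
    fun x y => ⟨rfl, rfl, rfl⟩, rfl, loopQ, unitQ, ⟨3, Zs, rfl, Z3_univ, fun k _ => rfl⟩, ?_⟩
  rintro ⟨B, hB, hcons⟩
  -- a bound for the variables occurring in B
  obtain ⟨N, hN⟩ : ∃ N : ℕ, ∀ p ∈ B, ∀ (M : Type) (mul ldiv rdiv : M → M → M) (e : M)
      (v v' : ℕ → M), (∀ i < N, v i = v' i) →
        ev mul ldiv rdiv e v p.1 = ev mul ldiv rdiv e v' p.1 ∧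
        ev mul ldiv rdiv e v p.2 = ev mul ldiv rdiv e v' p.2 := by
    choose b hb using term_bound
    refine ⟨B.sup fun p => max (b p.1) (b p.2), fun p hp M mul ldiv rdiv e v v' h => ?_⟩
    have hle : max (b p.1) (b p.2) ≤ B.sup fun p => max (b p.1) (b p.2) :=
      Finset.le_sup (f := fun p => max (b p.1) (b p.2)) hp
    exact ⟨hb p.1 M mul ldiv rdiv e v v' fun i hi =>
        h i (lt_of_lt_of_le hi ((le_max_left _ _).trans hle)),
      hb p.2 M mul ldiv rdiv e v v' fun i hi =>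
        h i (lt_of_lt_of_le hi ((le_max_right _ _).trans hle))⟩
  have hWB : ∀ p ∈ B, ∀ w : ℕ → W (N + 2), evW w p.1 = evW w p.2 := by
    intro p hp w
    let w' : ℕ → W (N + 2) := fun i => if i < N then w i else eW
    have hw' : ∀ i < N, w i = w' i := fun i hi => by simp [w', hi]
    obtain ⟨c1, c2⟩ := hN p hp (W (N + 2)) mulW ldivW rdivW eW w w' hw'
    have hcard : Fintype.card (Fin N → ZMod 3) < Fintype.card (X (N + 2)) := by
      simp only [X, Fintype.card_fun, Fintype.card_fin, ZMod.card]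
      exact Nat.pow_lt_pow_right (by norm_num) (by omega)
    obtain ⟨x, y, hxy, hF⟩ := Fintype.exists_ne_map_eq_of_card_lt
      (fun (x : X (N + 2)) (i : Fin N) => (w i).1 x) hcard
    have hlaw : evW w' p.1 = evW w' p.2 := by
      refine law_W (fun v => hB p hp v) w' (x - y) (sub_ne_zero.mpr hxy) fun i => ?_
      by_cases hi : i < N
      · have := congrFun hF ⟨i, hi⟩
        simp only at this
        simp only [w', hi, if_true, map_sub, this, sub_self]
      · simp [w', hi, eW]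
    exact c1.trans (hlaw.trans c2.symm)
  have hfail := @hcons (W (N + 2)) (mkStr mulW ldivW rdivW eW) (fun p hp w => hWB p hp w)
    (nuT (N + 1)) eT (fun v => nuQ v (N + 1))
  -- the generators
  let T : ℕ → W (N + 2) := fun i =>
    if h : i < N + 2 then (Pi.evalAddMonoidHom (fun _ => ZMod 3) ⟨i, h⟩, fun _ => 0, 0) else eW
  have hT := hfail T
  change evW T (nuT (N + 1)) = evW T eT at hT
  let T' : X (N + 2) → ℕ → L0 := fun x i => ((T i).1 x, (T i).2.1 x, 0)
  have hT' : ∀ i, relW (T i) (fun x => T' x i) := by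
    intro i
    refine ⟨fun x => rfl, fun x => rfl, ?_⟩
    by_cases h : i < N + 2 <;> simp [T', T, h, eW]
  obtain ⟨-, -, h3⟩ := relW_term (nuT (N + 1)) T T' hT'
  rw [hT] at h3
  simp only [nu0] at h3
  change _ = (0 : ZMod 3) at h3
  refine sum_ne (m := N + 1) (by omega) ?_
  rw [← h3]
  refine Finset.sum_congr rfl fun x _ => ?_
  have hval : ∀ i : Fin (N + 2), (T' x i).1 = x i := by
    intro i
    simp [T', T, i.2]
  have e1 : (T' x (N + 1)).1 = x (Fin.last (N + 1)) := hval (Fin.last (N + 1))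
  have e2 : ∏ i ∈ Finset.range (N + 1), eps (T' x i).1 =
      ∏ i : Fin (N + 1), eps (x i.castSucc) := by
    rw [Finset.prod_range]
    exact Finset.prod_congr rfl fun i _ => by rw [← hval i.castSucc]; rfl
  rw [e1, e2]

end Pool.Agent.S01427
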