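import Pool.Statements.S01565
import Pool.Agent.Helper34.UnipotentReps
import Pool.Agent.Helper37.ILN.Top
import Pool.Agent.Helper87.ILN.PS
import Pool.Agent.Helper87.ILN.GT

set_option autoImplicit false
open Pool Pool.MP_59d614_al

namespace Pool.Agent.S01565

/-- Every Hausdorff locally compact, locally nilpotent, nonabelian, torsion-free group has a closed normal subgroup, neither trivial nor whole, such that x^n in it with n≥1 forces x in it. -/
theorem result :
    ∀ (G : Type) [Group G] [TopologicalSpace G] [IsTopologicalGroup G]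
      [LocallyCompactSpace G] [T2Space G],
      (∀ s : Finset G, Group.IsNilpotent (Subgroup.closure (s : Set G))) →
      (∃ a b : G, a * b ≠ b * a) →
      (∀ g : G, ∀ n : ℕ, 0 < n → g ^ n = 1 → g = 1) →
      ∃ H : Subgroup G, H.Normal ∧ IsClosed (H : Set G) ∧ H ≠ ⊥ ∧ H ≠ ⊤ ∧
        ∀ g : G, ∀ n : ℕ, 0 < n → g ^ n ∈ H → g ∈ H := by
  have hJ : Pool.Agent.Helper87.ILN.StJ := by
    intro Γ _ _ _ htf g hg
    exact Pool.Agent.Helper34.UnipotentReps.exists_unipotent_rep Γ inferInstance htf g hg
  exact Pool.Agent.Helper37.ILN.top (Pool.Agent.Helper87.ILN.ps hJ) (Pool.Agent.Helper87.ILN.gt hJ)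

end Pool.Agent.S01565
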