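-- Disproof: a group in E_3^* that is not in E_3^o (negation of the problem statement).
import Pool.Statements.S01782

set_option autoImplicit false
open Pool Pool.MP_698b85_al

namespace Pool.Agent.S01782

/-! We disprove the statement at `k = 3`.

Let `R` be the ring of `5 x 5` matrices over `ZMod 4`, `J s` the additive group of matrices `A`
with `A i j = 0` unless `j ≥ i + s`, and let `G₀` be the group of unitriangular matrices whose
superdiagonal has the shape `(a, a + 2b, b, b)`.  If `u, v` in `G₀` have `u₀₁ ≡ v₀₁ mod 2`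
then `[u, v, v, v] = 1`, but `G₀` is not `3`-Engel.  The group of all sequences in `G₀` whose
`(0,1)` entries have constant parity is the counterexample. -/

abbrev R := Matrix (Fin 5) (Fin 5) (ZMod 4)

def J (s : ℕ) : AddSubgroup R where
  carrier := {A | ∀ i j : Fin 5, (j : ℕ) < (i : ℕ) + s → A i j = 0}
  add_mem' := by
    intro A B hA hB i j h
    simp [hA i j h, hB i j h]
  zero_mem' := by
    intro i j _
    rfl
  neg_mem' := by
    intro A hA i j h
    simp [hA i j h]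

theorem mem_J {s : ℕ} {A : R} : A ∈ J s ↔ ∀ i j : Fin 5, (j : ℕ) < (i : ℕ) + s → A i j = 0 :=
  Iff.rfl

theorem mul_mem_J {s t : ℕ} {A B : R} (hA : A ∈ J s) (hB : B ∈ J t) : A * B ∈ J (s + t) := by
  intro i j h
  rw [Matrix.mul_apply]
  apply Finset.sum_eq_zero
  intro k _
  by_cases hk : (k : ℕ) < (i : ℕ) + s
  · rw [hA i k hk, zero_mul]
  · rw [hB k j (by omega), mul_zero]

theorem J_mono {s t : ℕ} (h : s ≤ t) {A : R} (hA : A ∈ J t) : A ∈ J s := by
  intro i j hij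
  exact hA i j (by omega)

theorem J5 {A : R} (hA : A ∈ J 5) : A = 0 := by
  ext i j
  exact hA i j (by omega)

/-- units whose difference from `1` (and that of the inverse) lies in `J s` -/
def U (s : ℕ) (u : Rˣ) : Prop := ((u : R) - 1) ∈ J s ∧ (((u⁻¹ : Rˣ) : R) - 1) ∈ J s

theorem U_mul {s : ℕ} {u v : Rˣ} (hu : U s u) (hv : U s v) : U s (u * v) := by
  constructor
  · have h : ((u * v : Rˣ) : R) - 1 = ((u : R) - 1) * ((v : R) - 1) + ((u : R) - 1) + ((v : R) - 1) := by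
      push_cast
      noncomm_ring
    rw [h]
    exact (J s).add_mem ((J s).add_mem (J_mono (by omega) (mul_mem_J hu.1 hv.1)) hu.1) hv.1
  · have h : (((u * v)⁻¹ : Rˣ) : R) - 1 = (((v⁻¹ : Rˣ) : R) - 1) * (((u⁻¹ : Rˣ) : R) - 1)
        + (((v⁻¹ : Rˣ) : R) - 1) + (((u⁻¹ : Rˣ) : R) - 1) := by
      rw [mul_inv_rev]
      push_cast
      noncomm_ring
    rw [h]
    exact (J s).add_mem ((J s).add_mem (J_mono (by omega) (mul_mem_J hv.2 hu.2)) hv.2) hu.2

theorem U_inv {s : ℕ} {u : Rˣ} (hu : U s u) : U s u⁻¹ := by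
  refine ⟨hu.2, ?_⟩
  rw [inv_inv]
  exact hu.1

theorem U_mono {s t : ℕ} (h : s ≤ t) {u : Rˣ} (hu : U t u) : U s u :=
  ⟨J_mono h hu.1, J_mono h hu.2⟩

/-- the commutator, in the form used in the statement -/
abbrev cm (v : Rˣ) (u : Rˣ) : Rˣ := u⁻¹ * v⁻¹ * u * v

theorem cm_spec {s : ℕ} (hs : 1 ≤ s) {u v : Rˣ} (hu : U s u) (hv : U 1 v) :
    U (s + 1) (cm v u) ∧
      ((cm v u : Rˣ) : R) - 1 -
        (((u : R) - 1) * ((v : R) - 1) - ((v : R) - 1) * ((u : R) - 1)) ∈ J (s + 2) := by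
  have hc : ((u : R) - 1) * ((v : R) - 1) - ((v : R) - 1) * ((u : R) - 1) ∈ J (s + 1) := by
    apply (J (s + 1)).sub_mem
    · exact mul_mem_J hu.1 hv.1
    · have := mul_mem_J hv.1 hu.1
      rwa [add_comm 1 s] at this
  have e1 : ((cm v u : Rˣ) : R) - 1 -
        (((u : R) - 1) * ((v : R) - 1) - ((v : R) - 1) * ((u : R) - 1))
      = (((u⁻¹ : Rˣ) : R) * ((v⁻¹ : Rˣ) : R) - 1) *
        (((u : R) - 1) * ((v : R) - 1) - ((v : R) - 1) * ((u : R) - 1)) := by
    have h1 : ((u⁻¹ : Rˣ) : R) * ((v⁻¹ : Rˣ) : R) * ((v : R) * (u : R)) = 1 := by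
      rw [← Units.val_mul, ← Units.val_mul, ← Units.val_mul]
      simp
    have h2 : ((cm v u : Rˣ) : R) = ((u⁻¹ : Rˣ) : R) * ((v⁻¹ : Rˣ) : R) * ((u : R) * (v : R)) := by
      simp [cm, mul_assoc]
    rw [h2]
    have h3 : (((u⁻¹ : Rˣ) : R) * ((v⁻¹ : Rˣ) : R) - 1) *
        (((u : R) - 1) * ((v : R) - 1) - ((v : R) - 1) * ((u : R) - 1))
        = ((u⁻¹ : Rˣ) : R) * ((v⁻¹ : Rˣ) : R) * ((u : R) * (v : R))
          - ((u⁻¹ : Rˣ) : R) * ((v⁻¹ : Rˣ) : R) * ((v : R) * (u : R))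
          - (((u : R) - 1) * ((v : R) - 1) - ((v : R) - 1) * ((u : R) - 1)) := by
      noncomm_ring
    rw [h3, h1]
  have e2 : (((cm v u)⁻¹ : Rˣ) : R) - 1
      = -((((v⁻¹ : Rˣ) : R) * ((u⁻¹ : Rˣ) : R) - 1) *
        (((u : R) - 1) * ((v : R) - 1) - ((v : R) - 1) * ((u : R) - 1)))
        - (((u : R) - 1) * ((v : R) - 1) - ((v : R) - 1) * ((u : R) - 1)) := by
    have h1 : ((v⁻¹ : Rˣ) : R) * ((u⁻¹ : Rˣ) : R) * ((u : R) * (v : R)) = 1 := by
      rw [← Units.val_mul, ← Units.val_mul, ← Units.val_mul]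
      simp
    have h2 : (((cm v u)⁻¹ : Rˣ) : R)
        = ((v⁻¹ : Rˣ) : R) * ((u⁻¹ : Rˣ) : R) * ((v : R) * (u : R)) := by
      simp [cm, mul_assoc]
    rw [h2]
    have h3 : -((((v⁻¹ : Rˣ) : R) * ((u⁻¹ : Rˣ) : R) - 1) *
        (((u : R) - 1) * ((v : R) - 1) - ((v : R) - 1) * ((u : R) - 1)))
        - (((u : R) - 1) * ((v : R) - 1) - ((v : R) - 1) * ((u : R) - 1))
        = ((v⁻¹ : Rˣ) : R) * ((u⁻¹ : Rˣ) : R) * ((v : R) * (u : R))
          - ((v⁻¹ : Rˣ) : R) * ((u⁻¹ : Rˣ) : R) * ((u : R) * (v : R)) := by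
      noncomm_ring
    rw [h3, h1]
  have k1 : ((u⁻¹ : Rˣ) : R) * ((v⁻¹ : Rˣ) : R) - 1 ∈ J 1 := by
    have := (U_mul (U_inv (U_mono hs hu)) (U_inv hv)).1
    rwa [Units.val_mul] at this
  have k2 : ((v⁻¹ : Rˣ) : R) * ((u⁻¹ : Rˣ) : R) - 1 ∈ J 1 := by
    have := (U_mul (U_inv hv) (U_inv (U_mono hs hu))).1
    rwa [Units.val_mul] at this
  have m1 : ((cm v u : Rˣ) : R) - 1 -
        (((u : R) - 1) * ((v : R) - 1) - ((v : R) - 1) * ((u : R) - 1)) ∈ J (s + 2) := by
    rw [e1]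
    have := mul_mem_J k1 hc
    rwa [show 1 + (s + 1) = s + 2 by omega] at this
  refine ⟨⟨?_, ?_⟩, m1⟩
  · have := (J (s + 1)).add_mem (J_mono (by omega) m1) hc
    rwa [sub_add_cancel] at this
  · rw [e2]
    apply (J (s + 1)).sub_mem _ hc
    apply (J (s + 1)).neg_mem
    have := mul_mem_J k2 hc
    exact J_mono (by omega) this

/-- the associative commutator -/
abbrev br (A B : R) : R := A * B - B * A

theorem br_sub (A A' B : R) : br A B - br A' B = br (A - A') B := by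
  simp only [br]
  noncomm_ring

theorem br_mem {s t : ℕ} {A B : R} (hA : A ∈ J s) (hB : B ∈ J t) : br A B ∈ J (s + t) := by
  apply (J (s + t)).sub_mem
  · exact mul_mem_J hA hB
  · have := mul_mem_J hB hA
    rwa [add_comm t s] at this

theorem triple {u v : Rˣ} (hu : U 1 u) (hv : U 1 v) :
    ((cm v (cm v (cm v u)) : Rˣ) : R) - 1
      = br (br (br ((u : R) - 1) ((v : R) - 1)) ((v : R) - 1)) ((v : R) - 1) := by
  obtain ⟨h1, d1⟩ := cm_spec (le_refl 1) hu hv
  obtain ⟨h2, d2⟩ := cm_spec (by norm_num) h1 hv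
  obtain ⟨h3, d3⟩ := cm_spec (by norm_num) h2 hv
  set c1 := cm v u with hc1
  set c2 := cm v c1 with hc2
  set c3 := cm v c2 with hc3
  set A : R := (u : R) - 1 with hA
  set V : R := (v : R) - 1 with hV
  have hVJ : V ∈ J 1 := hv.1
  -- c2 - 1 = br (br A V) V mod J 4
  have s2 : ((c2 : Rˣ) : R) - 1 - br (br A V) V ∈ J 4 := by
    have e : ((c2 : Rˣ) : R) - 1 - br (br A V) V
        = (((c2 : Rˣ) : R) - 1 - br (((c1 : Rˣ) : R) - 1) V)
          + (br (((c1 : Rˣ) : R) - 1) V - br (br A V) V) := by abel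
    rw [e]
    apply (J 4).add_mem
    · exact d2
    · rw [br_sub]
      exact br_mem (s := 3) (t := 1) d1 hVJ
  have s3 : ((c3 : Rˣ) : R) - 1 - br (br (br A V) V) V ∈ J 5 := by
    have e : ((c3 : Rˣ) : R) - 1 - br (br (br A V) V) V
        = (((c3 : Rˣ) : R) - 1 - br (((c2 : Rˣ) : R) - 1) V)
          + (br (((c2 : Rˣ) : R) - 1) V - br (br (br A V) V) V) := by abel
    rw [e]
    apply (J 5).add_mem
    · exact d3
    · rw [br_sub]
      exact br_mem (s := 4) (t := 1) s2 hVJ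
  exact sub_eq_zero.mp (J5 s3)

/-- the value of the triple bracket -/
def val (a b i j : ZMod 4) : ZMod 4 := 2 * j * (i - j) * (b * i - a * j)

def shape (A : R) : Prop := A 1 2 = A 0 1 + 2 * A 2 3 ∧ A 3 4 = A 2 3

theorem br_entry {A V : R} (hA : A ∈ J 1) (hV : V ∈ J 1) (sA : shape A) (sV : shape V) :
    br (br (br A V) V) V 0 4 = val (A 0 1) (A 2 3) (V 0 1) (V 2 3) := by
  have a : ∀ i j : Fin 5, (j : ℕ) ≤ (i : ℕ) → A i j = 0 := fun i j h => hA i j (by omega)
  have v : ∀ i j : Fin 5, (j : ℕ) ≤ (i : ℕ) → V i j = 0 := fun i j h => hV i j (by omega)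
  simp only [br, Matrix.sub_apply, Matrix.mul_apply, Fin.sum_univ_five]
  simp only [a 0 0 (by decide), a 1 0 (by decide), a 1 1 (by decide), a 2 0 (by decide),
    a 2 1 (by decide), a 2 2 (by decide), a 3 0 (by decide), a 3 1 (by decide), a 3 2 (by decide),
    a 3 3 (by decide), a 4 0 (by decide), a 4 1 (by decide), a 4 2 (by decide), a 4 3 (by decide),
    a 4 4 (by decide),
    v 0 0 (by decide), v 1 0 (by decide), v 1 1 (by decide), v 2 0 (by decide),
    v 2 1 (by decide), v 2 2 (by decide), v 3 0 (by decide), v 3 1 (by decide), v 3 2 (by decide),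
    v 3 3 (by decide), v 4 0 (by decide), v 4 1 (by decide), v 4 2 (by decide), v 4 3 (by decide),
    v 4 4 (by decide), sA.1, sA.2, sV.1, sV.2, val]
  generalize A 0 1 = a1
  generalize A 2 3 = a2
  generalize V 0 1 = v1
  generalize V 2 3 = v2
  ring

theorem val_zero : ∀ a b i j : ZMod 4, 2 * a = 2 * i → val a b i j = 0 := by
  unfold val
  decide

theorem triple_eq_one {u v : Rˣ} (hu : U 1 u) (hv : U 1 v) (su : shape ((u : R) - 1))
    (sv : shape ((v : R) - 1)) (h : 2 * ((u : R) - 1) 0 1 = 2 * ((v : R) - 1) 0 1) :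
    cm v (cm v (cm v u)) = 1 := by
  have t := triple hu hv
  have hJ : br (br (br ((u : R) - 1) ((v : R) - 1)) ((v : R) - 1)) ((v : R) - 1) ∈ J 4 :=
    br_mem (s := 3) (t := 1) (br_mem (s := 2) (t := 1) (br_mem (s := 1) (t := 1) hu.1 hv.1) hv.1) hv.1
  have z : ((cm v (cm v (cm v u)) : Rˣ) : R) - 1 = 0 := by
    rw [t]
    ext i j
    by_cases hij : (j : ℕ) < (i : ℕ) + 4
    · exact hJ i j hij
    · have hi : i = 0 := by
        apply Fin.ext
        simp
        omega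
      have hj : j = 4 := by
        apply Fin.ext
        have : ((4 : Fin 5) : ℕ) = 4 := rfl
        omega
      subst hi hj
      rw [br_entry hu.1 hv.1 su sv]
      exact val_zero _ _ _ _ h
  apply Units.ext
  rw [Units.val_one]
  exact sub_eq_zero.mp z

/-- the group `G₀` -/
def good (u : Rˣ) : Prop := U 1 u ∧ shape ((u : R) - 1)

theorem sdiag_mul {u v : Rˣ} (hu : U 1 u) (hv : U 1 v) (i j : Fin 5) (h : (j : ℕ) < i + 2) :
    (((u * v : Rˣ) : R) - 1) i j = ((u : R) - 1) i j + ((v : R) - 1) i j := by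
  have h1 : ((u * v : Rˣ) : R) - 1 = ((u : R) - 1) * ((v : R) - 1) + ((u : R) - 1) + ((v : R) - 1) := by
    push_cast
    noncomm_ring
  have h2 : (((u : R) - 1) * ((v : R) - 1)) i j = 0 := (mul_mem_J hu.1 hv.1) i j h
  rw [h1, Matrix.add_apply, Matrix.add_apply, h2, zero_add]

theorem sdiag_inv {u : Rˣ} (hu : U 1 u) (i j : Fin 5) (h : (j : ℕ) < i + 2) :
    (((u⁻¹ : Rˣ) : R) - 1) i j = - ((u : R) - 1) i j := by
  have := sdiag_mul hu (U_inv hu) i j h
  rw [mul_inv_cancel, Units.val_one, sub_self, Matrix.zero_apply] at this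
  exact (neg_eq_of_add_eq_zero_right this.symm).symm

theorem good_mul {u v : Rˣ} (hu : good u) (hv : good v) : good (u * v) := by
  refine ⟨U_mul hu.1 hv.1, ?_⟩
  have e := sdiag_mul hu.1 hv.1
  refine ⟨?_, ?_⟩
  · rw [e 1 2 (by decide), e 0 1 (by decide), e 2 3 (by decide), hu.2.1, hv.2.1]
    ring
  · rw [e 3 4 (by decide), e 2 3 (by decide), hu.2.2, hv.2.2]

theorem good_inv {u : Rˣ} (hu : good u) : good u⁻¹ := by
  refine ⟨U_inv hu.1, ?_⟩
  have e := sdiag_inv hu.1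
  refine ⟨?_, ?_⟩
  · rw [e 1 2 (by decide), e 0 1 (by decide), e 2 3 (by decide), hu.2.1]
    ring
  · rw [e 3 4 (by decide), e 2 3 (by decide), hu.2.2]

theorem good_one : good 1 := by
  refine ⟨⟨?_, ?_⟩, ?_, ?_⟩
  · rw [Units.val_one, sub_self]; exact (J 1).zero_mem
  · rw [inv_one, Units.val_one, sub_self]; exact (J 1).zero_mem
  · rw [Units.val_one, sub_self]; simp
  · rw [Units.val_one, sub_self]; simp

/-- sequences in `G₀` whose `(0,1)` entry has constant parity -/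
def H : Subgroup (ℕ → Rˣ) where
  carrier := {f | ∀ l, good (f l) ∧ 2 * ((f l : R) - 1) 0 1 = 2 * ((f 0 : R) - 1) 0 1}
  mul_mem' := by
    intro f g hf hg l
    refine ⟨good_mul (hf l).1 (hg l).1, ?_⟩
    rw [Pi.mul_apply, Pi.mul_apply, sdiag_mul (hf l).1.1 (hg l).1.1 0 1 (by decide),
      sdiag_mul (hf 0).1.1 (hg 0).1.1 0 1 (by decide), mul_add, mul_add, (hf l).2, (hg l).2]
  one_mem' := by
    intro l
    exact ⟨good_one, rfl⟩
  inv_mem' := by
    intro f hf l
    refine ⟨good_inv (hf l).1, ?_⟩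
    rw [Pi.inv_apply, Pi.inv_apply, sdiag_inv (hf l).1.1 0 1 (by decide),
      sdiag_inv (hf 0).1.1 0 1 (by decide), mul_neg, mul_neg, (hf l).2]

theorem E3star (f g : H)
    (h : 2 * ((f.1 0 : R) - 1) 0 1 = 2 * ((g.1 0 : R) - 1) 0 1) :
    (fun z : H => z⁻¹ * g⁻¹ * z * g)^[3] f = 1 := by
  apply Subtype.ext
  funext l
  have hf := f.2 l
  have hg := g.2 l
  exact triple_eq_one hf.1.1 hg.1.1 hf.1.2 hg.1.2 (by rw [hf.2, hg.2, h])

/-- the generator `x` -/
def X : Rˣ where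
  val := !![1,1,0,0,0; 0,1,1,0,0; 0,0,1,0,0; 0,0,0,1,0; 0,0,0,0,1]
  inv := !![1,3,1,0,0; 0,1,3,0,0; 0,0,1,0,0; 0,0,0,1,0; 0,0,0,0,1]
  val_inv := by decide
  inv_val := by decide

/-- the generator `n` -/
def N : Rˣ where
  val := !![1,0,0,0,0; 0,1,2,0,0; 0,0,1,1,0; 0,0,0,1,1; 0,0,0,0,1]
  inv := !![1,0,0,0,0; 0,1,2,2,2; 0,0,1,3,1; 0,0,0,1,3; 0,0,0,0,1]
  val_inv := by decide
  inv_val := by decide

theorem good_X : good X := by
  refine ⟨⟨?_, ?_⟩, ?_, ?_⟩
  · have h : ∀ i : Fin 5, ∀ j : Fin 5, (j : ℕ) < (i : ℕ) + 1 → ((X : R) - 1) i j = (0 : ZMod 4) := by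
      intro i
      fin_cases i <;> decide
    exact h
  · have h : ∀ i : Fin 5, ∀ j : Fin 5, (j : ℕ) < (i : ℕ) + 1 →
        (((X⁻¹ : Rˣ) : R) - 1) i j = (0 : ZMod 4) := by
      intro i
      fin_cases i <;> decide
    exact h
  · decide
  · decide

theorem good_N : good N := by
  refine ⟨⟨?_, ?_⟩, ?_, ?_⟩
  · have h : ∀ i : Fin 5, ∀ j : Fin 5, (j : ℕ) < (i : ℕ) + 1 → ((N : R) - 1) i j = (0 : ZMod 4) := by
      intro i
      fin_cases i <;> decide
    exact h
  · have h : ∀ i : Fin 5, ∀ j : Fin 5, (j : ℕ) < (i : ℕ) + 1 →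
        (((N⁻¹ : Rˣ) : R) - 1) i j = (0 : ZMod 4) := by
      intro i
      fin_cases i <;> decide
    exact h
  · decide
  · decide

theorem XN_ne : cm N (cm N (cm N X)) ≠ 1 := by
  intro h
  have t := triple good_X.1 good_N.1
  rw [h, Units.val_one, sub_self] at t
  have e := br_entry good_X.1.1 good_N.1.1 good_X.2 good_N.2
  rw [← t] at e
  revert e
  decide

/-- the infinite set `T = {t l}` -/
def t (l : ℕ) : H := ⟨fun m => if m = l then X * N else X, by
  intro m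
  have hg : ∀ m, good (if m = l then X * N else X) := by
    intro m
    split_ifs
    · exact good_mul good_X good_N
    · exact good_X
  have hp : ∀ m, (((if m = l then X * N else X : Rˣ) : R) - 1) 0 1 = ((X : R) - 1) 0 1 := by
    intro m
    split_ifs
    · rw [sdiag_mul good_X.1 good_N.1 0 1 (by decide)]
      decide
    · rfl
  refine ⟨hg m, ?_⟩
  rw [hp m, hp 0]⟩

theorem t_apply (l m : ℕ) : (t l).1 m = if m = l then X * N else X := rfl

theorem N_ne_one : N ≠ 1 := by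
  intro h
  have : (N : R) 3 4 = (1 : R) 3 4 := by rw [h]; rfl
  revert this
  decide

theorem t_inj : Function.Injective t := by
  intro l m h
  by_contra hne
  have h1 : (t l).1 l = (t m).1 l := by rw [h]
  rw [t_apply, t_apply, if_pos rfl, if_neg hne] at h1
  exact N_ne_one (mul_eq_left.mp h1)

/-- The negation of the preceding statement: For every k ≥ 1 and group G: if every infinite subset has distinct x,y with [x,_k y]=[y,_k x]=1, then every infinite subset has distinct x,y generating a k-Engel subgroup. -/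
theorem result :
    ¬ (∀ k : ℕ, 1 ≤ k → ∀ (G : Type) [Group G],
      (∀ S : Set G, S.Infinite →
        ∃ x ∈ S, ∃ y ∈ S, x ≠ y ∧
          (fun z => z⁻¹ * y⁻¹ * z * y)^[k] x = 1 ∧
          (fun z => z⁻¹ * x⁻¹ * z * x)^[k] y = 1) →
      (∀ S : Set G, S.Infinite →
        ∃ x ∈ S, ∃ y ∈ S, x ≠ y ∧
          ∀ a ∈ Subgroup.closure ({x, y} : Set G),
            ∀ b ∈ Subgroup.closure ({x, y} : Set G),
              (fun z => z⁻¹ * b⁻¹ * z * b)^[k] a = 1)) := by
  intro hall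
  have key := hall 3 (by norm_num) H ?_ (Set.range t) (Set.infinite_range_of_injective t_inj)
  · obtain ⟨x, ⟨l, rfl⟩, y, ⟨m, rfl⟩, hne, hE⟩ := key
    have hlm : l ≠ m := fun h => hne (by rw [h])
    have hx : t l ∈ Subgroup.closure ({t l, t m} : Set H) :=
      Subgroup.subset_closure (by simp)
    have hy : t m ∈ Subgroup.closure ({t l, t m} : Set H) :=
      Subgroup.subset_closure (by simp)
    have h1 := hE (t m) hy ((t m)⁻¹ * t l)
      (Subgroup.mul_mem _ (Subgroup.inv_mem _ hy) hx)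
    have h2 := congrFun (congrArg Subtype.val h1) l
    have e1 : (t m).1 l = X := by rw [t_apply, if_neg hlm]
    have e2 : (((t m)⁻¹ * t l : H)).1 l = N := by
      change ((t m).1 l)⁻¹ * (t l).1 l = N
      rw [t_apply, t_apply, if_neg hlm, if_pos rfl, inv_mul_cancel_left]
    apply XN_ne
    rw [← e1, ← e2]
    exact h2
  · intro S hS
    obtain ⟨x, hx, y, hy, hne, h⟩ := hS.exists_ne_map_eq_of_mapsTo
      (f := fun f : H => 2 * ((f.1 0 : R) - 1) 0 1) (t := Set.univ)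
      (fun _ _ => Set.mem_univ _) Set.finite_univ
    exact ⟨x, hx, y, hy, hne, E3star x y h, E3star y x h.symm⟩

end Pool.Agent.S01782
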