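import Pool.Statements.S01965
import Pool.Agent.Helper52.NA.Final

set_option autoImplicit false
open Pool Pool.MP_778634_al

namespace Pool.Agent.S01965

/-- There is a finite invertible automaton over a finite alphabet whose state transformations of finite words generate a group that has no invariant finitely additive probability mean and contains no free subgroup of rank 2. -/
theorem result :
    ∃ (d n : ℕ) (σ : Fin n → Equiv.Perm (Fin d)) (τ : Fin n → Fin d → Fin n)
      (f : Fin n → Equiv.Perm (List (Fin d))),
      (∀ q : Fin n, f q [] = []) ∧
      (∀ (q : Fin n) (x : Fin d) (w : List (Fin d)),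
          f q (x :: w) = σ q x :: f (τ q x) w) ∧
      (¬ ∃ m : Set ↥(Subgroup.closure (Set.range f)) → ℝ,
          (∀ A, 0 ≤ m A) ∧ m Set.univ = 1 ∧
          (∀ A B, Disjoint A B → m (A ∪ B) = m A + m B) ∧
          (∀ (g : ↥(Subgroup.closure (Set.range f))) A,
              m ((fun x => g * x) '' A) = m A)) ∧
      (¬ ∃ φ : FreeGroup (Fin 2) →* ↥(Subgroup.closure (Set.range f)),
          Function.Injective φ) := by
  exact Pool.Agent.Helper52.NA.final

end Pool.Agent.S01965
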