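import Pool.Statements.S02491
import Pool.Agent.Polc.Main

set_option autoImplicit false
open Pool Pool.MP_9e8505_al

namespace Pool.Agent.S02491

/-- For every polycyclic group Γ and every nonzero finitely generated ZΓ-module A, there is a nonzero submodule Y that is stunted (ω-hypercentralizers of all subgroups stabilize at a uniform step h) and eremitic (C_Y(xⁿ) ⊆ C_Y(xᵉ) for all x, n ≥ 1). -/
theorem result :
    ∀ (Γ : Type) [Group Γ], IsSolvable Γ → (∀ H : Subgroup Γ, H.FG) →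
      ∀ (A : Type) [AddCommGroup A] [DistribMulAction Γ A],
        (∃ S : Finset A, AddSubgroup.closure {a : A | ∃ g : Γ, ∃ s ∈ S, a = g • s} = ⊤) →
        Nontrivial A →
        ∃ Y : AddSubgroup A, Y ≠ ⊥ ∧ (∀ g : Γ, ∀ y ∈ Y, g • y ∈ Y) ∧
          (∃ h : ℕ, ∀ H : Subgroup Γ, ∀ y ∈ Y,
            (∃ n : ℕ, ∀ l : List Γ, l.length = n → (∀ x ∈ l, x ∈ H) →
                l.foldl (fun (b : A) (x : Γ) => x • b - b) y = 0) →
            ∀ l : List Γ, l.length = h → (∀ x ∈ l, x ∈ H) →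
                l.foldl (fun (b : A) (x : Γ) => x • b - b) y = 0) ∧
          (∃ e : ℕ, 0 < e ∧ ∀ x : Γ, ∀ n : ℕ, 0 < n → ∀ y ∈ Y,
            x ^ n • y = y → x ^ e • y = y) := by
  exact Pool.Agent.Polc.stunted_eremitic_of_ih Pool.Agent.Polc.ih_all

end Pool.Agent.S02491
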