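import Pool.Statements.S02634

set_option autoImplicit false
open Pool Pool.MP_aa6e24_al

namespace Pool.Agent.S02634

/-- The alternating group of degree five. -/
abbrev A5 := alternatingGroup (Fin 5)

/-- The double transposition (0 1)(2 3). -/
def sg : A5 := ⟨Equiv.swap 0 1 * Equiv.swap 2 3, by
  rw [Equiv.Perm.mem_alternatingGroup]; decide⟩

theorem sg_sq : sg * sg = 1 := by decide +kernel

theorem sg_ne : sg ≠ 1 := by decide +kernel

/-- Centralizers of involutions of `A5` have exponent two. -/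
theorem cent_sq : ∀ b : A5, b * b = 1 → b ≠ 1 → ∀ c : A5, c * b = b * c → c * c = 1 := by
  decide +kernel

/-- Every involution of `A5` inverts an element of order three, as a product with a conjugate. -/
theorem three : ∀ b : A5, b * b = 1 → b ≠ 1 →
    ∃ g : A5, (b * (g * b * g⁻¹)) ^ 3 = 1 ∧ b * (g * b * g⁻¹) ≠ 1 := by
  decide +kernel

/-- Two commuting conjugates of `sg`, both different from `sg` up to the product. -/
theorem comm_pair : ∃ x y : A5, x * sg * x⁻¹ * (y * sg * y⁻¹) ≠ 1 ∧
    x * sg * x⁻¹ * (y * sg * y⁻¹) * (x * sg * x⁻¹ * (y * sg * y⁻¹)) = 1 := by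
  decide +kernel

/-- The group of the counterexample. -/
abbrev GG := A5 × Multiplicative (ZMod 2)

/-- The involution of the counterexample. -/
def tt : GG := (sg, Multiplicative.ofAdd 1)

theorem z2_sq (c : Multiplicative (ZMod 2)) : c * c = 1 := by
  revert c; decide

theorem tt_sq : tt * tt = 1 := by
  apply Prod.ext
  · exact sg_sq
  · exact z2_sq _

theorem tt_ne : tt ≠ 1 := fun h => sg_ne (congrArg Prod.fst h)

theorem tt_order : orderOf tt = 2 :=
  orderOf_eq_prime (by rw [pow_two]; exact tt_sq) tt_ne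

/-- The elements of the set `D`. -/
def InD (d : GG) : Prop := (∃ x : GG, d = x * tt * x⁻¹) ∨
  (∃ x y : GG, d = x * tt * x⁻¹ * (y * tt * y⁻¹) ∧ orderOf d = 2)

theorem InD.fst {d : GG} (h : InD d) : d.1 * d.1 = 1 ∧ d.1 ≠ 1 := by
  rcases h with ⟨x, rfl⟩ | ⟨x, y, hd, ho⟩
  · constructor
    · have : (x * tt * x⁻¹) * (x * tt * x⁻¹) = 1 := by
        have h1 : (x * tt * x⁻¹) * (x * tt * x⁻¹) = x * (tt * tt) * x⁻¹ := by group
        rw [h1, tt_sq]; group
      exact congrArg Prod.fst this
    · intro h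
      have h2 : x.1 * sg * x.1⁻¹ = 1 := h
      have h3 : sg = x.1⁻¹ * (x.1 * sg * x.1⁻¹) * x.1 := by group
      rw [h2] at h3
      apply sg_ne
      rw [h3]; group
  · have h2 : d * d = 1 := by
      have h0 := pow_orderOf_eq_one d
      rw [ho, pow_two] at h0
      exact h0
    have hne : d ≠ 1 := by
      intro h; rw [h, orderOf_one] at ho; omega
    have hs : d.2 = 1 := by
      rw [hd]
      have : (x * tt * x⁻¹ * (y * tt * y⁻¹)).2
          = x.2 * tt.2 * x.2⁻¹ * (y.2 * tt.2 * y.2⁻¹) := rfl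
      rw [this]
      have e1 : x.2 * tt.2 * x.2⁻¹ = tt.2 := by
        rw [mul_comm x.2, mul_assoc, mul_inv_cancel, mul_one]
      have e2 : y.2 * tt.2 * y.2⁻¹ = tt.2 := by
        rw [mul_comm y.2, mul_assoc, mul_inv_cancel, mul_one]
      rw [e1, e2]; exact z2_sq _
    refine ⟨congrArg Prod.fst h2, ?_⟩
    intro h
    exact hne (Prod.ext h hs)

/-- The negation of the preceding statement: For all finite groups G and t of order 2: if every element of D (conjugates of t, or order-2 products of two conjugates) misses some Sylow 2-subgroup, and for each d∈D commuting with t, t lies in every Sylow 2-subgroup of C_G(d), then every order-2 product of two conjugates of t is a conjugate of t. -/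
theorem result :
    ¬ (∀ (G : Type) [Group G] [Finite G] (t : G), orderOf t = 2 →
      (∀ d : G, ((∃ x : G, d = x * t * x⁻¹) ∨
          (∃ x y : G, d = x * t * x⁻¹ * (y * t * y⁻¹) ∧ orderOf d = 2)) →
        ∃ P : Sylow 2 G, d ∉ (P : Subgroup G)) →
      (∀ d : G, ((∃ x : G, d = x * t * x⁻¹) ∨
          (∃ x y : G, d = x * t * x⁻¹ * (y * t * y⁻¹) ∧ orderOf d = 2)) →
        d * t = t * d →
        ∀ P : Sylow 2 (Subgroup.centralizer ({d} : Set G)),
          t ∈ (P : Subgroup (Subgroup.centralizer ({d} : Set G))).map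
                (Subgroup.centralizer ({d} : Set G)).subtype) →
      ∀ x y : G, orderOf (x * t * x⁻¹ * (y * t * y⁻¹)) = 2 →
        ∃ z : G, x * t * x⁻¹ * (y * t * y⁻¹) = z * t * z⁻¹) := by
  intro H
  have key := H GG tt tt_order ?_ ?_
  · -- the contradiction
    obtain ⟨x, y, hne, hsq⟩ := comm_pair
    obtain ⟨z, hz⟩ := key (x, 1) (y, 1) (by
      apply orderOf_eq_prime
      · rw [pow_two]
        apply Prod.ext
        · exact hsq
        · exact z2_sq _
      · intro h
        exact hne (congrArg Prod.fst h))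
    have h2 := congrArg Prod.snd hz
    have e : z.2 * tt.2 * z.2⁻¹ = tt.2 := by
      rw [mul_comm z.2, mul_assoc, mul_inv_cancel, mul_one]
    have e' : ((x, (1 : Multiplicative (ZMod 2))) * tt * (x, 1)⁻¹ * ((y, 1) * tt * (y, 1)⁻¹)).2
        = 1 := by
      show (1 : Multiplicative (ZMod 2)) * tt.2 * 1⁻¹ * (1 * tt.2 * 1⁻¹) = 1
      decide
    rw [e'] at h2
    have h3 : (1 : Multiplicative (ZMod 2)) = tt.2 := h2.trans e
    exact absurd h3 (by decide)
  · -- no element of `D` lies in `O_2(G)`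
    intro d hd
    obtain ⟨hsq, hne⟩ := InD.fst (d := d) hd
    obtain ⟨g, hg3, hgne⟩ := three d.1 hsq hne
    by_contra hcon
    push Not at hcon
    obtain ⟨P⟩ : Nonempty (Sylow 2 GG) := inferInstance
    set g' : GG := (g, 1) with hg'
    have hd1 : d ∈ (P : Subgroup GG) := hcon P
    have hd2 : g' * d * g'⁻¹ ∈ (P : Subgroup GG) := by
      have := hcon (g'⁻¹ • P)
      rw [Sylow.coe_subgroup_smul, Subgroup.mem_pointwise_smul_iff_inv_smul_mem] at this
      simpa [MulAut.smul_def] using this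
    have hmem : d * (g' * d * g'⁻¹) ∈ (P : Subgroup GG) := mul_mem hd1 hd2
    have h3 : (d * (g' * d * g'⁻¹)) ^ 3 = 1 := by
      apply Prod.ext
      · exact hg3
      · have : ((d * (g' * d * g'⁻¹)) ^ 3).2 = (d.2 * (1 * d.2 * 1⁻¹)) ^ 3 := rfl
        rw [this, one_mul, inv_one, mul_one, z2_sq, one_pow]
        rfl
    have hne1 : d * (g' * d * g'⁻¹) ≠ 1 := fun h => hgne (congrArg Prod.fst h)
    obtain ⟨k, hk⟩ := P.2 ⟨_, hmem⟩
    have hk' : (d * (g' * d * g'⁻¹)) ^ (2 ^ k) = 1 := by
      have := congrArg (Subtype.val) hk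
      simpa using this
    have hdvd : orderOf (d * (g' * d * g'⁻¹)) ∣ 3 := orderOf_dvd_of_pow_eq_one h3
    have hdvd2 : orderOf (d * (g' * d * g'⁻¹)) ∣ 2 ^ k := orderOf_dvd_of_pow_eq_one hk'
    have hcop : Nat.Coprime 3 (2 ^ k) := Nat.Coprime.pow_right k (by norm_num)
    have : orderOf (d * (g' * d * g'⁻¹)) = 1 := Nat.eq_one_of_dvd_coprimes hcop hdvd hdvd2
    exact hne1 (orderOf_eq_one_iff.1 this)
  · -- the centralizers are 2-groups
    intro d hd hdt P
    obtain ⟨hsq, hne⟩ := InD.fst (d := d) hd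
    have hC : IsPGroup 2 (Subgroup.centralizer ({d} : Set GG)) := by
      intro c
      refine ⟨1, ?_⟩
      apply Subtype.ext
      have hc := c.2
      rw [Subgroup.mem_centralizer_singleton_iff] at hc
      have h1 : (c : GG).1 * d.1 = d.1 * (c : GG).1 := congrArg Prod.fst hc
      have h2 := cent_sq d.1 hsq hne _ h1
      show ((c ^ (2 ^ 1) : Subgroup.centralizer ({d} : Set GG)) : GG) = 1
      rw [pow_one, pow_two]
      exact Prod.ext h2 (z2_sq _)
    have hP : (⊤ : Subgroup (Subgroup.centralizer ({d} : Set GG))) = P :=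
      P.is_maximal' (hC.to_subgroup ⊤) le_top
    have ht : tt ∈ Subgroup.centralizer ({d} : Set GG) := by
      rw [Subgroup.mem_centralizer_singleton_iff]
      exact hdt.symm
    exact ⟨⟨tt, ht⟩, by rw [← hP]; exact Subgroup.mem_top _, rfl⟩

end Pool.Agent.S02634
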