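import Pool.Statements.S02638
import Pool.Agent.Helper40.ValComb
import Pool.Agent.Helper40.ValHull
import Pool.Agent.Helper40.ValMain

set_option autoImplicit false
open Pool Pool.MP_aa9b56_al

namespace Pool.Agent.S02638

/-- The negation of the preceding statement: Over a commutative ring with totally ordered ideals, every indecomposable pure-injective module N contains a uniserial module M by a pure-essential pure embedding, so N is the pure-injective hull of M. -/
theorem result :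
    ¬ (∀ (R : Type) [CommRing R], (∀ I J : Ideal R, I ≤ J ∨ J ≤ I) →
  ∀ (N : Type) [AddCommGroup N] [Module R N],
    Nontrivial N →
    (∀ A B : Submodule R N, IsCompl A B → A = ⊥ ∨ B = ⊥) →
    (∀ (X : Type) [AddCommGroup X] [Module R X] (g : N →ₗ[R] X),
      (∀ (Y : Type) [AddCommGroup Y] [Module R Y],
        Function.Injective (LinearMap.lTensor Y g)) →
      ∃ h : X →ₗ[R] N, h ∘ₗ g = LinearMap.id) →
    ∃ (M : Type) (_ : AddCommGroup M) (_ : Module R M),
      (∀ A B : Submodule R M, A ≤ B ∨ B ≤ A) ∧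
      ∃ i : M →ₗ[R] N,
        (∀ (Y : Type) [AddCommGroup Y] [Module R Y],
          Function.Injective (LinearMap.lTensor Y i)) ∧
        ∀ (X : Type) [AddCommGroup X] [Module R X] (g : N →ₗ[R] X),
          (∀ (Y : Type) [AddCommGroup Y] [Module R Y],
            Function.Injective (LinearMap.lTensor Y (g ∘ₗ i))) →
          (∀ (Y : Type) [AddCommGroup Y] [Module R Y],
            Function.Injective (LinearMap.lTensor Y g))) := by
  intro Hpos
  obtain ⟨ψ, hψ0, hψ1, hψ2⟩ := Pool.Agent.Helper40.ValComb.main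
    Pool.Agent.Helper40.ValComb.setting
  have : NoMaxOrder Pool.Agent.Helper40.ValComb.Om :=
    Cardinal.noMaxOrder (Cardinal.aleph0_le_aleph 2)
  have : Nonempty Pool.Agent.Helper40.ValComb.Om := Pool.Agent.Helper40.ValComb.setting.ne
  -- the residue field and the retraction
  obtain ⟨K, hK, ι, r, hr⟩ := Pool.Agent.Helper40.ValRing.exists_field
    (Pool.Agent.Helper40.ValComb.Om × Pool.Agent.Helper40.ValComb.Om)
  have hφ : Pool.Agent.Helper40.ValRing.Coh (fun μ ν ξ => ι (ψ μ ν ξ)) := by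
    refine ⟨?_, ?_⟩
    · intro μ
      funext ξ
      show ι (ψ μ μ ξ) = 0
      rw [hψ0 μ]
      exact map_zero ι
    · intro μ ν ρ hμν hνρ
      refine (hψ1 μ ν ρ hμν hνρ).subset ?_
      rintro ξ ⟨h1, h2⟩
      refine ⟨h1, fun h3 => h2 ?_⟩
      show ι (ψ μ ν ξ) + ι (ψ ν ρ ξ) = ι (ψ μ ρ ξ)
      rw [← map_add, h3]
  obtain ⟨z0, -, hz0⟩ := Pool.Agent.Helper40.ValComb.exists_min
    (Set.univ : Set Pool.Agent.Helper40.ValComb.Om) Set.univ_nonempty
  have htot : ∀ a b : Pool.Agent.Helper40.ValRing.RR (fun μ ν ξ => ι (ψ μ ν ξ)) hφ,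
      a ∣ b ∨ b ∣ a := by
    intro a b
    rcases Pool.Agent.Helper40.ValRing.dvd_total hφ a b with ⟨c, hc⟩ | ⟨c, hc⟩
    · exact Or.inl (Dvd.intro_left c hc)
    · exact Or.inr (Dvd.intro_left c hc)
  obtain ⟨E, _, _, S, m, hm, hmS, hcmp, hdiv⟩ := Pool.Agent.Helper40.ValHull.hull_step
    (Pool.Agent.Helper40.ValRing.RR (fun μ ν ξ => ι (ψ μ ν ξ)) hφ) htot
    (Pool.Agent.Helper40.ValRing.II hφ (Pool.Agent.Helper40.ValRing.aa z0)) (by
      intro h
      apply Pool.Agent.Helper40.ValRing.one_notMem_II hφ (Pool.Agent.Helper40.ValRing.aa_pos z0)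
      rw [h]
      exact Submodule.mem_top)
    (Hpos (Pool.Agent.Helper40.ValRing.RR (fun μ ν ξ => ι (ψ μ ν ξ)) hφ)
      (Pool.Agent.Helper40.ValRing.ideal_total hφ))
  apply hψ2
  exact Pool.Agent.Helper40.ValRing.core ι r hr ψ hφ z0 (fun x => hz0 x (Set.mem_univ x)) S m hm
    hcmp (fun μ => hdiv _ (fun s hs => Pool.Agent.Helper40.ValRing.rr_ann hφ z0 μ s hs))

end Pool.Agent.S02638
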