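import Pool.Statements.S04003
import Pool.Agent.Helper12.Godefroy6

set_option autoImplicit false
open Pool Pool.MP_1e94b9_an

namespace Pool.Agent.S04003

/-- For every separable real Banach space with no subspace isomorphic to ℓ¹, the norm closure of the convex hull of the weak*-exposed points of the dual unit ball is the whole dual unit ball. -/
theorem result :
    ∀ (X : Type) [NormedAddCommGroup X] [NormedSpace ℝ X] [CompleteSpace X]
      [TopologicalSpace.SeparableSpace X],
      (¬ ∃ T : (lp (fun _ : ℕ => ℝ) 1) →L[ℝ] X, ∃ c : ℝ, 0 < c ∧ ∀ a, c * ‖a‖ ≤ ‖T a‖) →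
      closure (convexHull ℝ
        {f : X →L[ℝ] ℝ | f ∈ Metric.closedBall (0 : X →L[ℝ] ℝ) 1 ∧
          ∃ x : X, ∀ g ∈ Metric.closedBall (0 : X →L[ℝ] ℝ) 1, g ≠ f → g x < f x})
        = Metric.closedBall (0 : X →L[ℝ] ℝ) 1 := by
  intro X _ _ _ _ hl1
  set E : Set (X →L[ℝ] ℝ) := {f : X →L[ℝ] ℝ | f ∈ Metric.closedBall (0 : X →L[ℝ] ℝ) 1 ∧
          ∃ x : X, ∀ g ∈ Metric.closedBall (0 : X →L[ℝ] ℝ) 1, g ≠ f → g x < f x} with hEdef
  have hEball : closure (convexHull ℝ E) ⊆ Metric.closedBall (0 : X →L[ℝ] ℝ) 1 :=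
    closure_minimal (convexHull_min (fun f hf => hf.1) (convex_closedBall _ _))
      Metric.isClosed_closedBall
  refine Set.Subset.antisymm hEball fun k₀ hk₀ => ?_
  by_contra hnot
  obtain ⟨G, u, hG1, hG2⟩ := geometric_hahn_banach_closed_point
    ((convex_convexHull ℝ E).closure) isClosed_closure hnot
  have hk₀' : ‖k₀‖ ≤ 1 := by simpa using hk₀
  have hlt : u < ‖G‖ := by
    refine hG2.trans_le ?_
    exact Helper12.Godefroy.apply_le_norm G hk₀'
  refine hl1 (Helper12.Godefroy.l1_of_bounded_on_exposed G hlt ?_)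
  intro w e he hexp
  refine (hG1 e (subset_closure (subset_convexHull ℝ E ⟨by simpa using he, w, ?_⟩))).le
  intro g hg hge
  exact hexp g (by simpa using hg) hge

end Pool.Agent.S04003
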