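import Pool.Statements.S04363
import Pool.Agent.Helper95.Seq

set_option autoImplicit false
open Pool Pool.MP_38e422_an

namespace Pool.Agent.S04363

/-- There is an infinite-dimensional real Banach space X with a closed subspace Y such that Y and X/Y are both isomorphic to Hilbert spaces, yet no bounded linear operator J on X satisfies J∘J = −Id. -/
theorem result :
    ∃ (X : Type) (_ : NormedAddCommGroup X) (_ : NormedSpace ℝ X) (_ : CompleteSpace X)
      (Y : Submodule ℝ X),
      IsClosed (Y : Set X) ∧
      ¬ FiniteDimensional ℝ X ∧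
      (∃ (H : Type) (_ : NormedAddCommGroup H) (_ : InnerProductSpace ℝ H) (_ : CompleteSpace H),
        Nonempty (Y ≃L[ℝ] H)) ∧
      (∃ (H' : Type) (_ : NormedAddCommGroup H') (_ : InnerProductSpace ℝ H') (_ : CompleteSpace H'),
        Nonempty ((X ⧸ Y) ≃L[ℝ] H')) ∧
      ¬ ∃ J : X →L[ℝ] X, J.comp J = -(ContinuousLinearMap.id ℝ X) := by
  refine ⟨Pool.Agent.Helper95.XX Pool.Agent.Helper95.bb, inferInstance, inferInstance,
    inferInstance, Pool.Agent.Helper95.YY Pool.Agent.Helper95.bb,
    Pool.Agent.Helper95.isClosed_YY _, Pool.Agent.Helper95.not_finiteDimensional_XX _,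
    ⟨_, inferInstance, inferInstance, inferInstance,
      Pool.Agent.Helper95.Y_iso Pool.Agent.Helper95.bb⟩,
    ⟨_, inferInstance, inferInstance, inferInstance,
      Pool.Agent.Helper95.quot_iso Pool.Agent.Helper95.bb⟩,
    Pool.Agent.Helper95.no_complex Pool.Agent.Helper95.goodSeq_bb⟩

end Pool.Agent.S04363
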