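import Pool.Statements.S04447
import Pool.Agent.HB.B.Assemble
import Pool.Agent.HB.B.Inst
import Pool.Agent.HB.H.Final

set_option autoImplicit false
open Pool Pool.MP_404f39_an

namespace Pool.Agent.S04447

/-- There is an infinite-dimensional real Banach space in which no closed subspace is a direct sum of two closed infinite-dimensional subspaces, and which has a nonzero twice continuously differentiable real function with bounded support. -/
theorem result :
    ∃ (X : Type) (_ : NormedAddCommGroup X) (_ : NormedSpace ℝ X),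
      CompleteSpace X ∧ ¬ FiniteDimensional ℝ X ∧
      (∀ A B : Submodule ℝ X, IsClosed (A : Set X) → IsClosed (B : Set X) →
        Disjoint A B → IsClosed ((A ⊔ B : Submodule ℝ X) : Set X) →
        FiniteDimensional ℝ A ∨ FiniteDimensional ℝ B) ∧
      ∃ f : X → ℝ, ContDiff ℝ 2 f ∧ f ≠ 0 ∧ Bornology.IsBounded (Function.support f) := by
  obtain ⟨p⟩ := Pool.Agent.HB.par_nonempty
  obtain ⟨H, hH⟩ := Pool.Agent.HB.dense_exists
  obtain ⟨κ, hκ, hB⟩ := Pool.Agent.HB.bsys_exists
  obtain ⟨R, hS⟩ := hB p H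
  obtain ⟨X, i1, i2, i3, ι, hd, h1, h2, b, hb⟩ := Pool.Agent.HB.partB hS
  have h0 : ∀ x, 0 ≤ Pool.Agent.HB.IN (Pool.Agent.HB.WW p H 0) x := fun x =>
    Pool.Agent.HB.IN_nonneg (Pool.Agent.HB.fam_WW p H 0) x
  refine ⟨X, i1, i2, i3, Pool.Agent.HB.not_fd h1, fun A B hA hB hAB hs => ?_,
    b, hb.1, hb.2.1, hb.2.2⟩
  exact Pool.Agent.HB.hi_final (K := max 1 (2 / κ)) hH hd h1
    (fun x => (h2 x).trans (mul_le_mul_of_nonneg_right (le_max_right _ _) (h0 x)))
    (le_max_left _ _) A B hA hB hAB hs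

end Pool.Agent.S04447
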