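import Pool.Statements.S04953
import Pool.Agent.Helper21.IDP.Main

set_option autoImplicit false
open Filter Topology Real
open Pool Pool.MP_6b834f_an

namespace Pool.Agent.S04953

/-- For any distinct points a_n of the Riemann sphere and numbers d_n in [0,1] with sum at most 2, some function meromorphic in the unit disc with infinite growth index α has deficiency d_n at each a_n and deficiency 0 at every other value. -/
theorem result :
    ∀ (a : ℕ → Option ℂ) (d : ℕ → ℝ), Function.Injective a →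
      (∀ n, 0 ≤ d n ∧ d n ≤ 1) → Summable d → ∑' n, d n ≤ 2 →
      ∃ f : ℂ → ℂ, MeromorphicOn f (Metric.ball (0 : ℂ) 1) ∧
        (∀ M : ℝ, ∃ᶠ r in 𝓝[<] (1 : ℝ),
          M * Real.log (1 / (1 - r)) ≤
            ∫ t in (0 : ℝ)..r,
              (1 / Real.pi * ∫ z in Metric.ball (0 : ℂ) t,
                (‖deriv f z‖ / (1 + ‖f z‖ ^ 2)) ^ 2) / t) ∧
        ∀ (b : Option ℂ) (e : ℝ),
          ((∃ n, a n = b ∧ d n = e) ∨ ((∀ n, a n ≠ b) ∧ e = 0)) →
          ∀ ε : ℝ, 0 < ε →
            (∀ᶠ r in 𝓝[<] (1 : ℝ),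
              (e - ε) * (∫ t in (0 : ℝ)..r,
                (1 / Real.pi * ∫ z in Metric.ball (0 : ℂ) t,
                  (‖deriv f z‖ / (1 + ‖f z‖ ^ 2)) ^ 2) / t)
              ≤ (2 * Real.pi)⁻¹ * ∫ θ in (0 : ℝ)..(2 * Real.pi),
                  (Option.elim b (fun z : ℂ => Real.posLog ‖f z‖)
                    (fun (c : ℂ) (z : ℂ) => Real.posLog ‖f z - c‖⁻¹))
                    (circleMap 0 r θ)) ∧
            (∃ᶠ r in 𝓝[<] (1 : ℝ),
              (2 * Real.pi)⁻¹ * ∫ θ in (0 : ℝ)..(2 * Real.pi),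
                  (Option.elim b (fun z : ℂ => Real.posLog ‖f z‖)
                    (fun (c : ℂ) (z : ℂ) => Real.posLog ‖f z - c‖⁻¹))
                    (circleMap 0 r θ)
              ≤ (e + ε) * (∫ t in (0 : ℝ)..r,
                (1 / Real.pi * ∫ z in Metric.ball (0 : ℂ) t,
                  (‖deriv f z‖ / (1 + ‖f z‖ ^ 2)) ^ 2) / t)) := by
  exact IDP.main

end Pool.Agent.S04953
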