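import Pool.Statements.S05318
import Pool.Agent.Helper91.CLR.Glue

set_option autoImplicit false
open Pool Pool.MP_8abf6a_an

namespace Pool.Agent.S05318

/-- The negation of the preceding statement: If a real Banach space X coarse Lipschitz embeds into a reflexive real Banach space admitting an equivalent asymptotically uniformly smooth norm, then X is itself reflexive and admits an equivalent asymptotically uniformly smooth norm. -/
theorem result :
    ¬ (∀ (X Y : Type) [NormedAddCommGroup X] [NormedSpace ℝ X] [CompleteSpace X]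
      [NormedAddCommGroup Y] [NormedSpace ℝ Y] [CompleteSpace Y],
      Function.Surjective (NormedSpace.inclusionInDoubleDual ℝ Y) →
      (∃ N : Y → ℝ, (∀ x y, N (x + y) ≤ N x + N y) ∧ (∀ (a : ℝ) x, N (a • x) = |a| * N x) ∧
        (∃ c C : ℝ, 0 < c ∧ 0 < C ∧ ∀ x, c * ‖x‖ ≤ N x ∧ N x ≤ C * ‖x‖) ∧
        ∀ ε : ℝ, 0 < ε → ∃ δ : ℝ, 0 < δ ∧ ∀ t : ℝ, 0 < t → t < δ → ∀ x : Y, N x = 1 →
          ∃ F : Finset (Y →L[ℝ] ℝ), ∀ y : Y, (∀ g ∈ F, g y = 0) → N y ≤ t →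
            N (x + y) ≤ 1 + ε * t) →
      (∃ (f : X → Y) (A B : ℝ), 0 < A ∧ 0 < B ∧ ∀ x x' : X,
        ‖x - x'‖ / A - B ≤ ‖f x - f x'‖ ∧ ‖f x - f x'‖ ≤ A * ‖x - x'‖ + B) →
      (Function.Surjective (NormedSpace.inclusionInDoubleDual ℝ X) ∧
      (∃ N : X → ℝ, (∀ x y, N (x + y) ≤ N x + N y) ∧ (∀ (a : ℝ) x, N (a • x) = |a| * N x) ∧
        (∃ c C : ℝ, 0 < c ∧ 0 < C ∧ ∀ x, c * ‖x‖ ≤ N x ∧ N x ≤ C * ‖x‖) ∧
        ∀ ε : ℝ, 0 < ε → ∃ δ : ℝ, 0 < δ ∧ ∀ t : ℝ, 0 < t → t < δ → ∀ x : X, N x = 1 →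
          ∃ F : Finset (X →L[ℝ] ℝ), ∀ y : X, (∀ g ∈ F, g y = 0) → N y ≤ t →
            N (x + y) ≤ 1 + ε * t))) := by
  intro h
  have h1 := h Pool.Agent.Helper91.CLR.XX Pool.Agent.Helper91.CLR.YY
    Pool.Agent.Helper91.CLR.refl_YY Pool.Agent.Helper91.CLR.ausable_YY
    ⟨Pool.Agent.Helper91.CLR.FF, 27, 14, by norm_num, by norm_num, fun x x' => by
      have h2 := Pool.Agent.Helper91.CLR.FF_lower x x'
      have h3 := Pool.Agent.Helper91.CLR.FF_lip x x'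
      have h4 := norm_nonneg (x - x')
      have h5 := norm_nonneg (Pool.Agent.Helper91.CLR.FF x - Pool.Agent.Helper91.CLR.FF x')
      constructor
      · rw [sub_le_iff_le_add, div_le_iff₀ (by norm_num : (0 : ℝ) < 27)]
        linarith
      · linarith⟩
  exact Pool.Agent.Helper91.CLR.not_ausable_XX h1.2

end Pool.Agent.S05318
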