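import Pool.Statements.S05654
import Pool.Agent.Helper94.Aug4
-- import your own Pool.Agent.* helpers here

set_option autoImplicit false
open Filter Topology
open Pool Pool.MP_a2b00d_an

namespace Pool.Agent.S05654

/-- The negation of the preceding statement: Every ℓ¹-null sequence in the augmentation ideal of ℓ¹ of the countably generated free group factors as one ideal element a convolved with an ℓ¹-null sequence from the ideal. -/
theorem result :
    ¬ (∀ x : ℕ → FreeGroup ℕ → ℂ,
      (∀ n, Summable (fun g => ‖x n g‖) ∧ ∑' g, x n g = 0) →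
      Tendsto (fun n => ∑' g, ‖x n g‖) atTop (𝓝 0) →
      ∃ a : FreeGroup ℕ → ℂ, Summable (fun g => ‖a g‖) ∧ ∑' g, a g = 0 ∧
        ∃ y : ℕ → FreeGroup ℕ → ℂ,
          (∀ n, Summable (fun g => ‖y n g‖) ∧ ∑' g, y n g = 0) ∧
          Tendsto (fun n => ∑' g, ‖y n g‖) atTop (𝓝 0) ∧
          ∀ n g, x n g = ∑' h, a h * y n (h⁻¹ * g)) := by
  classical
  intro hall
  -- the differences of point masses
  set z : ℕ → FreeGroup ℕ → ℂ := fun m g =>
    (if g = FreeGroup.of m then 1 else 0) - (if g = 1 then 1 else 0) with hz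
  have hzsupp : ∀ m, ∀ g ∉ ({FreeGroup.of m, 1} : Finset (FreeGroup ℕ)), z m g = 0 := by
    intro m g hg
    simp only [Finset.mem_insert, Finset.mem_singleton, not_or] at hg
    simp [hz, hg.1, hg.2]
  have hzsum : ∀ m, Summable (fun g => ‖z m g‖) := by
    intro m
    apply summable_of_ne_finset_zero (s := ({FreeGroup.of m, 1} : Finset (FreeGroup ℕ)))
    intro g hg
    rw [hzsupp m g hg, norm_zero]
  have hz0 : ∀ m, ∑' g, z m g = 0 := by
    intro m
    rw [tsum_eq_sum (s := ({FreeGroup.of m, 1} : Finset (FreeGroup ℕ))) (hzsupp m)]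
    have h1 : FreeGroup.of m ≠ (1 : FreeGroup ℕ) := FreeGroup.of_ne_one m
    rw [Finset.sum_pair h1]
    simp [hz, h1, h1.symm]
  obtain ⟨a, ha, ha0, y, hy, -, hxy⟩ := hall (fun n => if n < 2 then z n else 0)
    (by
      intro n
      by_cases hn : n < 2
      · simp only [hn, if_true]
        exact ⟨hzsum n, hz0 n⟩
      · simp [hn, summable_zero])
    (by
      apply tendsto_const_nhds.congr'
      filter_upwards [eventually_ge_atTop 2] with n hn
      have : ¬ n < 2 := by omega
      simp [this])
  refine Pool.Agent.Helper94.Aug.no_common_factor (ι := Bool) one_pos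
    Pool.Agent.Helper94.Aug.free_gap ha ha0 (y := fun i => y (if i then 1 else 0))
    (fun i => (hy _).1) ?_
  intro i g
  have h := hxy (if i then 1 else 0) g
  rw [← h]
  cases i <;> simp [hz]

end Pool.Agent.S05654
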