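import Pool.Statements.S05862
-- import your own Pool.Agent.* helpers here
import Pool.Agent.Bloch.Final

set_option autoImplicit false
open Pool Pool.MP_b327a3_an

namespace Pool.Agent.S05862

/-- The negation of the preceding statement: Bloch's constant equals Γ(1/3)Γ(11/12)/(√(1+√3)Γ(1/4)): every normalized analytic f on the disc has schlicht discs of every radius below it, and for each ε some such f has none of radius value+ε. -/
theorem result :
    ¬ ((∀ f : ℂ → ℂ, DifferentiableOn ℂ f (Metric.ball (0:ℂ) 1) → f 0 = 0 → deriv f 0 = 1 →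
      ∀ r : ℝ, r < (1 / Real.sqrt (1 + Real.sqrt 3)) *
          (Real.Gamma (1/3) * Real.Gamma (11/12) / Real.Gamma (1/4)) →
        ∃ S : Set ℂ, S ⊆ Metric.ball (0:ℂ) 1 ∧ IsOpen S ∧ IsConnected S ∧ Set.InjOn f S ∧
          ∃ w : ℂ, Metric.ball w r ⊆ f '' S) ∧
    (∀ ε : ℝ, 0 < ε → ∃ f : ℂ → ℂ, DifferentiableOn ℂ f (Metric.ball (0:ℂ) 1) ∧ f 0 = 0 ∧
      deriv f 0 = 1 ∧
      ∀ S : Set ℂ, S ⊆ Metric.ball (0:ℂ) 1 → IsOpen S → IsConnected S → Set.InjOn f S →
        ∀ w : ℂ, ¬ (Metric.ball w ((1 / Real.sqrt (1 + Real.sqrt 3)) *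
          (Real.Gamma (1/3) * Real.Gamma (11/12) / Real.Gamma (1/4)) + ε) ⊆ f '' S))) := by
  exact AG.final_S05862

end Pool.Agent.S05862
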