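import Pool.Statements.S05964
import Pool.Agent.Helper94.WUR.Global
import Pool.Agent.Helper94.WUR.WurX
import Pool.Agent.Helper94.WUR.NotWur

set_option autoImplicit false
open Pool Pool.MP_bd2462_an

namespace Pool.Agent.S05964

/-- The negation of the preceding statement: For real Banach spaces X and Y that are bi-Lipschitz homeomorphic, if X has an equivalent weakly uniformly rotund norm then so does Y. -/
theorem result :
    ¬ (∀ (X Y : Type) [NormedAddCommGroup X] [NormedSpace ℝ X] [CompleteSpace X]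
      [NormedAddCommGroup Y] [NormedSpace ℝ Y] [CompleteSpace Y],
      (∃ (e : X ≃ Y) (K L : NNReal), LipschitzWith K (⇑e) ∧ LipschitzWith L (⇑e.symm)) →
      (∃ N : X → ℝ, (∀ x y : X, N (x + y) ≤ N x + N y) ∧
          (∀ (a : ℝ) (x : X), N (a • x) = |a| * N x) ∧
          (∃ c C : ℝ, 0 < c ∧ 0 < C ∧ ∀ x : X, c * ‖x‖ ≤ N x ∧ N x ≤ C * ‖x‖) ∧
          ∀ u v : ℕ → X, (∀ n, N (u n) = 1) → (∀ n, N (v n) = 1) →
            Filter.Tendsto (fun n => N (u n + v n)) Filter.atTop (nhds 2) →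
            ∀ f : X →L[ℝ] ℝ, Filter.Tendsto (fun n => f (u n - v n)) Filter.atTop (nhds 0)) →
      (∃ N : Y → ℝ, (∀ x y : Y, N (x + y) ≤ N x + N y) ∧
          (∀ (a : ℝ) (x : Y), N (a • x) = |a| * N x) ∧
          (∃ c C : ℝ, 0 < c ∧ 0 < C ∧ ∀ x : Y, c * ‖x‖ ≤ N x ∧ N x ≤ C * ‖x‖) ∧
          ∀ u v : ℕ → Y, (∀ n, N (u n) = 1) → (∀ n, N (v n) = 1) →
            Filter.Tendsto (fun n => N (u n + v n)) Filter.atTop (nhds 2) →
            ∀ f : Y →L[ℝ] ℝ, Filter.Tendsto (fun n => f (u n - v n)) Filter.atTop (nhds 0))) := by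
  intro h
  have hc : CompleteSpace Helper94.WUR.X := Helper94.WUR.XS_complete
  exact Helper94.WUR.not_hasWUR Helper94.WUR.X
    (h Helper94.WUR.X Helper94.WUR.Y Helper94.WUR.lip_homeo Helper94.WUR.X_hasWUR)

end Pool.Agent.S05964
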