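import Pool.Statements.S05975
import Pool.Agent.WFS.Main

set_option autoImplicit false
open Pool Pool.MP_be1be6_an

namespace Pool.Agent.S05975

/-- For every n ≥ 1 and every square nonnegative integer matrix A: if A is shift equivalent over the nonnegative integers to the 1×1 matrix (n), then A is connected to (n) by a finite chain of elementary equivalences X = RS, Y = SR with nonnegative integer R, S. -/
theorem result :
    ∀ (n : ℕ), 1 ≤ n → ∀ (m : ℕ) (A : Matrix (Fin m) (Fin m) ℕ),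
      (∃ ℓ : ℕ, 1 ≤ ℓ ∧ ∃ R : Matrix (Fin m) (Fin 1) ℕ, ∃ S : Matrix (Fin 1) (Fin m) ℕ,
        A ^ ℓ = R * S ∧
        (Matrix.of (fun _ _ => n) : Matrix (Fin 1) (Fin 1) ℕ) ^ ℓ = S * R ∧
        A * R = R * (Matrix.of (fun _ _ => n) : Matrix (Fin 1) (Fin 1) ℕ) ∧
        S * A = (Matrix.of (fun _ _ => n) : Matrix (Fin 1) (Fin 1) ℕ) * S) →
      Relation.TransGen
        (fun X Y : (Σ k : ℕ, Matrix (Fin k) (Fin k) ℕ) =>
          ∃ R : Matrix (Fin X.1) (Fin Y.1) ℕ, ∃ S : Matrix (Fin Y.1) (Fin X.1) ℕ,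
            X.2 = R * S ∧ Y.2 = S * R)
        ⟨m, A⟩ ⟨1, (Matrix.of (fun _ _ => n) : Matrix (Fin 1) (Fin 1) ℕ)⟩ := by
  exact Pool.Agent.WFS.little_williams

end Pool.Agent.S05975
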