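import Pool.Statements.S06264
import Pool.Agent.Helper11.GT.MAIN

set_option autoImplicit false
open Pool Pool.MP_d36c66_an

namespace Pool.Agent.S06264

/-- The negation of the preceding statement: Every real Banach space all of whose separable subspaces have separable duals, and which injects by a bounded linear map into c_0(Γ) for some index set Γ, has an equivalent norm that is Gâteaux differentiable at every nonzero point. -/
theorem result :
    ¬ (∀ (X : Type) [NormedAddCommGroup X] [NormedSpace ℝ X] [CompleteSpace X],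
      (∀ Y : Submodule ℝ X, TopologicalSpace.SeparableSpace ↥Y →
          TopologicalSpace.SeparableSpace (↥Y →L[ℝ] ℝ)) →
      (∃ (Γ : Type) (f : Γ → (X →L[ℝ] ℝ)),
          (∃ C : ℝ, ∀ γ, ‖f γ‖ ≤ C) ∧
          (∀ x : X, Filter.Tendsto (fun γ => f γ x) Filter.cofinite (nhds 0)) ∧
          (∀ x : X, (∀ γ, f γ x = 0) → x = 0)) →
      ∃ N : X → ℝ,
        (∃ c C : ℝ, 0 < c ∧ ∀ x : X, c * ‖x‖ ≤ N x ∧ N x ≤ C * ‖x‖) ∧
        (∀ x y : X, N (x + y) ≤ N x + N y) ∧
        (∀ (a : ℝ) (x : X), N (a • x) = |a| * N x) ∧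
        ∀ x : X, x ≠ 0 → ∃ φ : X →L[ℝ] ℝ,
          ∀ h : X, HasDerivAt (fun t : ℝ => N (x + t • h)) (φ h) 0) := by
  exact Pool.Agent.Helper11.GT.main

end Pool.Agent.S06264
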