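import Pool.Statements.S06923
import Pool.Agent.Helper74.HamOne.GoalOne
import Pool.Agent.Helper74.HamSat.GeTwo

set_option autoImplicit false
open Classical
open Pool Pool.MP_02ddb6_co

namespace Pool.Agent.S06923

/-- For all 1 ≤ ℓ < k there are c, C > 0 such that for large n divisible by k−ℓ, the minimum edge count of an ℓ-Hamiltonian-saturated k-graph on n vertices is between c·n^ℓ and C·n^ℓ. -/
theorem result :
  ∀ k ℓ : ℕ, 1 ≤ ℓ → ℓ < k →
    ∃ c C : ℝ, 0 < c ∧ 0 < C ∧ ∃ N : ℕ, ∀ n : ℕ, N ≤ n → (k - ℓ) ∣ n →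
      (∃ H : Finset (Finset (Fin n)),
          ((∀ e ∈ H, e.card = k) ∧
           (¬ ∃ σ : Equiv.Perm (Fin n), ∀ i : ℕ, i < n / (k - ℓ) →
              Finset.univ.filter (fun v : Fin n => ∃ j, j < k ∧ ((σ v : Fin n) : ℕ) = (i * (k - ℓ) + j) % n) ∈ H) ∧
           (∀ e : Finset (Fin n), e.card = k → e ∉ H →
              ∃ σ : Equiv.Perm (Fin n), ∀ i : ℕ, i < n / (k - ℓ) →
                Finset.univ.filter (fun v : Fin n => ∃ j, j < k ∧ ((σ v : Fin n) : ℕ) = (i * (k - ℓ) + j) % n) ∈ insert e H)) ∧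
          (H.card : ℝ) ≤ C * (n : ℝ) ^ ℓ) ∧
      (∀ H : Finset (Finset (Fin n)),
          ((∀ e ∈ H, e.card = k) ∧
           (¬ ∃ σ : Equiv.Perm (Fin n), ∀ i : ℕ, i < n / (k - ℓ) →
              Finset.univ.filter (fun v : Fin n => ∃ j, j < k ∧ ((σ v : Fin n) : ℕ) = (i * (k - ℓ) + j) % n) ∈ H) ∧
           (∀ e : Finset (Fin n), e.card = k → e ∉ H →
              ∃ σ : Equiv.Perm (Fin n), ∀ i : ℕ, i < n / (k - ℓ) →
                Finset.univ.filter (fun v : Fin n => ∃ j, j < k ∧ ((σ v : Fin n) : ℕ) = (i * (k - ℓ) + j) % n) ∈ insert e H)) →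
          c * (n : ℝ) ^ ℓ ≤ (H.card : ℝ)) := by
  intro k l hl hlk
  rcases Nat.lt_or_ge l 2 with h | h
  · obtain rfl : l = 1 := by omega
    exact Pool.Agent.Helper74.HamOne.goal_one (by omega)
  · exact Pool.Agent.Helper74.HamSat.goal_ge_two h hlk

end Pool.Agent.S06923
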