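import Pool.Statements.S07201
import Pool.Agent.Helper69.KK.Core

set_option autoImplicit false
open Pool Pool.MP_0f2fd5_co

namespace Pool.Agent.S07201

/-- For every L>0 there are L',δ>0 such that any up-set A in the n-cube with density α≤1/2 and edge boundary ≤ L∣A∣log₂(2^n/∣A∣) has a subcube fixing some coordinates to 1, of measure ≥ α^L', in which A has density ≥ (1+δ)α. -/
theorem result :
    ∀ L : ℝ, 0 < L → ∃ L' δ : ℝ, 0 < L' ∧ 0 < δ ∧
      ∀ n : ℕ, ∀ A : Finset (Finset (Fin n)),
        IsUpperSet (A : Set (Finset (Fin n))) →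
        (A.card : ℝ) / 2 ^ n ≤ 1 / 2 →
        (((A ×ˢ (Finset.univ : Finset (Fin n))).filter
            (fun p => symmDiff p.1 {p.2} ∉ A)).card : ℝ)
          ≤ L * (A.card : ℝ) * Real.logb 2 ((2 : ℝ) ^ n / (A.card : ℝ)) →
        ∃ T : Finset (Fin n),
          ((A.card : ℝ) / 2 ^ n) ^ L' ≤ (1 / 2 : ℝ) ^ T.card ∧
          (1 + δ) * ((A.card : ℝ) / 2 ^ n)
            ≤ ((A.filter (fun S => T ⊆ S)).card : ℝ) / (2 : ℝ) ^ (n - T.card) := by
  intro L hL
  have hlog2 : 0 < Real.log 2 := Real.log_pos (by norm_num)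
  have hlog2' : (0.6931471803 : ℝ) < Real.log 2 := Real.log_two_gt_d9
  have hlog2'' : Real.log 2 < 0.6931471808 := Real.log_two_lt_d9
  -- constants
  obtain ⟨L1, hL1def⟩ : ∃ L1 : ℝ, L1 = (L + 1) / Real.log 2 := ⟨_, rfl⟩
  have hL1 : 1 ≤ L1 := by
    rw [hL1def, le_div_iff₀ hlog2]
    linarith
  have hL1pos : 0 < L1 := by linarith
  obtain ⟨d, hd⟩ : ∃ d : ℝ, d = 1 / (64 * L1) := ⟨_, rfl⟩
  have hdpos : 0 < d := by rw [hd]; positivity
  have hd64 : d ≤ 1 / 64 := by
    rw [hd]
    apply one_div_le_one_div_of_le (by norm_num)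
    linarith
  have hL1d : L1 * d = 1 / 64 := by rw [hd]; field_simp
  obtain ⟨m, hm⟩ : ∃ m : ℕ, m = ⌈32 * L1⌉₊ := ⟨_, rfl⟩
  have hm32 : 32 * L1 ≤ (m : ℝ) := by rw [hm]; exact Nat.le_ceil _
  have hmpos : (0 : ℝ) < m := by linarith
  have hmpos' : 0 < m := by exact_mod_cast hmpos
  have hL1m : L1 / (m : ℝ) ≤ 1 / 32 := by
    rw [div_le_div_iff₀ hmpos (by norm_num)]
    linarith
  obtain ⟨Lam, hLam⟩ : ∃ Lam : ℝ, Lam = 8 * (m : ℝ) / d * Real.log (1 / d) := ⟨_, rfl⟩
  have hlogd : 0 < Real.log (1 / d) := by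
    apply Real.log_pos
    rw [lt_div_iff₀ hdpos]
    linarith
  have hLampos : 0 < Lam := by rw [hLam]; positivity
  obtain ⟨τ, hτdef⟩ : ∃ τ : ℝ, τ = d * Real.exp (-Lam) := ⟨_, rfl⟩
  have hτ : 0 < τ := by rw [hτdef]; positivity
  have hτd : τ ≤ d := by
    rw [hτdef]
    apply mul_le_of_le_one_right hdpos.le
    rw [Real.exp_le_one_iff]
    linarith
  have hdτ : Real.log (d / τ) = Lam := by
    have : d / τ = Real.exp Lam := by
      rw [hτdef, Real.exp_neg]
      field_simp
    rw [this, Real.log_exp]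
  have hκΛ : d * Lam / 4 = 2 * (m : ℝ) * Real.log (1 / d) := by
    rw [hLam]
    field_simp
    ring
  obtain ⟨n0, hn0⟩ : ∃ n0 : ℕ, n0 = m + ⌈2 * (m : ℝ) * Real.log (1 / d)⌉₊ := ⟨_, rfl⟩
  refine ⟨2 * L1 / τ + (n0 : ℝ), 1 / 4, by positivity, by norm_num, ?_⟩
  intro n A hA hα hbd
  have hL'pos : 0 < 2 * L1 / τ + (n0 : ℝ) := by positivity
  rcases Finset.eq_empty_or_nonempty A with hemp | hne
  · refine ⟨∅, ?_, ?_⟩
    · rw [hemp]
      simp only [Finset.card_empty, Nat.cast_zero, zero_div, pow_zero]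
      rw [Real.zero_rpow hL'pos.ne']
      norm_num
    · rw [hemp]; simp
  have hcard : (0 : ℝ) < (A.card : ℝ) := by exact_mod_cast Finset.card_pos.mpr hne
  have hαpos : 0 < (A.card : ℝ) / 2 ^ n := by positivity
  -- t
  obtain ⟨t, ht⟩ : ∃ t : ℝ, t = Real.log (2 ^ n / (A.card : ℝ)) := ⟨_, rfl⟩
  have hαt : (A.card : ℝ) / 2 ^ n = Real.exp (-t) := by
    rw [ht, Real.exp_neg, Real.exp_log (by positivity), inv_div]
  have htlog : Real.log 2 ≤ t := by
    rw [ht]
    apply Real.log_le_log (by norm_num)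
    rw [le_div_iff₀ hcard]
    rw [div_le_iff₀ (by positivity)] at hα
    linarith
  have htpos : 0 < t := by linarith
  by_cases hn : n0 ≤ n
  · -- main case
    have hmn : m ≤ n := by omega
    have hnpos : 0 < n := by omega
    have hnpos' : (0 : ℝ) < n := by exact_mod_cast hnpos
    have hκn : d * Real.log (d / τ) / 4 ≤ (n : ℝ) := by
      rw [hdτ, hκΛ]
      calc 2 * (m : ℝ) * Real.log (1 / d) ≤ (⌈2 * (m : ℝ) * Real.log (1 / d)⌉₊ : ℝ) :=
            Nat.le_ceil _
        _ ≤ (n : ℝ) := by
            have : ⌈2 * (m : ℝ) * Real.log (1 / d)⌉₊ ≤ n := by omega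
            exact_mod_cast this
    obtain ⟨N, hN⟩ : ∃ N : ℕ, N = n / m := ⟨_, rfl⟩
    have hI : ∑ k, Helper69.KK.bb A (Helper69.KK.UU A) k ≤ L1 * t := by
      rw [Helper69.KK.sum_bb_UU, div_le_iff₀ hcard]
      refine hbd.trans ?_
      have e : Real.logb 2 ((2 : ℝ) ^ n / (A.card : ℝ)) = t / Real.log 2 := by
        rw [Real.logb, ← ht]
      rw [e, hL1def]
      have : L * (A.card : ℝ) * (t / Real.log 2) = L / Real.log 2 * t * (A.card : ℝ) := by ring
      rw [this]
      apply mul_le_mul_of_nonneg_right _ hcard.le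
      apply mul_le_mul_of_nonneg_right _ htpos.le
      apply div_le_div_of_nonneg_right _ hlog2.le
      linarith
    obtain ⟨S, hS1, hS2⟩ := Helper69.KK.core hne hA hdpos (by linarith) hI hnpos hτ hτd hκn N
    refine ⟨S, ?_, ?_⟩
    · -- measure of the subcube
      rw [hαt, ← Real.exp_mul]
      have e2 : (1 / 2 : ℝ) ^ S.card = Real.exp (-((S.card : ℝ) * Real.log 2)) := by
        rw [Real.exp_neg, mul_comm, Real.exp_mul, Real.exp_log (by norm_num), Real.rpow_natCast,
          one_div, inv_pow]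
      rw [e2, Real.exp_le_exp]
      have h1 : (S.card : ℝ) ≤ 2 * L1 / τ * t := by
        rw [div_mul_eq_mul_div, le_div_iff₀ hτ]
        linarith
      have h2 : (S.card : ℝ) * Real.log 2 ≤ (S.card : ℝ) := by
        apply mul_le_of_le_one_right (Nat.cast_nonneg _)
        linarith
      have h3 : 0 ≤ (n0 : ℝ) * t := by positivity
      nlinarith
    · -- density
      have hNn : (N : ℝ) / n ≤ 1 / m := by
        rw [div_le_div_iff₀ hnpos' hmpos]
        have : N * m ≤ n := by rw [hN]; exact Nat.div_mul_le_self n m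
        have : (N : ℝ) * m ≤ n := by exact_mod_cast this
        linarith
      have hNlow : (n : ℝ) ≤ 2 * m * N := by
        have h1 : n < m * (N + 1) := by
          rw [hN]
          exact Nat.lt_mul_div_succ n hmpos'
        have h2 : 1 ≤ N := by
          rw [hN]
          exact (Nat.one_le_div_iff hmpos').mpr hmn
        have h3 : n ≤ 2 * m * N := by nlinarith
        exact_mod_cast h3
      have hq : (((n : ℝ) - d * Real.log (d / τ) / 4) / n) ^ N ≤ d := by
        have hq0 : 0 ≤ ((n : ℝ) - d * Real.log (d / τ) / 4) / n :=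
          div_nonneg (by linarith) hnpos'.le
        have hq1 : ((n : ℝ) - d * Real.log (d / τ) / 4) / n
            ≤ Real.exp (-(2 * (m : ℝ) * Real.log (1 / d) / n)) := by
          rw [hdτ, hκΛ, sub_div, div_self hnpos'.ne']
          have := Real.add_one_le_exp (-(2 * (m : ℝ) * Real.log (1 / d) / n))
          linarith
        calc (((n : ℝ) - d * Real.log (d / τ) / 4) / n) ^ N
            ≤ (Real.exp (-(2 * (m : ℝ) * Real.log (1 / d) / n))) ^ N :=
              pow_le_pow_left₀ hq0 hq1 N
          _ = Real.exp (-(2 * (m : ℝ) * Real.log (1 / d) / n * N)) := by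
              rw [← Real.exp_nat_mul]; ring_nf
          _ ≤ Real.exp (-Real.log (1 / d)) := by
              rw [Real.exp_le_exp, neg_le_neg_iff]
              rw [div_mul_eq_mul_div, le_div_iff₀ hnpos']
              nlinarith
          _ = d := by
              rw [one_div, Real.log_inv, neg_neg, Real.exp_log hdpos]
      have hX : (((n : ℝ) - d * Real.log (d / τ) / 4) / n) ^ N + d + (N : ℝ) / n
          ≤ 2 * d + 1 / m := by linarith
      have hfin : 4 * (L1 * t) * ((((n : ℝ) - d * Real.log (d / τ) / 4) / n) ^ N + d + (N : ℝ) / n)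
          + 8 * d * (L1 * t) ≤ 3 / 8 * t := by
        have h1 : 4 * (L1 * t) * ((((n : ℝ) - d * Real.log (d / τ) / 4) / n) ^ N + d
            + (N : ℝ) / n) ≤ 4 * (L1 * t) * (2 * d + 1 / m) :=
          mul_le_mul_of_nonneg_left hX (by positivity)
        have h2 : 4 * (L1 * t) * (2 * d + 1 / m) + 8 * d * (L1 * t)
            = t * (16 * (L1 * d) + 4 * (L1 / m)) := by ring
        have h3 : t * (16 * (L1 * d) + 4 * (L1 / m)) ≤ t * (3 / 8) := by
          apply mul_le_mul_of_nonneg_left _ htpos.le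
          rw [hL1d]
          linarith
        linarith
      have hmain := hS2.trans hfin
      -- positivity of a_S
      have haS : (0 : ℝ) < ((A.filter (fun z => S ⊆ z)).card : ℝ) := by
        have : (Finset.univ : Finset (Fin n)) ∈ A.filter (fun z => S ⊆ z) := by
          rw [Finset.mem_filter]
          refine ⟨?_, Finset.subset_univ S⟩
          obtain ⟨x, hx⟩ := hne
          exact hA (show x ≤ Finset.univ from Finset.subset_univ x) hx
        exact_mod_cast Finset.card_pos.mpr ⟨_, this⟩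
      have hcompl : Sᶜ.card = n - S.card := by
        rw [Finset.card_compl, Fintype.card_fin]
      rw [hcompl] at hmain
      have h2 : Real.exp (-(3 / 8 * t)) ≤ ((A.filter (fun z => S ⊆ z)).card : ℝ)
          / (2 : ℝ) ^ (n - S.card) := by
        rw [← Real.exp_log (div_pos haS (by positivity : (0:ℝ) < 2 ^ (n - S.card))),
          Real.exp_le_exp, Real.log_div haS.ne' (by positivity), Real.log_pow]
        linarith
      refine le_trans ?_ h2
      rw [hαt]
      have h3 : Real.exp (-(3 / 8 * t)) = Real.exp (5 / 8 * t) * Real.exp (-t) := by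
        rw [← Real.exp_add]
        congr 1
        ring
      rw [h3]
      apply mul_le_mul_of_nonneg_right _ (Real.exp_pos _).le
      have := Real.add_one_le_exp (5 / 8 * t)
      linarith
  · -- small n
    push Not at hn
    refine ⟨Finset.univ, ?_, ?_⟩
    · rw [Finset.card_univ, Fintype.card_fin, hαt, ← Real.exp_mul]
      have e2 : (1 / 2 : ℝ) ^ n = Real.exp (-((n : ℝ) * Real.log 2)) := by
        rw [Real.exp_neg, mul_comm, Real.exp_mul, Real.exp_log (by norm_num), Real.rpow_natCast,
          one_div, inv_pow]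
      rw [e2, Real.exp_le_exp]
      have h1 : (n : ℝ) ≤ n0 := by exact_mod_cast hn.le
      have h2 : (n : ℝ) * Real.log 2 ≤ n0 * t := by
        apply mul_le_mul h1 htlog hlog2.le (by positivity)
      have h3 : 0 ≤ 2 * L1 / τ * t := by positivity
      nlinarith
    · have h1 : A.filter (fun z => (Finset.univ : Finset (Fin n)) ⊆ z) = {Finset.univ} := by
        ext z
        rw [Finset.mem_filter, Finset.mem_singleton]
        constructor
        · rintro ⟨_, h⟩
          exact Finset.univ_subset_iff.mp h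
        · rintro rfl
          refine ⟨?_, subset_rfl⟩
          obtain ⟨x, hx⟩ := hne
          exact hA (show x ≤ Finset.univ from Finset.subset_univ x) hx
      rw [h1, Finset.card_singleton, Finset.card_univ, Fintype.card_fin, Nat.sub_self, pow_zero,
        Nat.cast_one, div_one]
      linarith

end Pool.Agent.S07201
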