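import Pool.Statements.S07341
import Pool.Agent.SQF4.Fin2
import Pool.Agent.SQF4.HS
-- import your own Pool.Agent.* helpers here

set_option autoImplicit false
open Pool Pool.MP_166a38_co

namespace Pool.Agent.S07341

/-- Every square-free finite word over a 4-letter alphabet admits some position and some letter whose insertion there keeps the word square-free; i.e., no extremal square-free 4-ary words exist. -/
theorem result :
    ∀ w : List (Fin 4),
      (∀ x u y : List (Fin 4), u ≠ [] → w ≠ x ++ u ++ u ++ y) →
      ∃ p s : List (Fin 4), ∃ a : Fin 4, w = p ++ s ∧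
        ∀ x u y : List (Fin 4), u ≠ [] → p ++ a :: s ≠ x ++ u ++ u ++ y := by
  exact fun w hw => Pool.Agent.SQF4.fin2 Pool.Agent.SQF4.hseed w hw

end Pool.Agent.S07341
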