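import Pool.Statements.S07360
-- import your own Pool.Agent.* helpers here

set_option autoImplicit false
open Pool Pool.MP_16dc44_co

namespace Pool.Agent.S07360

/-! The list total colouring conjecture is false.

The key gadget is `K_{2,3}` with parts `{x₀, x₁}` and `{y₀, y₁, y₂}`: in every proper total colouring
with four colours, `x₀` and `x₁` get the same colour `c`, and `c` is the colour missing at each of
`y₀, y₁, y₂`.  The counterexample is a cubic graph on 20 vertices consisting of four copies of the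
gadget, joined in pairs (blocks `A` and `B`), and four edges between `A` and `B`.  It has a total
colouring with four colours.  For the lists take `{1,2,3,4}` on `A`, `{5,6,7,8}` on `B`, and
`{1,2,5,6}, {1,2,7,8}, {3,4,5,6}, {3,4,7,8}` on the four edges in between. -/

/-- Three different elements `a, b, c` of a four-element set leave room for one more element. -/
theorem four (P : Finset ℕ) (hP : P.card = 4) {a b c m z : ℕ} (ha : a ∈ P) (hb : b ∈ P)
    (hc : c ∈ P) (hm : m ∈ P) (hz : z ∈ P) (hab : a ≠ b) (hac : a ≠ c) (hbc : b ≠ c)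
    (ma : m ≠ a) (mb : m ≠ b) (mc : m ≠ c) (za : z ≠ a) (zb : z ≠ b) (zc : z ≠ c) : z = m := by
  have hsub : ({a, b, c, m} : Finset ℕ) ⊆ P := by
    intro t ht
    simp only [Finset.mem_insert, Finset.mem_singleton] at ht
    rcases ht with rfl | rfl | rfl | rfl <;> assumption
  have hcard : ({a, b, c, m} : Finset ℕ).card = 4 := by
    rw [Finset.card_insert_of_notMem, Finset.card_insert_of_notMem, Finset.card_insert_of_notMem,
      Finset.card_singleton]
    · simpa using mc.symm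
    · simp only [Finset.mem_insert, Finset.mem_singleton, not_or]; exact ⟨hbc, mb.symm⟩
    · simp only [Finset.mem_insert, Finset.mem_singleton, not_or]; exact ⟨hab, hac, ma.symm⟩
  have heq : ({a, b, c, m} : Finset ℕ) = P :=
    Finset.eq_of_subset_of_card_le hsub (by rw [hP, hcard])
  rw [← heq] at hz
  simp only [Finset.mem_insert, Finset.mem_singleton] at hz
  rcases hz with h | h | h | h
  · exact absurd h za
  · exact absurd h zb
  · exact absurd h zc
  · exact h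

/-- The gadget `K_{2,3}`. -/
theorem k23 (P : Finset ℕ) (hP : P.card = 4) (x : Fin 2 → ℕ) (y : Fin 3 → ℕ)
    (e : Fin 2 → Fin 3 → ℕ) (hx : ∀ i, x i ∈ P) (hy : ∀ j, y j ∈ P) (he : ∀ i j, e i j ∈ P)
    (h1 : ∀ i j, x i ≠ e i j) (h2 : ∀ i j k, j ≠ k → e i j ≠ e i k) (h3 : ∀ j, e 0 j ≠ e 1 j)
    (h4 : ∀ i j, y j ≠ e i j) (h5 : ∀ i j, x i ≠ y j) :
    x 0 = x 1 ∧ ∀ j, ∀ m ∈ P, m ≠ y j → m ≠ e 0 j → m ≠ e 1 j → m = x 0 := by
  have star : ∀ i, ∀ z ∈ P, z ≠ x i → ∃ j, z = e i j := by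
    intro i z hz hzx
    by_contra hcon
    push Not at hcon
    have := four P hP (he i 0) (he i 1) (he i 2) (hx i) hz (h2 i 0 1 (by decide))
      (h2 i 0 2 (by decide)) (h2 i 1 2 (by decide)) (h1 i 0) (h1 i 1) (h1 i 2) (hcon 0) (hcon 1)
      (hcon 2)
    exact hzx this
  have heq : x 0 = x 1 := by
    by_contra hne
    obtain ⟨j, hj⟩ := star 1 (x 0) (hx 0) hne
    obtain ⟨l, hl⟩ := star 0 (x 1) (hx 1) (Ne.symm hne)
    have hk : ∀ j l : Fin 3, ∃ k : Fin 3, k ≠ j ∧ k ≠ l := by decide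
    obtain ⟨k, hkj, hkl⟩ := hk j l
    have a1 : x 0 ≠ e 1 k := by rw [hj]; exact h2 1 j k (Ne.symm hkj)
    have a2 : x 1 ≠ e 0 k := by rw [hl]; exact h2 0 l k (Ne.symm hkl)
    exact hne (four P hP (hy k) (he 0 k) (he 1 k) (hx 1) (hx 0) (h4 0 k) (h4 1 k) (h3 k)
      (h5 1 k) a2 (h1 1 k) (h5 0 k) (h1 0 k) a1)
  refine ⟨heq, fun j m hm m1 m2 m3 => ?_⟩
  exact four P hP (hy j) (he 0 j) (he 1 j) (hx 0) hm (h4 0 j) (h4 1 j) (h3 j)
    (h5 0 j) (h1 0 j) (by rw [heq]; exact h1 1 j) m1 m2 m3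

/-- The three neighbours of each vertex; vertex `5 q + r` is `x_r` of copy `q` for `r < 2`, and
`y_{r-2}` of copy `q` for `r ≥ 2`. -/
def nb (a : Fin 20) : List (Fin 20) :=
  ([[2, 3, 4], [2, 3, 4], [0, 1, 12], [0, 1, 17], [0, 1, 9],
    [7, 8, 9], [7, 8, 9], [5, 6, 13], [5, 6, 18], [5, 6, 4],
    [12, 13, 14], [12, 13, 14], [10, 11, 2], [10, 11, 7], [10, 11, 19],
    [17, 18, 19], [17, 18, 19], [15, 16, 3], [15, 16, 8], [15, 16, 14]] :
      List (List (Fin 20))).getD a.val []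

theorem nb_symm : ∀ a, ∀ b ∈ nb a, a ∈ nb b := by decide

theorem nb_irrefl : ∀ a, a ∉ nb a := by decide

/-- The cubic graph. -/
def G : SimpleGraph (Fin 20) where
  Adj a b := b ∈ nb a
  symm := ⟨fun a b h => nb_symm a b h⟩
  loopless := ⟨fun a h => nb_irrefl a h⟩

/-- The shift used in copy `q`. -/
def sh (q : ℕ) : ℕ := if q = 1 ∨ q = 2 then 1 else 0

/-- Vertex colours of the total colouring with four colours. -/
def vc (a : Fin 20) : Fin 4 :=
  if a.val % 5 < 2 then 0 else Fin.ofNat 4 (1 + ((a.val % 5 + sh (a.val / 5)) % 3))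

/-- Edge colours of the total colouring with four colours. -/
def ec (a b : Fin 20) : Fin 4 :=
  if a.val / 5 = b.val / 5 then
    Fin.ofNat 4 (1 + ((a.val % 5 + b.val % 5 + 1 + sh (min (a.val / 5) (b.val / 5))) % 3))
  else 0

theorem ec_symm (a b : Fin 20) : ec a b = ec b a := by
  unfold ec
  by_cases h : a.val / 5 = b.val / 5
  · rw [if_pos h, if_pos h.symm, min_comm, Nat.add_comm (a.val % 5)]
  · rw [if_neg h, if_neg (fun h' => h h'.symm)]

/-- The lists on the edges. -/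
def le (a b : Fin 20) : Finset ℕ :=
  if a.val < 10 ∧ b.val < 10 then {1, 2, 3, 4}
  else if 10 ≤ a.val ∧ 10 ≤ b.val then {5, 6, 7, 8}
  else if a = 2 ∨ b = 2 then {1, 2, 5, 6}
  else if a = 3 ∨ b = 3 then {1, 2, 7, 8}
  else if a = 7 ∨ b = 7 then {3, 4, 5, 6}
  else {3, 4, 7, 8}

theorem le_symm (a b : Fin 20) : le a b = le b a := by
  unfold le
  simp only [and_comm, or_comm]

theorem le_card (a b : Fin 20) : (le a b).card = 4 := by
  unfold le
  split_ifs <;> rfl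


/-- The total colouring with four colours. -/
noncomputable def col : Fin 20 ⊕ G.edgeSet → Fin 4
  | Sum.inl a => vc a
  | Sum.inr e => Sym2.lift ⟨ec, ec_symm⟩ e.1

/-- The lists. -/
noncomputable def lists : Fin 20 ⊕ G.edgeSet → Finset ℕ
  | Sum.inl a => if a.val < 10 then {1, 2, 3, 4} else {5, 6, 7, 8}
  | Sum.inr e => Sym2.lift ⟨le, le_symm⟩ e.1

theorem vc_ok : ∀ a, ∀ b ∈ nb a, vc a ≠ vc b := by decide

theorem ec_ok : ∀ a, ∀ b ∈ nb a, ∀ c ∈ nb a, b ≠ c → ec a b ≠ ec a c := by decide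

theorem vec_ok : ∀ a, ∀ b ∈ nb a, vc a ≠ ec a b := by decide

theorem col_ok : (∀ u v : Fin 20, G.Adj u v → col (Sum.inl u) ≠ col (Sum.inl v)) ∧
      (∀ e f : G.edgeSet, e ≠ f →
        (∃ v : Fin 20, v ∈ (e : Sym2 (Fin 20)) ∧ v ∈ (f : Sym2 (Fin 20))) →
          col (Sum.inr e) ≠ col (Sum.inr f)) ∧
      (∀ (v : Fin 20) (e : G.edgeSet), v ∈ (e : Sym2 (Fin 20)) →
          col (Sum.inl v) ≠ col (Sum.inr e)) := by
  refine ⟨fun u v h => vc_ok u v h, ?_, ?_⟩
  · rintro ⟨e, he⟩ ⟨f, hf⟩ hef ⟨v, hve, hvf⟩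
    obtain ⟨b, rfl⟩ := hve
    obtain ⟨c, rfl⟩ := hvf
    have hb : b ∈ nb v := he
    have hc : c ∈ nb v := hf
    have hbc : b ≠ c := by
      rintro rfl
      exact hef rfl
    exact ec_ok v b hb c hc hbc
  · rintro v ⟨e, he⟩ hve
    obtain ⟨b, rfl⟩ := hve
    exact vec_ok v b he

theorem lists_card (x : Fin 20 ⊕ G.edgeSet) : 4 ≤ (lists x).card := by
  rcases x with a | ⟨e, he⟩
  · show 4 ≤ (if a.val < 10 then ({1, 2, 3, 4} : Finset ℕ) else {5, 6, 7, 8}).card
    split_ifs <;> decide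
  · induction e using Sym2.ind with
    | _ a b =>
      show 4 ≤ (le a b).card
      rw [le_card]

open Classical in
/-- The colour of the edge `ab`. -/
noncomputable def E (φ : Fin 20 ⊕ G.edgeSet → ℕ) (a b : Fin 20) : ℕ :=
  if h : G.Adj a b then φ (Sum.inr ⟨s(a, b), h⟩) else 0

theorem no_list_col (φ : Fin 20 ⊕ G.edgeSet → ℕ) (h0 : ∀ x, φ x ∈ lists x)
    (h1 : ∀ u v : Fin 20, G.Adj u v → φ (Sum.inl u) ≠ φ (Sum.inl v))
    (h2 : ∀ e f : G.edgeSet, e ≠ f →
        (∃ v : Fin 20, v ∈ (e : Sym2 (Fin 20)) ∧ v ∈ (f : Sym2 (Fin 20))) →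
          φ (Sum.inr e) ≠ φ (Sum.inr f))
    (h3 : ∀ (v : Fin 20) (e : G.edgeSet), v ∈ (e : Sym2 (Fin 20)) →
          φ (Sum.inl v) ≠ φ (Sum.inr e)) : False := by
  have E_eq : ∀ a b (h : G.Adj a b), E φ a b = φ (Sum.inr ⟨s(a, b), h⟩) := fun a b h => dif_pos h
  have E_symm : ∀ a b, b ∈ nb a → E φ a b = E φ b a := by
    intro a b h
    have h' : G.Adj a b := h
    rw [E_eq a b h', E_eq b a h'.symm]
    congr 2
    exact Subtype.ext Sym2.eq_swap
  have E_mem : ∀ a b, b ∈ nb a → E φ a b ∈ le a b := by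
    intro a b h
    have h' : G.Adj a b := h
    rw [E_eq a b h']
    exact h0 (Sum.inr ⟨s(a, b), h'⟩)
  have E_ne : ∀ a b c, b ∈ nb a → c ∈ nb a → b ≠ c → E φ a b ≠ E φ a c := by
    intro a b c hb hc hbc
    have hb' : G.Adj a b := hb
    have hc' : G.Adj a c := hc
    rw [E_eq a b hb', E_eq a c hc']
    refine h2 _ _ ?_ ⟨a, ?_, ?_⟩
    · intro h
      have h4 := congrArg Subtype.val h
      simp only [Sym2.eq_iff] at h4
      rcases h4 with ⟨_, h5⟩ | ⟨h5, h6⟩
      · exact hbc h5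
      · exact hbc (h6.trans h5)
    · exact Sym2.mem_mk_left a b
    · exact Sym2.mem_mk_left a c
  have VE : ∀ a b, b ∈ nb a → φ (Sum.inl a) ≠ E φ a b := by
    intro a b h
    have h' : G.Adj a b := h
    rw [E_eq a b h']
    exact h3 a _ (Sym2.mem_mk_left a b)
  have VV : ∀ a b, b ∈ nb a → φ (Sum.inl a) ≠ φ (Sum.inl b) := fun a b h => h1 a b h
  have V_mem : ∀ a : Fin 20, φ (Sum.inl a) ∈
      (if a.val < 10 then ({1, 2, 3, 4} : Finset ℕ) else {5, 6, 7, 8}) := fun a => h0 (Sum.inl a)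
  -- the gadget in copy `q`
  have key : ∀ (P : Finset ℕ) (xs : Fin 2 → Fin 20) (ys : Fin 3 → Fin 20), P.card = 4 →
      (∀ i, (if (xs i).val < 10 then ({1, 2, 3, 4} : Finset ℕ) else {5, 6, 7, 8}) = P) →
      (∀ j, (if (ys j).val < 10 then ({1, 2, 3, 4} : Finset ℕ) else {5, 6, 7, 8}) = P) →
      (∀ i j, ys j ∈ nb (xs i)) → (∀ i j, le (xs i) (ys j) = P) →
      (∀ j k, j ≠ k → ys j ≠ ys k) → xs 0 ≠ xs 1 →
      ∀ j, ∀ m ∈ P, m ≠ φ (Sum.inl (ys j)) → m ≠ E φ (ys j) (xs 0) → m ≠ E φ (ys j) (xs 1) →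
        m = φ (Sum.inl (xs 0)) := by
    intro P xs ys hP hxs hys hadj hle hinj hx01 j m hm m1 m2 m3
    have hadj' : ∀ i j, xs i ∈ nb (ys j) := fun i j => nb_symm _ _ (hadj i j)
    refine (k23 P hP (fun i => φ (Sum.inl (xs i))) (fun j => φ (Sum.inl (ys j)))
      (fun i j => E φ (xs i) (ys j)) ?_ ?_ ?_ ?_ ?_ ?_ ?_ ?_).2 j m hm m1 ?_ ?_
    · intro i; have := V_mem (xs i); rwa [hxs] at this
    · intro j; have := V_mem (ys j); rwa [hys] at this
    · intro i j; have := E_mem (xs i) (ys j) (hadj i j); rwa [hle] at this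
    · intro i j; exact VE _ _ (hadj i j)
    · intro i j k hjk; exact E_ne _ _ _ (hadj i j) (hadj i k) (hinj j k hjk)
    · intro j
      show E φ (xs 0) (ys j) ≠ E φ (xs 1) (ys j)
      rw [E_symm _ _ (hadj 0 j), E_symm _ _ (hadj 1 j)]
      exact E_ne _ _ _ (hadj' 0 j) (hadj' 1 j) hx01
    · intro i j
      show φ (Sum.inl (ys j)) ≠ E φ (xs i) (ys j)
      rw [E_symm _ _ (hadj i j)]
      exact VE _ _ (hadj' i j)
    · intro i j; exact VV _ _ (hadj i j)
    · show m ≠ E φ (xs 0) (ys j)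
      rw [E_symm _ _ (hadj 0 j)]; exact m2
    · show m ≠ E φ (xs 1) (ys j)
      rw [E_symm _ _ (hadj 1 j)]; exact m3
  have k0 := key {1, 2, 3, 4} ![0, 1] ![2, 3, 4] (by decide) (by decide) (by decide) (by decide)
    (by decide) (by decide) (by decide)
  have k1 := key {1, 2, 3, 4} ![5, 6] ![7, 8, 9] (by decide) (by decide) (by decide) (by decide)
    (by decide) (by decide) (by decide)
  have k2 := key {5, 6, 7, 8} ![10, 11] ![12, 13, 14] (by decide) (by decide) (by decide)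
    (by decide) (by decide) (by decide) (by decide)
  have k3 := key {5, 6, 7, 8} ![15, 16] ![17, 18, 19] (by decide) (by decide) (by decide)
    (by decide) (by decide) (by decide) (by decide)
  have m49 := E_mem 4 9 (by decide)
  have a49 : E φ 4 9 = φ (Sum.inl 0) := k0 2 _ m49 (VE 4 9 (by decide)).symm
    (E_ne 4 9 0 (by decide) (by decide) (by decide))
    (E_ne 4 9 1 (by decide) (by decide) (by decide))
  have m94 := E_mem 9 4 (by decide)
  have a94 : E φ 9 4 = φ (Sum.inl 5) := k1 2 _ m94 (VE 9 4 (by decide)).symm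
    (E_ne 9 4 5 (by decide) (by decide) (by decide))
    (E_ne 9 4 6 (by decide) (by decide) (by decide))
  have ha : φ (Sum.inl 0) = φ (Sum.inl 5) := by
    rw [← a49, ← a94]; exact E_symm 4 9 (by decide)
  have mce := E_mem 14 19 (by decide)
  have b14 : E φ 14 19 = φ (Sum.inl 10) := k2 2 _ mce (VE 14 19 (by decide)).symm
    (E_ne 14 19 10 (by decide) (by decide) (by decide))
    (E_ne 14 19 11 (by decide) (by decide) (by decide))
  have mec := E_mem 19 14 (by decide)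
  have b19 : E φ 19 14 = φ (Sum.inl 15) := k3 2 _ mec (VE 19 14 (by decide)).symm
    (E_ne 19 14 15 (by decide) (by decide) (by decide))
    (E_ne 19 14 16 (by decide) (by decide) (by decide))
  have hb : φ (Sum.inl 10) = φ (Sum.inl 15) := by
    rw [← b14, ← b19]; exact E_symm 14 19 (by decide)
  -- the four edges between the blocks
  have A2 : E φ 2 12 ∈ ({1, 2, 3, 4} : Finset ℕ) → E φ 2 12 = φ (Sum.inl 0) := fun hm =>
    k0 0 _ hm (VE 2 12 (by decide)).symm (E_ne 2 12 0 (by decide) (by decide) (by decide))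
      (E_ne 2 12 1 (by decide) (by decide) (by decide))
  have B12 : E φ 12 2 ∈ ({5, 6, 7, 8} : Finset ℕ) → E φ 12 2 = φ (Sum.inl 10) := fun hm =>
    k2 0 _ hm (VE 12 2 (by decide)).symm (E_ne 12 2 10 (by decide) (by decide) (by decide))
      (E_ne 12 2 11 (by decide) (by decide) (by decide))
  have A3 : E φ 3 17 ∈ ({1, 2, 3, 4} : Finset ℕ) → E φ 3 17 = φ (Sum.inl 0) := fun hm =>
    k0 1 _ hm (VE 3 17 (by decide)).symm (E_ne 3 17 0 (by decide) (by decide) (by decide))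
      (E_ne 3 17 1 (by decide) (by decide) (by decide))
  have B17 : E φ 17 3 ∈ ({5, 6, 7, 8} : Finset ℕ) → E φ 17 3 = φ (Sum.inl 15) := fun hm =>
    k3 0 _ hm (VE 17 3 (by decide)).symm (E_ne 17 3 15 (by decide) (by decide) (by decide))
      (E_ne 17 3 16 (by decide) (by decide) (by decide))
  have A7 : E φ 7 13 ∈ ({1, 2, 3, 4} : Finset ℕ) → E φ 7 13 = φ (Sum.inl 5) := fun hm =>
    k1 0 _ hm (VE 7 13 (by decide)).symm (E_ne 7 13 5 (by decide) (by decide) (by decide))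
      (E_ne 7 13 6 (by decide) (by decide) (by decide))
  have B13 : E φ 13 7 ∈ ({5, 6, 7, 8} : Finset ℕ) → E φ 13 7 = φ (Sum.inl 10) := fun hm =>
    k2 1 _ hm (VE 13 7 (by decide)).symm (E_ne 13 7 10 (by decide) (by decide) (by decide))
      (E_ne 13 7 11 (by decide) (by decide) (by decide))
  have A8 : E φ 8 18 ∈ ({1, 2, 3, 4} : Finset ℕ) → E φ 8 18 = φ (Sum.inl 5) := fun hm =>
    k1 1 _ hm (VE 8 18 (by decide)).symm (E_ne 8 18 5 (by decide) (by decide) (by decide))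
      (E_ne 8 18 6 (by decide) (by decide) (by decide))
  have B18 : E φ 18 8 ∈ ({5, 6, 7, 8} : Finset ℕ) → E φ 18 8 = φ (Sum.inl 15) := fun hm =>
    k3 1 _ hm (VE 18 8 (by decide)).symm (E_ne 18 8 15 (by decide) (by decide) (by decide))
      (E_ne 18 8 16 (by decide) (by decide) (by decide))
  rw [← E_symm 2 12 (by decide)] at B12
  rw [← E_symm 3 17 (by decide)] at B17
  rw [← E_symm 7 13 (by decide)] at B13
  rw [← E_symm 8 18 (by decide)] at B18
  have M2 : E φ 2 12 ∈ ({1, 2, 5, 6} : Finset ℕ) := E_mem 2 12 (by decide)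
  have M3 : E φ 3 17 ∈ ({1, 2, 7, 8} : Finset ℕ) := E_mem 3 17 (by decide)
  have M7 : E φ 7 13 ∈ ({3, 4, 5, 6} : Finset ℕ) := E_mem 7 13 (by decide)
  have M8 : E φ 8 18 ∈ ({3, 4, 7, 8} : Finset ℕ) := E_mem 8 18 (by decide)
  simp only [Finset.mem_insert, Finset.mem_singleton] at A2 B12 A3 B17 A7 B13 A8 B18 M2 M3 M7 M8
  omega

theorem result :
    ¬ (∀ (V : Type) [Fintype V] (G : SimpleGraph V) (k : ℕ),
    (∃ c : V ⊕ G.edgeSet → Fin k,
      (∀ u v : V, G.Adj u v → c (Sum.inl u) ≠ c (Sum.inl v)) ∧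
      (∀ e f : G.edgeSet, e ≠ f →
        (∃ v : V, v ∈ (e : Sym2 V) ∧ v ∈ (f : Sym2 V)) →
          c (Sum.inr e) ≠ c (Sum.inr f)) ∧
      (∀ (v : V) (e : G.edgeSet), v ∈ (e : Sym2 V) →
          c (Sum.inl v) ≠ c (Sum.inr e))) →
    ∀ L : V ⊕ G.edgeSet → Finset ℕ, (∀ x, k ≤ (L x).card) →
      ∃ c : V ⊕ G.edgeSet → ℕ,
        (∀ x, c x ∈ L x) ∧
        (∀ u v : V, G.Adj u v → c (Sum.inl u) ≠ c (Sum.inl v)) ∧
        (∀ e f : G.edgeSet, e ≠ f →
          (∃ v : V, v ∈ (e : Sym2 V) ∧ v ∈ (f : Sym2 V)) →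
            c (Sum.inr e) ≠ c (Sum.inr f)) ∧
        (∀ (v : V) (e : G.edgeSet), v ∈ (e : Sym2 V) →
            c (Sum.inl v) ≠ c (Sum.inr e))) := by
  intro h
  obtain ⟨φ, h0, h1, h2, h3⟩ := h (Fin 20) G 4 ⟨col, col_ok⟩ lists lists_card
  exact no_list_col φ h0 h1 h2 h3

end Pool.Agent.S07360
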