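import Pool.Statements.S07387
import Pool.Agent.Bondy.Key
import Pool.Agent.Bondy.Levels
import Pool.Agent.Bondy.Graph

set_option autoImplicit false
open Pool Pool.MP_18526b_co

namespace Pool.Agent.S07387

/-- There is a constant C such that every pancyclic simple graph on n ≥ 3 vertices has at least n + log₂ n + log* n − C edges, where log* n is the least k for which k-fold iteration of log₂ on n gives at most 1. -/
theorem result :
    ∃ C : ℝ, ∀ n : ℕ, 3 ≤ n → ∀ G : SimpleGraph (Fin n),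
      (∀ k : ℕ, 3 ≤ k → k ≤ n → ∃ v : Fin n, ∃ p : G.Walk v v, p.IsCycle ∧ p.length = k) →
      Real.logb 2 (n : ℝ)
          + ((sInf {k : ℕ | (Real.logb 2)^[k] (n : ℝ) ≤ 1} : ℕ) : ℝ) - C
        ≤ (Nat.card G.edgeSet : ℝ) - (n : ℝ) := by
  obtain ⟨w0, hkey⟩ := Pool.Agent.Bondy.key_lemma
  obtain ⟨C, hC⟩ := Pool.Agent.Bondy.levels w0
  refine ⟨C + 1, fun n hn G hG => ?_⟩
  obtain ⟨K, v, ρ, hvK, hv0, hρ, h1, h2, h3, h4⟩ :=
    Pool.Agent.Bondy.graph_part w0 hkey n hn G hG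
  have := hC n K v ρ hn hvK hv0 h1 h2 h3 h4
  have h5 : (ρ K : ℝ) + n ≤ Nat.card G.edgeSet + 1 := by exact_mod_cast hρ
  linarith

end Pool.Agent.S07387
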