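import Pool.Statements.S07753
import Pool.Agent.Helper62.Disc.Iter

set_option autoImplicit false
open Pool Pool.MP_27e7d5_co

namespace Pool.Agent.S07753

/-- There is an absolute constant C such that any 0/1 matrix with at most t ones per row and per column, and any two distinct rows sharing at most one column, has a ±1 column colouring with every row sum at most C√t in absolute value. -/
theorem result :
    ∃ C : ℝ, ∀ (t m n : ℕ) (S : Fin m → Finset (Fin n)),
      (∀ i, (S i).card ≤ t) →
      (∀ j : Fin n, (Finset.univ.filter (fun i : Fin m => j ∈ S i)).card ≤ t) →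
      (∀ i i' : Fin m, i ≠ i' → (S i ∩ S i').card ≤ 1) →
      ∃ x : Fin n → ℤ, (∀ j, x j = 1 ∨ x j = -1) ∧
        ∀ i : Fin m, |∑ j ∈ S i, (x j : ℝ)| ≤ C * Real.sqrt t := by
  exact Pool.Agent.Helper62.Disc.disc_main

end Pool.Agent.S07753
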