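import Pool.Statements.S07782

set_option autoImplicit false
open Pool Pool.MP_293fea_co

namespace Pool.Agent.S07782

/-- Transition function on states `0,1,2,3` (the fourth roots of unity `i^0,...,i^3`) and `4` (dead). -/
def tr (u : Fin 5) (d : ℕ) : Fin 5 :=
  if d = 0 then u
  else if d = 2 ∨ d = 4 then
    (if u = 0 then 1 else if u = 1 then 2 else if u = 2 then 3 else if u = 3 then 0 else 4)
  else 4

/-- State reached after reading the base-6 digits of `n`. -/
def st : ℕ → Fin 5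
  | 0 => 0
  | (n+1) => tr (st ((n+1)/6)) ((n+1)%6)
decreasing_by
  exact Nat.div_lt_self (Nat.succ_pos n) (by norm_num)

lemma st_zero : st 0 = 0 := by
  rw [st]

lemma st_rec (n : ℕ) : st n = tr (st (n/6)) (n%6) := by
  cases n with
  | zero => simp [st_zero, tr]
  | succ n => rw [st]

lemma st_mul_add (q d : ℕ) (hd : d < 6) : st (6*q+d) = tr (st q) d := by
  rw [st_rec]
  congr 1
  · congr 1; omega
  · omega

lemma st_odd (n : ℕ) (h : n % 2 = 1) : st n = 4 := by
  rw [st_rec]
  have h1 : (n % 6) % 2 = 1 := by omega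
  have h2 : n % 6 ≠ 0 := by omega
  have h3 : ¬ (n % 6 = 2 ∨ n % 6 = 4) := by omega
  simp [tr, h2, h3]

/-- Output function. -/
def out (u : Fin 5) : Fin 2 := if u = 0 ∨ u = 1 then 1 else 0

/-- The automatic sequence. -/
def xx (n : ℕ) : Fin 2 := out (st n)

lemma st_block (e : ℕ) : ∀ r : ℕ, r < 6^e → ∃ h : Fin 5 → Fin 5, ∀ n, st (6^e * n + r) = h (st n) := by
  induction e with
  | zero =>
    intro r hr
    refine ⟨id, fun n => ?_⟩
    have : r = 0 := by simpa using hr
    subst this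
    simp
  | succ e ih =>
    intro r hr
    have hr' : r / 6 < 6^e := by
      rw [Nat.div_lt_iff_lt_mul (by norm_num)]
      rwa [pow_succ] at hr
    obtain ⟨h, hh⟩ := ih (r/6) hr'
    refine ⟨fun u => tr (h u) (r % 6), fun n => ?_⟩
    have : 6^(e+1) * n + r = 6 * (6^e * n + r/6) + r % 6 := by
      rw [pow_succ]
      have := Nat.div_add_mod r 6
      nlinarith
    rw [this, st_mul_add _ _ (Nat.mod_lt _ (by norm_num)), hh]

lemma kernel_finite :
    {f : ℕ → Fin 2 | ∃ e r : ℕ, r < 6 ^ e ∧ f = fun n => xx (6 ^ e * n + r)}.Finite := by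
  apply Set.Finite.subset (Set.finite_range (fun g : Fin 5 → Fin 2 => fun n : ℕ => g (st n)))
  rintro f ⟨e, r, hr, rfl⟩
  obtain ⟨h, hh⟩ := st_block e r hr
  refine ⟨fun u => out (h u), ?_⟩
  funext n
  simp [xx, hh]

/-- number of accepted words of length `j` from state `u` -/
def NN : ℕ → Fin 5 → ℕ
  | 0, u => (out u).val
  | (j+1), u => ∑ d ∈ Finset.range 6, NN j (tr u d)

/-- count of ones in a window -/
def cc (n i : ℕ) : ℕ := ((Finset.range n).filter (fun j => xx (i + j) = 1)).card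

lemma cc_eq_sum (n i : ℕ) : cc n i = ∑ j ∈ Finset.range n, (xx (i+j)).val := by
  unfold cc
  rw [Finset.card_filter]
  apply Finset.sum_congr rfl
  intro j _
  have : xx (i+j) = 0 ∨ xx (i+j) = 1 := by
    generalize xx (i+j) = y
    revert y; decide
  rcases this with h | h <;> simp [h]

lemma cc_add (a b i : ℕ) : cc (a+b) i = cc a i + cc b (i+a) := by
  rw [cc_eq_sum, cc_eq_sum, cc_eq_sum, Finset.sum_range_add]
  congr 1
  apply Finset.sum_congr rfl
  intro j _
  rw [add_assoc]

lemma cc_block (j : ℕ) : ∀ a : ℕ, cc (6^j) (6^j * a) = NN j (st a) := by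
  induction j with
  | zero =>
    intro a
    simp [cc_eq_sum, NN, xx]
  | succ j ih =>
    intro a
    have key : ∀ d : ℕ, d ≤ 6 → cc (d * 6^j) (6^(j+1)*a) = ∑ t ∈ Finset.range d, NN j (tr (st a) t) := by
      intro d
      induction d with
      | zero => intro _; simp [cc_eq_sum]
      | succ d ihd =>
        intro hd
        rw [Finset.sum_range_succ, ← ihd (by omega), add_mul, one_mul, cc_add]
        congr 1
        have : 6^(j+1)*a + d * 6^j = 6^j * (6*a+d) := by ring
        rw [this, ih, st_mul_add _ _ (by omega)]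
    have := key 6 le_rfl
    rw [NN, ← this]
    congr 1
    ring

/-- Real and imaginary part of `(1+2i)^j`. -/
def AB : ℕ → ℤ × ℤ
  | 0 => (1, 0)
  | (j+1) => ((AB j).1 - 2 * (AB j).2, 2 * (AB j).1 + (AB j).2)

lemma NN_dead (j : ℕ) : NN j 4 = 0 := by
  induction j with
  | zero => simp [NN, out]
  | succ j ih =>
    rw [NN]
    apply Finset.sum_eq_zero
    intro d _
    have : tr 4 d = 4 := by
      unfold tr
      split_ifs <;> simp_all
    rw [this, ih]

lemma NN_succ (j : ℕ) (u : Fin 5) :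
    NN (j+1) u = NN j u + 2 * NN j (tr u 2) := by
  rw [NN]
  simp only [Finset.sum_range_succ, Finset.sum_range_zero]
  have h0 : tr u 0 = u := by simp [tr]
  have h1 : tr u 1 = 4 := by simp [tr]
  have h3 : tr u 3 = 4 := by simp [tr]
  have h4 : tr u 4 = tr u 2 := by simp [tr]
  have h5 : tr u 5 = 4 := by simp [tr]
  rw [h0, h1, h3, h4, h5, NN_dead]
  ring

lemma NN_formula (j : ℕ) :
    2 * (NN j 0 : ℤ) = 3^j + (AB j).1 + (AB j).2 ∧
    2 * (NN j 1 : ℤ) = 3^j + (AB j).1 - (AB j).2 ∧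
    2 * (NN j 2 : ℤ) = 3^j - (AB j).1 - (AB j).2 ∧
    2 * (NN j 3 : ℤ) = 3^j - (AB j).1 + (AB j).2 := by
  induction j with
  | zero => simp [NN, AB, out]
  | succ j ih =>
    obtain ⟨h0, h1, h2, h3⟩ := ih
    have t0 : tr 0 2 = 1 := by decide
    have t1 : tr 1 2 = 2 := by decide
    have t2 : tr 2 2 = 3 := by decide
    have t3 : tr 3 2 = 0 := by decide
    rw [NN_succ, NN_succ, NN_succ, NN_succ, t0, t1, t2, t3, AB]
    push_cast
    refine ⟨?_, ?_, ?_, ?_⟩ <;> rw [pow_succ] <;> linarith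

/-- Maximum number of ones in a window of length `6^j`. -/
def MM (j : ℕ) : ℕ := max (max (NN j 0) (NN j 1)) (max (NN j 2) (NN j 3))

lemma MM_formula (j : ℕ) : 2 * (MM j : ℤ) = 3^j + |(AB j).1| + |(AB j).2| := by
  obtain ⟨h0, h1, h2, h3⟩ := NN_formula j
  unfold MM
  push_cast
  rcases abs_cases (AB j).1 with ⟨ha, _⟩ | ⟨ha, _⟩ <;>
  rcases abs_cases (AB j).2 with ⟨hb, _⟩ | ⟨hb, _⟩ <;>
  rcases max_cases (max (NN j 0 : ℤ) (NN j 1)) (max (NN j 2 : ℤ) (NN j 3)) with ⟨hm, _⟩ | ⟨hm, _⟩ <;>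
  rcases max_cases (NN j 0 : ℤ) (NN j 1) with ⟨hm1, _⟩ | ⟨hm1, _⟩ <;>
  rcases max_cases (NN j 2 : ℤ) (NN j 3) with ⟨hm2, _⟩ | ⟨hm2, _⟩ <;>
  omega

lemma NN_le_MM (j : ℕ) (u : Fin 5) : NN j u ≤ MM j := by
  have h4 := NN_dead j
  unfold MM
  fin_cases u
  · exact le_trans (le_max_left _ _) (le_max_left _ _)
  · exact le_trans (le_max_right _ _) (le_max_left _ _)
  · exact le_trans (le_max_left _ _) (le_max_right _ _)
  · exact le_trans (le_max_right _ _) (le_max_right _ _)
  · show NN j 4 ≤ _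
    rw [h4]; exact Nat.zero_le _

lemma exists_state (u : Fin 5) (hu : u ≠ 4) : ∃ a : ℕ, a % 2 = 0 ∧ st a = u := by
  have s0 : st 0 = 0 := st_zero
  have s2 : st 2 = 1 := by
    have := st_mul_add 0 2 (by norm_num)
    simp only [mul_zero, zero_add] at this
    rw [this, s0]; decide
  have s14 : st 14 = 2 := by
    have := st_mul_add 2 2 (by norm_num)
    norm_num at this
    rw [this, s2]; decide
  have s86 : st 86 = 3 := by
    have := st_mul_add 14 2 (by norm_num)
    norm_num at this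
    rw [this, s14]; decide
  fin_cases u
  · exact ⟨0, rfl, s0⟩
  · exact ⟨2, rfl, s2⟩
  · exact ⟨14, rfl, s14⟩
  · exact ⟨86, rfl, s86⟩
  · exact absurd rfl hu

lemma exists_MM (j : ℕ) : ∃ a : ℕ, a % 2 = 0 ∧ NN j (st a) = MM j := by
  have : ∃ u : Fin 5, u ≠ 4 ∧ NN j u = MM j := by
    unfold MM
    rcases max_cases (max (NN j 0) (NN j 1)) (max (NN j 2) (NN j 3)) with ⟨hm, _⟩ | ⟨hm, _⟩
    · rcases max_cases (NN j 0) (NN j 1) with ⟨hm1, _⟩ | ⟨hm1, _⟩
      · exact ⟨0, by decide, by rw [hm, hm1]⟩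
      · exact ⟨1, by decide, by rw [hm, hm1]⟩
    · rcases max_cases (NN j 2) (NN j 3) with ⟨hm1, _⟩ | ⟨hm1, _⟩
      · exact ⟨2, by decide, by rw [hm, hm1]⟩
      · exact ⟨3, by decide, by rw [hm, hm1]⟩
  obtain ⟨u, hu, h⟩ := this
  obtain ⟨a, ha, hs⟩ := exists_state u hu
  exact ⟨a, ha, by rw [hs, h]⟩

lemma cc_le_MM (j i : ℕ) : cc (6^j) i ≤ MM j := by
  set a := i / 6^j with ha
  have hpos : 0 < 6^j := by positivity
  -- window [i, i + 6^j) inside [6^j a, 6^j (a+2))
  have hlow : 6^j * a ≤ i := Nat.mul_div_le i (6^j)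
  have hhigh : i < 6^j * (a+1) := Nat.lt_mul_div_succ i hpos
  have h1 : cc (6^j + 6^j) (6^j * a) = NN j (st a) + NN j (st (a+1)) := by
    rw [cc_add, cc_block]
    have : 6^j * a + 6^j = 6^j * (a+1) := by ring
    rw [this, cc_block]
  have h2 : cc (6^j) i ≤ cc (6^j + 6^j) (6^j * a) := by
    have e : 6^j + 6^j = (i - 6^j * a) + (6^j + (6^j * (a+1) - i)) := by
      have : 6^j * (a+1) = 6^j * a + 6^j := by ring
      omega
    rw [e, cc_add, cc_add]
    have : 6^j * a + (i - 6^j * a) = i := by omega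
    rw [this]
    omega
  have h3 : NN j (st a) + NN j (st (a+1)) ≤ MM j := by
    rcases Nat.even_or_odd a with h | h
    · have : st (a+1) = 4 := by
        apply st_odd
        rcases h with ⟨t, ht⟩
        omega
      rw [this, NN_dead, add_zero]
      exact NN_le_MM j _
    · have : st a = 4 := by
        apply st_odd
        rcases h with ⟨t, ht⟩
        omega
      rw [this, NN_dead, zero_add]
      exact NN_le_MM j _
  omega

lemma cc_step (n i : ℕ) : cc n i ≤ cc n (i+1) + 1 := by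
  have h1 : cc (1+n) i = cc 1 i + cc n (i+1) := cc_add 1 n i
  have h2 : cc (n+1) i = cc n i + cc 1 (i+n) := cc_add n 1 i
  have h3 : cc 1 i ≤ 1 := by
    unfold cc
    calc _ ≤ (Finset.range 1).card := Finset.card_filter_le _ _
      _ = 1 := by simp
  rw [add_comm 1 n] at h1
  omega

lemma cc_values (j v : ℕ) (hv : v ≤ MM j) : ∃ i, cc (6^j) i = v := by
  obtain ⟨a, ha, hM⟩ := exists_MM j
  have hM' : cc (6^j) (6^j * a) = MM j := by rw [cc_block, hM]
  have h0 : cc (6^j) (6^j * (a+1)) = 0 := by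
    rw [cc_block, st_odd (a+1) (by omega), NN_dead]
  classical
  have hex : ∃ t, cc (6^j) (6^j * a + t) ≤ v := by
    refine ⟨6^j, ?_⟩
    have : 6^j * a + 6^j = 6^j * (a+1) := by ring
    rw [this, h0]; exact Nat.zero_le _
  have hspec := Nat.find_spec hex
  have hmin := fun m => Nat.find_min hex (m := m)
  set t := Nat.find hex with ht
  refine ⟨6^j * a + t, le_antisymm hspec ?_⟩
  rcases Nat.eq_zero_or_pos t with h | h
  · rw [h, add_zero, hM']; exact hv
  · have h1 := hmin (t-1) (by omega)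
    have h2 := cc_step (6^j) (6^j * a + (t-1))
    have h3 : 6^j * a + (t-1) + 1 = 6^j * a + t := by omega
    rw [h3] at h2
    omega

/-- The abelian complexity of `xx`, exactly as in the statement. -/
noncomputable def rho (n : ℕ) : ℤ :=
  ((Set.ncard {v : Fin 2 → ℕ | ∃ i : ℕ,
              v = fun c => ((Finset.range n).filter
                (fun j => xx (i + j) = c)).card} : ℕ) : ℤ)

lemma parikh_eq (n i : ℕ) :
    (fun c : Fin 2 => ((Finset.range n).filter (fun j => xx (i + j) = c)).card) =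
      ![n - cc n i, cc n i] := by
  have h1 : ((Finset.range n).filter (fun j => xx (i + j) = 1)).card = cc n i := rfl
  have h0 : ((Finset.range n).filter (fun j => xx (i + j) = 0)).card = n - cc n i := by
    have h := Finset.card_filter_add_card_filter_not (s := Finset.range n) (fun j => xx (i + j) = 1)
    have h' : (Finset.range n).filter (fun j => ¬ xx (i + j) = 1) =
        (Finset.range n).filter (fun j => xx (i + j) = 0) := by
      apply Finset.filter_congr
      intro j _
      generalize xx (i+j) = y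
      revert y; decide
    rw [h', h1, Finset.card_range] at h
    omega
  funext c
  fin_cases c
  · simpa using h0
  · simpa using h1

lemma rho_pow (j : ℕ) : rho (6^j) = (MM j : ℤ) + 1 := by
  unfold rho
  have : {v : Fin 2 → ℕ | ∃ i : ℕ,
              v = fun c => ((Finset.range (6^j)).filter
                (fun j => xx (i + j) = c)).card} =
      (fun t : ℕ => (![6^j - t, t] : Fin 2 → ℕ)) '' ((Finset.range (MM j + 1) : Finset ℕ) : Set ℕ) := by
    ext v
    constructor
    · rintro ⟨i, rfl⟩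
      refine ⟨cc (6^j) i, ?_, ?_⟩
      · have := cc_le_MM j i
        simp only [Finset.coe_range, Set.mem_Iio]
        omega
      · exact (parikh_eq (6^j) i).symm
    · rintro ⟨t, ht, rfl⟩
      simp only [Finset.coe_range, Set.mem_Iio] at ht
      obtain ⟨i, hi⟩ := cc_values j t (by omega)
      refine ⟨i, ?_⟩
      rw [parikh_eq, hi]
  rw [this, Set.ncard_image_of_injective]
  · rw [Set.ncard_coe_finset, Finset.card_range]
    push_cast
    ring
  · intro s t hst
    have := congrFun hst 1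
    simpa using this

/-! ### Arithmetic of `(1+2i)^j` -/

lemma AB_mod4 (j : ℕ) : (AB j).1 % 4 = 1 ∧ (AB j).2 % 4 = (2 * (j : ℤ)) % 4 := by
  induction j with
  | zero => simp [AB]
  | succ j ih =>
    obtain ⟨h1, h2⟩ := ih
    rw [AB]
    push_cast
    constructor <;> omega

lemma AB_mod5 (j : ℕ) : ((AB (j+1)).1 + 2 * (AB (j+1)).2) % 5 = 0 ∧ (AB (j+1)).2 % 5 ≠ 0 := by
  induction j with
  | zero => simp [AB]
  | succ j ih =>
    obtain ⟨h1, h2⟩ := ih
    rw [AB]
    constructor <;> dsimp only <;> omega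

lemma AB_add (m n : ℕ) :
    (AB (m+n)).1 = (AB n).1 * (AB m).1 - (AB n).2 * (AB m).2 ∧
    (AB (m+n)).2 = (AB n).2 * (AB m).1 + (AB n).1 * (AB m).2 := by
  induction n with
  | zero => simp [AB]
  | succ n ih =>
    obtain ⟨h1, h2⟩ := ih
    rw [← add_assoc, AB, AB]
    dsimp only
    rw [h1, h2]
    constructor <;> ring

lemma rotation_aux (X Y : ℕ → ℝ) (A B : ℝ) (hB : B ≠ 0)
    (hX : ∀ n, X (n+1) = A * X n - B * Y n) (hY : ∀ n, Y (n+1) = B * X n + A * Y n)
    (hpos : ∀ n, 0 < X n * X (n+1)) : False := by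
  have hXne : ∀ n, X n ≠ 0 := fun n h => by
    have := hpos n
    rw [h, zero_mul] at this
    exact lt_irrefl _ this
  set c : ℝ := 2 * B^2 / (1 + (A^2 + B^2)) with hc
  have hcpos : 0 < c := by positivity
  -- s n = B * Y n / X n
  have hstep : ∀ n, B * Y n / X n + c ≤ B * Y (n+1) / X (n+1) := by
    intro n
    have hp := hpos n
    have e : B * Y (n+1) / X (n+1) - B * Y n / X n =
        B^2 * (X n ^2 + Y n ^2) / (X n * X (n+1)) := by
      rw [div_sub_div _ _ (hXne _) (hXne _), mul_comm (X (n+1)) (X n), hX, hY]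
      congr 1
      ring
    have hle : X n * X (n+1) ≤ (1 + (A^2+B^2)) * (X n ^2 + Y n ^2) / 2 := by
      have h1 : X (n+1)^2 + Y (n+1)^2 = (A^2+B^2) * (X n^2 + Y n^2) := by
        rw [hX, hY]; ring
      nlinarith [sq_nonneg (X n - X (n+1)), sq_nonneg (Y n), sq_nonneg (Y (n+1))]
    have hR : 0 < X n ^2 + Y n ^2 := by
      have := hXne n
      positivity
    have : c ≤ B^2 * (X n ^2 + Y n ^2) / (X n * X (n+1)) := by
      rw [hc, div_le_div_iff₀ (by positivity) hp]
      nlinarith [mul_le_mul_of_nonneg_left hle (by positivity : (0:ℝ) ≤ 2 * B^2)]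
    linarith
  have hlin : ∀ n : ℕ, B * Y 0 / X 0 + n * c ≤ B * Y n / X n := by
    intro n
    induction n with
    | zero => simp
    | succ n ih =>
      have := hstep n
      push_cast
      linarith
  have hbound : ∀ n, B * Y n / X n < A := by
    intro n
    have hp := hpos n
    have h2 : 0 < X n ^ 2 := by
      have := hXne n
      positivity
    have h3 : (A - B * Y n / X n) * X n ^ 2 = X n * X (n+1) := by
      rw [hX]
      have := hXne n
      field_simp
    by_contra hcon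
    push Not at hcon
    have : (A - B * Y n / X n) * X n ^ 2 ≤ 0 :=
      mul_nonpos_of_nonpos_of_nonneg (by linarith) h2.le
    linarith
  obtain ⟨n, hn⟩ := exists_nat_gt ((A - B * Y 0 / X 0) / c)
  rw [div_lt_iff₀ hcpos] at hn
  have h1 := hlin n
  have h2 := hbound n
  linarith

lemma sign_not_periodic (J D : ℕ) (hD : 0 < D)
    (h : ∀ j, J ≤ j → (0 < (AB (j+D)).1 ↔ 0 < (AB j).1)) : False := by
  obtain ⟨D', rfl⟩ : ∃ D', D = D' + 1 := ⟨D - 1, by omega⟩
  set D := D' + 1 with hDdef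
  have hB : (AB D).2 ≠ 0 := by
    have := (AB_mod5 D').2
    intro h0
    rw [hDdef] at h0
    rw [h0] at this
    simp at this
  have hne : ∀ j, (AB j).1 ≠ 0 := by
    intro j h0
    have := (AB_mod4 j).1
    rw [h0] at this
    simp at this
  apply rotation_aux (fun n => ((AB (J + n*D)).1 : ℝ)) (fun n => ((AB (J + n*D)).2 : ℝ))
    ((AB D).1 : ℝ) ((AB D).2 : ℝ) (by exact_mod_cast hB)
  · intro n
    have := (AB_add (J + n*D) D).1
    have e : J + (n+1)*D = J + n*D + D := by ring
    simp only [e]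
    exact_mod_cast this
  · intro n
    have := (AB_add (J + n*D) D).2
    have e : J + (n+1)*D = J + n*D + D := by ring
    simp only [e]
    exact_mod_cast this
  · intro n
    have h1 := h (J + n*D) (Nat.le_add_right _ _)
    have e : J + (n+1)*D = J + n*D + D := by ring
    simp only [e]
    have h2 := hne (J + n*D)
    have h3 := hne (J + n*D + D)
    have : 0 < (AB (J + n*D)).1 * (AB (J + n*D + D)).1 := by
      rcases lt_trichotomy (AB (J + n*D)).1 0 with hlt | heq | hgt
      · have : ¬ 0 < (AB (J + n*D + D)).1 := by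
          rw [h1]; omega
        exact mul_pos_of_neg_of_neg hlt (by omega)
      · exact absurd heq h2
      · exact mul_pos hgt (h1.mpr hgt)
    exact_mod_cast this

/-! ### Finiteness of the kernel modulo `8` -/

lemma finite_mod (S : Set (ℕ → ℤ)) (hS : (Submodule.span ℤ S).FG) (N : ℕ) [NeZero N] :
    ((fun f : ℕ → ℤ => fun n => ((f n : ℤ) : ZMod N)) '' S).Finite := by
  classical
  obtain ⟨t, ht⟩ := hS
  -- every element of `S` is a combination of elements of `t`
  apply Set.Finite.subset (Set.finite_range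
    (fun c : t → ZMod N => fun n : ℕ => ∑ g : t, c g * ((g.1 n : ℤ) : ZMod N)))
  rintro _ ⟨f, hf, rfl⟩
  have hf' : f ∈ Submodule.span ℤ (t : Set (ℕ → ℤ)) := by
    rw [ht]; exact Submodule.subset_span hf
  rw [Submodule.mem_span_finset'] at hf'
  obtain ⟨c, hc⟩ := hf'
  refine ⟨fun g => ((c g : ℤ) : ZMod N), ?_⟩
  funext n
  have := congrFun hc n
  simp only [Finset.sum_apply, Pi.smul_apply, smul_eq_mul] at this
  dsimp only
  rw [← this]
  push_cast
  rfl

/-- The negation of the preceding statement: For every k ≥ 2 and every sequence over a finite alphabet with finite k-kernel (k-automatic), the abelian complexity (number of Parikh vectors of length-n factors) has a k-kernel spanning a finitely generated ℤ-module (is k-regular).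

Counterexample: `k = 6`, and `xx n = 1` iff all base-6 digits of `n` lie in `{0,2,4}` and the number of
nonzero digits of `n` is congruent to `0` or `1` modulo `4`.  Its abelian complexity `rho` satisfies
`2 * rho (6^j) = 2 + 3^j + |A_j| + |B_j|` where `(1+2i)^j = A_j + i B_j`, and the sign of `A_j`
(which is read off from `rho (6^j)` modulo `4`) is not eventually periodic. -/
theorem result :
    ¬ (∀ k : ℕ, 2 ≤ k → ∀ m : ℕ, ∀ x : ℕ → Fin m,
      {f : ℕ → Fin m | ∃ e r : ℕ, r < k ^ e ∧ f = fun n => x (k ^ e * n + r)}.Finite →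
      (Submodule.span ℤ
        {g : ℕ → ℤ | ∃ e r : ℕ, r < k ^ e ∧
          g = fun n =>
            ((Set.ncard {v : Fin m → ℕ | ∃ i : ℕ,
              v = fun c => ((Finset.range (k ^ e * n + r)).filter
                (fun j => x (i + j) = c)).card} : ℕ) : ℤ)}).FG) := by
  intro hall
  have hFG := hall 6 (by norm_num) 2 xx kernel_finite
  have hfin := finite_mod _ hFG 4
  -- the functions `n ↦ rho (6^e n)` modulo 4
  have hmem : ∀ e : ℕ, (fun n : ℕ => ((rho (6^e * n) : ℤ) : ZMod 4)) ∈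
      ((fun f : ℕ → ℤ => fun n => ((f n : ℤ) : ZMod 4)) ''
        {g : ℕ → ℤ | ∃ e r : ℕ, r < 6 ^ e ∧
          g = fun n =>
            ((Set.ncard {v : Fin 2 → ℕ | ∃ i : ℕ,
              v = fun c => ((Finset.range (6 ^ e * n + r)).filter
                (fun j => xx (i + j) = c)).card} : ℕ) : ℤ)}) := by
    intro e
    refine ⟨fun n => rho (6^e * n), ⟨e, 0, by positivity, ?_⟩, rfl⟩
    funext n
    simp [rho]
  obtain ⟨e1, e2, hne, heq⟩ : ∃ e1 e2 : ℕ, e1 < e2 ∧
      (fun n : ℕ => ((rho (6^e1 * n) : ℤ) : ZMod 4)) =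
      (fun n : ℕ => ((rho (6^e2 * n) : ℤ) : ZMod 4)) := by
    have := hfin.to_subtype
    obtain ⟨a, b, hab, h⟩ := Finite.exists_ne_map_eq_of_infinite
      (fun e : ℕ => (⟨_, hmem e⟩ : ↥((fun f : ℕ → ℤ => fun n => ((f n : ℤ) : ZMod 4)) ''
        {g : ℕ → ℤ | ∃ e r : ℕ, r < 6 ^ e ∧
          g = fun n =>
            ((Set.ncard {v : Fin 2 → ℕ | ∃ i : ℕ,
              v = fun c => ((Finset.range (6 ^ e * n + r)).filter
                (fun j => xx (i + j) = c)).card} : ℕ) : ℤ)})))
    have h' := congrArg Subtype.val h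
    rcases lt_or_gt_of_ne hab with hlt | hlt
    · exact ⟨a, b, hlt, h'⟩
    · exact ⟨b, a, hlt, h'.symm⟩
  obtain ⟨d, hd, rfl⟩ : ∃ d, 0 < d ∧ e2 = e1 + d := ⟨e2 - e1, by omega, by omega⟩
  -- one period
  have hper : ∀ j, e1 ≤ j → ((rho (6^(j+d)) : ℤ) : ZMod 4) = ((rho (6^j) : ℤ) : ZMod 4) := by
    intro j hj
    have := congrFun heq (6^(j-e1))
    have e : 6^e1 * 6^(j-e1) = 6^j := by rw [← pow_add]; congr 1; omega
    have e' : 6^(e1+d) * 6^(j-e1) = 6^(j+d) := by rw [← pow_add]; congr 1; omega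
    simp only [e, e'] at this
    exact this.symm
  have hper2 : ∀ j, e1 ≤ j → ((rho (6^(j+2*d)) : ℤ) : ZMod 4) = ((rho (6^j) : ℤ) : ZMod 4) := by
    intro j hj
    rw [two_mul, ← add_assoc, hper (j+d) (by omega), hper j hj]
  have hM : ∀ j, e1 ≤ j → ((MM (j+2*d) : ℤ) - (MM j : ℤ)) % 4 = 0 := by
    intro j hj
    have h1 := hper2 j hj
    rw [rho_pow, rho_pow] at h1
    have h2 : (((MM (j+2*d) : ℤ) + 1 - ((MM j : ℤ) + 1) : ℤ) : ZMod 4) = 0 := by
      push_cast
      push_cast at h1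
      rw [h1]; ring
    rw [ZMod.intCast_zmod_eq_zero_iff_dvd] at h2
    have h3 : (((4 : ℕ) : ℤ)) = 4 := by norm_num
    rw [h3] at h2
    omega
  apply sign_not_periodic e1 (2*d) (by omega)
  intro j hj
  have h1 := hM j hj
  have f1 := MM_formula (j+2*d)
  have f2 := MM_formula j
  have g1 := AB_mod4 (j+2*d)
  have g2 := AB_mod4 j
  push_cast at g1
  -- 3^(j+2d) ≡ 3^j mod 8
  have h9 : ((3:ℤ)^(j+2*d) - 3^j) % 8 = 0 := by
    have e : ((3:ℤ)^(j+2*d) - 3^j) = 3^j * (9^d - 1) := by
      rw [pow_add, pow_mul]; norm_num; ring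
    rw [e]
    have h8 : (8:ℤ) ∣ 9^d - 1 := by
      have := sub_dvd_pow_sub_pow (9:ℤ) 1 d
      simpa using this
    exact Int.emod_eq_zero_of_dvd (Dvd.dvd.mul_left h8 _)
  -- absolute values
  generalize (AB (j+2*d)).1 = A1 at *
  generalize (AB (j+2*d)).2 = B1 at *
  generalize (AB j).1 = A2 at *
  generalize (AB j).2 = B2 at *
  generalize (3:ℤ)^(j+2*d) = T1 at *
  generalize (3:ℤ)^j = T2 at *
  generalize (MM (j+2*d) : ℤ) = M1 at *
  generalize (MM j : ℤ) = M2 at *
  rcases abs_cases A1 with ⟨ha, ha'⟩ | ⟨ha, ha'⟩ <;>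
  rcases abs_cases B1 with ⟨hb, hb'⟩ | ⟨hb, hb'⟩ <;>
  rcases abs_cases A2 with ⟨hc, hc'⟩ | ⟨hc, hc'⟩ <;>
  rcases abs_cases B2 with ⟨he, he'⟩ | ⟨he, he'⟩ <;>
  rw [ha, hb] at f1 <;> rw [hc, he] at f2 <;> omega

end Pool.Agent.S07782
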