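import Pool.Statements.S08819
import Pool.Agent.CW.Final

set_option autoImplicit false
open SimpleGraph
open Pool Pool.MP_563ce7_co

namespace Pool.Agent.S08819

/-- For every q ≥ 8 there is a k such that every finite graph in which each set of at most q vertices contains at most q−2 induced P4s has clique-width at most k, i.e. can be built by a k-label expression. -/
theorem result :
    ∀ q : ℕ, 8 ≤ q → ∃ k : ℕ, ∀ (V : Type) [Fintype V] (G : SimpleGraph V),
      (∀ S : Finset V, S.card ≤ q →
        {A : Finset V | A ⊆ S ∧ A.card = 4 ∧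
            Nonempty (G.induce (A : Set V) ≃g SimpleGraph.pathGraph 4)}.ncard ≤ q - 2) →
      ∃ l : V → Fin k, ∀ P : ∀ W : Type, SimpleGraph W → (W → Fin k) → Prop,
        P PEmpty ⊥ PEmpty.elim →
        (∀ i : Fin k, P Unit ⊥ (fun _ => i)) →
        (∀ (W₁ W₂ : Type) (G₁ : SimpleGraph W₁) (G₂ : SimpleGraph W₂)
            (l₁ : W₁ → Fin k) (l₂ : W₂ → Fin k),
            P W₁ G₁ l₁ → P W₂ G₂ l₂ →
            P (W₁ ⊕ W₂)
              (G₁.map Function.Embedding.inl ⊔ G₂.map Function.Embedding.inr)
              (Sum.elim l₁ l₂)) →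
        (∀ (W W' : Type) (H : SimpleGraph W) (l' : W → Fin k) (e : W ≃ W'),
            P W H l' → P W' (H.map e.toEmbedding) (l' ∘ e.symm)) →
        (∀ (W : Type) (H : SimpleGraph W) (l' : W → Fin k) (i j : Fin k),
            P W H l' → P W H (fun x => if l' x = i then j else l' x)) →
        (∀ (W : Type) (H : SimpleGraph W) (l' : W → Fin k) (i j : Fin k), i ≠ j →
            P W H l' →
            P W (H ⊔ SimpleGraph.fromRel (fun x y => l' x = i ∧ l' y = j)) l') →
        P V G l := by
  intro q hq
  obtain ⟨k, hk⟩ := Pool.Agent.CW.main q hq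
  exact ⟨k, fun V _ G hG => hk V G hG⟩

end Pool.Agent.S08819
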