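import Pool.Statements.S09286
import Pool.Agent.Helper76.Herm4

set_option autoImplicit false
open Pool Pool.MP_697282_co

namespace Pool.Agent.S09286

/-- The negation of the preceding statement: For some finite field of order q^2 there are q^9+1 totally isotropic 3-dim subspaces of F^10 (Hermitian form Σx_i y_i^q), pairwise with π′∩π^⊥=0, such that no totally isotropic 2-dim subspace meets three of them nontrivially. -/
theorem result :
    ¬ (∃ (F : Type) (_ : Field F) (_ : Fintype F) (q : ℕ), Fintype.card F = q ^ 2 ∧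
      ∃ M : Finset (Submodule F (Fin 10 → F)),
        M.card = q ^ 9 + 1 ∧
        (∀ π ∈ M, Module.finrank F π = 3 ∧
          ∀ x ∈ π, ∀ y ∈ π, ∑ i : Fin 10, x i * y i ^ q = 0) ∧
        (∀ π ∈ M, ∀ π' ∈ M, π ≠ π' →
          ∀ v ∈ π', (∀ u ∈ π, ∑ i : Fin 10, u i * v i ^ q = 0) → v = 0) ∧
        (∀ L : Submodule F (Fin 10 → F), Module.finrank F L = 2 →
          (∀ x ∈ L, ∀ y ∈ L, ∑ i : Fin 10, x i * y i ^ q = 0) →
          ∀ a ∈ M, ∀ b ∈ M, ∀ c ∈ M, a ≠ b → a ≠ c → b ≠ c →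
            ¬ (L ⊓ a ≠ ⊥ ∧ L ⊓ b ≠ ⊥ ∧ L ⊓ c ≠ ⊥))) := by
  rintro ⟨F, hf, hfin, q, hF, M, hcard, hπ, hopp, hblt⟩
  exact (show Pool.Agent.Helper76.Herm.Sys F q M from
    { hF := hF
      card := hcard
      dim := fun π h => (hπ π h).1
      iso := fun π h => (hπ π h).2
      opp := hopp
      blt := hblt }).contradiction

end Pool.Agent.S09286
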