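import Pool.Statements.S09457
import Pool.Agent.Helper76.Recol.Five

set_option autoImplicit false
open Pool Pool.MP_71d660_co

namespace Pool.Agent.S09457

open Pool.Agent.Helper76.Recol

section

variable {V : Type} [Fintype V] [DecidableEq V] {G : SimpleGraph V}

theorem reduce_colours (h2 : ∀ a b c d : V, G.Adj a b → G.Adj c d → a ≠ c → a ≠ d → b ≠ c →
      b ≠ d → G.Adj a c ∨ G.Adj a d ∨ G.Adj b c ∨ G.Adj b d)
    (h4 : ∀ a b c d : V, G.Adj a b → G.Adj a c → G.Adj a d → G.Adj b c → G.Adj b d →
        G.Adj c d → False)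
    (hcol : ColOn G Finset.univ 4) {l : ℕ} (hl : 5 ≤ l) (c : V → ℕ)
    (hc : ProperOn G Finset.univ (Finset.range (l + 1)) c) :
    ∃ d, ProperOn G Finset.univ (Finset.range l) d ∧
      Reach G Finset.univ (Finset.range (l + 1)) c d := by
  classical
  let K : Finset ℕ := insert l (Finset.range 4)
  have hK : K.card = 5 := by
    have : l ∉ Finset.range 4 := by
      rw [Finset.mem_range]
      omega
    simp only [K]
    rw [Finset.card_insert_of_notMem this, Finset.card_range]
  have hKsub : K ⊆ Finset.range (l + 1) := by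
    intro x hx
    rcases Finset.mem_insert.mp hx with rfl | hx
    · rw [Finset.mem_range]
      omega
    · rw [Finset.mem_range] at hx ⊢
      omega
  let U : Finset V := Finset.univ.filter fun v => c v ∈ K
  obtain ⟨g, hg⟩ := hcol.mono (Finset.subset_univ U)
  let d : V → ℕ := fun v => if v ∈ U then g v else c v
  have hcU : ProperOn G U K c := by
    refine ⟨?_, ?_⟩
    · intro u hu
      simp only [U, Finset.mem_filter] at hu
      exact hu.2
    · intro u _ v _ huv
      exact hc.2 u (Finset.mem_univ u) v (Finset.mem_univ v) huv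
  have hdU : ProperOn G U K d := by
    refine ⟨?_, ?_⟩
    · intro u hu
      simp only [d, if_pos hu]
      exact Finset.mem_insert_of_mem (hg.1 u hu)
    · intro u hu v hv huv
      simp only [d, if_pos hu, if_pos hv]
      exact hg.2 u hu v hv huv
  have h1 : Reach G U K c d := by
    refine mix_five h2 h4 K hK U c d hcU hdU ?_
    intro v hv
    simp only [d, if_neg hv]
  have h3 : Reach G Finset.univ (Finset.range (l + 1)) c d := by
    refine Reach.lift h1 (Finset.subset_univ _) hKsub hc ?_
    intro w _ hw
    simp only [U, Finset.mem_filter, Finset.mem_univ, true_and] at hw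
    exact hw
  refine ⟨d, ⟨?_, ?_⟩, h3⟩
  · intro u _
    by_cases hu : u ∈ U
    · simp only [d, if_pos hu]
      have := hg.1 u hu
      rw [Finset.mem_range] at this ⊢
      omega
    · simp only [d, if_neg hu]
      have h5 := hc.1 u (Finset.mem_univ u)
      have h6 : c u ≠ l := by
        intro h
        apply hu
        simp only [U, Finset.mem_filter, Finset.mem_univ, true_and]
        rw [h]
        exact Finset.mem_insert_self _ _
      rw [Finset.mem_range] at h5 ⊢
      omega
  · exact (Reach.properOn h3 hc).2

theorem mix_all (h2 : ∀ a b c d : V, G.Adj a b → G.Adj c d → a ≠ c → a ≠ d → b ≠ c →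
      b ≠ d → G.Adj a c ∨ G.Adj a d ∨ G.Adj b c ∨ G.Adj b d)
    (h4 : ∀ a b c d : V, G.Adj a b → G.Adj a c → G.Adj a d → G.Adj b c → G.Adj b d →
        G.Adj c d → False)
    (hcol : ColOn G Finset.univ 4) (l : ℕ) (hl : 5 ≤ l) :
    MixOn G Finset.univ (Finset.range l) := by
  induction l, hl using Nat.le_induction with
  | base => exact mix_five h2 h4 _ (Finset.card_range 5) _
  | succ l hl ih =>
    intro c d hc hd _
    obtain ⟨c', hc', h1⟩ := reduce_colours h2 h4 hcol hl c hc
    obtain ⟨d', hd', h3⟩ := reduce_colours h2 h4 hcol hl d hd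
    have h5 := ih c' d' hc' hd' (fun v hv => absurd (Finset.mem_univ v) hv)
    have h6 : Reach G Finset.univ (Finset.range (l + 1)) c' d' := by
      refine Reach.lift h5 (Finset.Subset.refl _) ?_ (Reach.properOn h1 hc) ?_
      · intro x hx
        rw [Finset.mem_range] at hx ⊢
        omega
      · intro w hw hw'
        exact absurd hw hw'
    exact h1.trans (h6.trans h3.symm)

theorem to_colorings {l : ℕ} (c : G.Coloring (Fin l)) (e : V → ℕ)
    (h : Reach G Finset.univ (Finset.range l) (fun v => (c v : ℕ)) e) :
    ∀ C : G.Coloring (Fin l), (∀ v, (C v : ℕ) = e v) →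
      Relation.ReflTransGen
        (fun c₁ c₂ : G.Coloring (Fin l) => ∃ v : V, ∀ w : V, w ≠ v → c₁ w = c₂ w) c C := by
  induction h with
  | refl =>
    intro C hC
    have : C = c := by
      apply RelHom.ext
      intro v
      exact Fin.ext (hC v)
    rw [this]
  | @tail e e' h1 hs ih =>
    intro C hC
    obtain ⟨he, he', v, _, x, rfl⟩ := hs
    let C' : G.Coloring (Fin l) := SimpleGraph.Coloring.mk
      (fun v => ⟨e v, Finset.mem_range.mp (he.1 v (Finset.mem_univ v))⟩)
      (by
        intro u w huw h
        exact he.2 u (Finset.mem_univ u) w (Finset.mem_univ w) huw (congrArg Fin.val h))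
    refine Relation.ReflTransGen.tail (ih C' (fun _ => rfl)) ⟨v, ?_⟩
    intro w hw
    apply Fin.ext
    rw [hC w, Function.update_of_ne hw]
    rfl

end

/-- Every finite 4-chromatic graph with no induced 2K2, no K4, and a triangle has, for each ℓ ≥ 5, a connected ℓ-colouring reconfiguration graph (any proper ℓ-colouring reaches any other by single-vertex recolourings). -/
theorem result :
    ∀ (V : Type) [Fintype V] (G : SimpleGraph V),
      (∀ a b c d : V, G.Adj a b → G.Adj c d → a ≠ c → a ≠ d → b ≠ c → b ≠ d →
        G.Adj a c ∨ G.Adj a d ∨ G.Adj b c ∨ G.Adj b d) →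
      G.CliqueFree 4 →
      ¬ G.CliqueFree 3 →
      G.chromaticNumber = 4 →
      ∀ ℓ : ℕ, 5 ≤ ℓ →
        ∀ c d : G.Coloring (Fin ℓ),
          Relation.ReflTransGen
            (fun c₁ c₂ : G.Coloring (Fin ℓ) => ∃ v : V, ∀ w : V, w ≠ v → c₁ w = c₂ w)
            c d := by
  classical
  intro V _ G h2 hK4 _ hχ l hl c d
  have h4 : ∀ a b c d : V, G.Adj a b → G.Adj a c → G.Adj a d → G.Adj b c → G.Adj b d →
      G.Adj c d → False := by
    intro a b c d hab hac had hbc hbd hcd
    apply hK4 {a, b, c, d}
    rw [SimpleGraph.isNClique_iff, SimpleGraph.isClique_iff]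
    constructor
    · intro x hx y hy hxy
      simp only [Finset.coe_insert, Finset.coe_singleton, Set.mem_insert_iff,
        Set.mem_singleton_iff] at hx hy
      rcases hx with rfl | rfl | rfl | rfl <;> rcases hy with rfl | rfl | rfl | rfl <;>
        first
        | exact absurd rfl hxy
        | assumption
        | (apply SimpleGraph.Adj.symm; assumption)
    · rw [Finset.card_insert_of_notMem, Finset.card_insert_of_notMem,
        Finset.card_insert_of_notMem, Finset.card_singleton]
      · simp [hcd.ne]
      · simp [hbc.ne, hbd.ne]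
      · simp [hab.ne, hac.ne, had.ne]
  have hcol4 : G.Colorable 4 := by
    have : G.chromaticNumber ≤ (4 : ℕ) := by
      rw [hχ]
      rfl
    exact SimpleGraph.chromaticNumber_le_iff_colorable.mp this
  have hcol : ColOn G Finset.univ 4 := by
    obtain ⟨f⟩ := hcol4
    refine ⟨fun v => (f v : ℕ), ?_, ?_⟩
    · intro u _
      rw [Finset.mem_range]
      exact (f u).2
    · intro u _ v _ huv h
      exact f.valid huv (Fin.ext h)
  have hproper : ∀ e : G.Coloring (Fin l), ProperOn G Finset.univ (Finset.range l)
      (fun v => (e v : ℕ)) := by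
    intro e
    refine ⟨?_, ?_⟩
    · intro u _
      rw [Finset.mem_range]
      exact (e u).2
    · intro u _ v _ huv h
      exact e.valid huv (Fin.ext h)
  have hreach := mix_all h2 h4 hcol l hl _ _ (hproper c) (hproper d)
    (fun v hv => absurd (Finset.mem_univ v) hv)
  exact to_colorings c _ hreach d (fun _ => rfl)

end Pool.Agent.S09457
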