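import Pool.Statements.S09463
import Pool.Agent.BND.Inp

set_option autoImplicit false
open Pool Pool.MP_728309_co

namespace Pool.Agent.S09463

/-- Every 2-connected K5-minor-free graph whose cycles all have at least 4 edges has a bond whose contraction leaves a 2-connected graph: at least two classes, at least two non-loop edges, and no class whose removal disconnects the rest. -/
theorem result :
    ∀ (V : Type) [Fintype V] (G : SimpleGraph V),
      3 ≤ Fintype.card V → G.Connected →
      (∀ v : V, (G.induce {w : V | w ≠ v}).Connected) →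
      G.CliqueFree 3 →
      (¬ ∃ f : Fin 5 → Set V, (∀ i, (G.induce (f i)).Connected) ∧
          (∀ i j, i ≠ j → Disjoint (f i) (f j)) ∧
          (∀ i j, i ≠ j → ∃ u ∈ f i, ∃ v ∈ f j, G.Adj u v)) →
      ∃ H : SimpleGraph V, H ≤ G ∧ H ≠ ⊥ ∧ ¬ (G \ H).Connected ∧
        (∀ K : SimpleGraph V, K ≤ H → K ≠ ⊥ → ¬ (G \ K).Connected → K = H) ∧
        (∃ u v : V, ¬ H.Reachable u v) ∧
        (∃ a b c d : V, G.Adj a b ∧ G.Adj c d ∧
            ¬ H.Reachable a b ∧ ¬ H.Reachable c d ∧
            ¬ (a = c ∧ b = d) ∧ ¬ (a = d ∧ b = c)) ∧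
        (∀ v : V, (G.induce {w : V | ¬ H.Reachable v w}).Connected) := by
  intro V _ G h1 h2 h3 h4 h5
  exact BND.bond_main V G h1 h2 h3 h4 h5

end Pool.Agent.S09463
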