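import Pool.Statements.S09499
import Pool.Agent.Helper7.NonRatPolyR

set_option autoImplicit false
open Pool Pool.MP_73fd2f_co

namespace Pool.Agent.S09499

open Pool.Agent.Helper7.NRP

/-- Sums of circuit vectors. -/
theorem cover {n : ℕ} {W : Submodule ℝ (Fin n → ℝ)} (L : List (Set (Fin n)))
    (hL : ∀ C ∈ L, PosCirc W C) : ∃ w ∈ W, (∀ j, 0 ≤ w j) ∧
      (∀ j, (∃ C ∈ L, j ∈ C) → 0 < w j) ∧ ∀ j, (∀ C ∈ L, j ∉ C) → w j = 0 := by
  induction L with
  | nil => exact ⟨0, W.zero_mem, fun j => le_refl _, fun j ⟨C, hC, _⟩ => absurd hC (by simp),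
      fun j _ => rfl⟩
  | cons D L ih =>
    obtain ⟨w, hw, h1, h2, h3⟩ := ih (fun C hC => hL C (List.mem_cons_of_mem _ hC))
    obtain ⟨s, hs, hp, hz, -⟩ := hL D List.mem_cons_self
    have hs0 : ∀ j, 0 ≤ s j := by
      intro j
      by_cases hj : j ∈ D
      · exact (hp j hj).le
      · exact (hz j hj).ge
    refine ⟨s + w, W.add_mem hs hw, fun j => add_nonneg (hs0 j) (h1 j), ?_, ?_⟩
    · rintro j ⟨C, hC, hj⟩
      rcases List.mem_cons.1 hC with rfl | hC
      · exact add_pos_of_pos_of_nonneg (hp j hj) (h1 j)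
      · exact add_pos_of_nonneg_of_pos (hs0 j) (h2 j ⟨C, hC, hj⟩)
    · intro j hj
      have e1 := hz j (hj D List.mem_cons_self)
      have e2 := h3 j (fun C hC => hj C (List.mem_cons_of_mem _ hC))
      show s j + w j = 0
      rw [e1, e2, add_zero]

theorem exposed {f : ℝ} (hf : f ^ 2 = f + 1) (hf1 : 1 < f) (hf2 : f < 2) (i : Fin 11) :
    ∃ w ∈ slack (pts f), w i = 0 ∧ ∀ j, j ≠ i → 0 < w j := by
  have c1 := circ1 hf hf1 hf2
  have c2 := circ2 hf hf1 hf2
  have c3 := circ3 hf hf1 hf2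
  have c4 := circ4 hf hf1 hf2
  have c5 := circ5 hf hf1 hf2
  have c6 := circ6 hf hf1 hf2
  have c7 := circ7 hf hf1 hf2
  have c8 := circ8 hf hf1 hf2
  have c9 := circ9 hf hf1 hf2
  have c10 := circ10 hf hf1 hf2
  have c11 := circ11 hf hf1 hf2
  have c12 := circ12 hf hf1 hf2
  fin_cases i
  · obtain ⟨w, hw, -, h2, h3⟩ := cover (W := slack (pts f)) [{1, 4, 9}, {2, 3, 10}, {6, 7, 8}, {1, 2, 5, 6}] (by
      intro C hC
      simp only [List.mem_cons, List.not_mem_nil, or_false] at hC
      rcases hC with rfl | rfl | rfl | rfl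
      · exact c1
      · exact c2
      · exact c3
      · exact c9
      )
    refine ⟨w, hw, h3 _ (by simp), fun j hj => h2 j ?_⟩
    fin_cases j <;> first | exact absurd rfl hj | simp
  · obtain ⟨w, hw, -, h2, h3⟩ := cover (W := slack (pts f)) [{2, 3, 10}, {6, 7, 8}, {0, 3, 4, 7}, {0, 3, 5, 10}, {0, 4, 6, 9}] (by
      intro C hC
      simp only [List.mem_cons, List.not_mem_nil, or_false] at hC
      rcases hC with rfl | rfl | rfl | rfl | rfl
      · exact c2
      · exact c3
      · exact c4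
      · exact c5
      · exact c6
      )
    refine ⟨w, hw, h3 _ (by simp), fun j hj => h2 j ?_⟩
    fin_cases j <;> first | exact absurd rfl hj | simp
  · obtain ⟨w, hw, -, h2, h3⟩ := cover (W := slack (pts f)) [{1, 4, 9}, {6, 7, 8}, {0, 3, 5, 10}] (by
      intro C hC
      simp only [List.mem_cons, List.not_mem_nil, or_false] at hC
      rcases hC with rfl | rfl | rfl
      · exact c1
      · exact c3
      · exact c5
      )
    refine ⟨w, hw, h3 _ (by simp), fun j hj => h2 j ?_⟩
    fin_cases j <;> first | exact absurd rfl hj | simp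
  · obtain ⟨w, hw, -, h2, h3⟩ := cover (W := slack (pts f)) [{1, 4, 9}, {6, 7, 8}, {0, 5, 6, 8}, {2, 4, 6, 10}] (by
      intro C hC
      simp only [List.mem_cons, List.not_mem_nil, or_false] at hC
      rcases hC with rfl | rfl | rfl | rfl
      · exact c1
      · exact c3
      · exact c7
      · exact c12
      )
    refine ⟨w, hw, h3 _ (by simp), fun j hj => h2 j ?_⟩
    fin_cases j <;> first | exact absurd rfl hj | simp
  · obtain ⟨w, hw, -, h2, h3⟩ := cover (W := slack (pts f)) [{2, 3, 10}, {6, 7, 8}, {0, 5, 6, 8}, {1, 3, 5, 9}] (by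
      intro C hC
      simp only [List.mem_cons, List.not_mem_nil, or_false] at hC
      rcases hC with rfl | rfl | rfl | rfl
      · exact c2
      · exact c3
      · exact c7
      · exact c10
      )
    refine ⟨w, hw, h3 _ (by simp), fun j hj => h2 j ?_⟩
    fin_cases j <;> first | exact absurd rfl hj | simp
  · obtain ⟨w, hw, -, h2, h3⟩ := cover (W := slack (pts f)) [{1, 4, 9}, {2, 3, 10}, {6, 7, 8}, {0, 3, 4, 7}] (by
      intro C hC
      simp only [List.mem_cons, List.not_mem_nil, or_false] at hC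
      rcases hC with rfl | rfl | rfl | rfl
      · exact c1
      · exact c2
      · exact c3
      · exact c4
      )
    refine ⟨w, hw, h3 _ (by simp), fun j hj => h2 j ?_⟩
    fin_cases j <;> first | exact absurd rfl hj | simp
  · obtain ⟨w, hw, -, h2, h3⟩ := cover (W := slack (pts f)) [{1, 4, 9}, {2, 3, 10}, {0, 3, 5, 10}, {1, 3, 7, 8}] (by
      intro C hC
      simp only [List.mem_cons, List.not_mem_nil, or_false] at hC
      rcases hC with rfl | rfl | rfl | rfl
      · exact c1
      · exact c2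
      · exact c5
      · exact c11
      )
    refine ⟨w, hw, h3 _ (by simp), fun j hj => h2 j ?_⟩
    fin_cases j <;> first | exact absurd rfl hj | simp
  · obtain ⟨w, hw, -, h2, h3⟩ := cover (W := slack (pts f)) [{1, 4, 9}, {2, 3, 10}, {0, 5, 6, 8}] (by
      intro C hC
      simp only [List.mem_cons, List.not_mem_nil, or_false] at hC
      rcases hC with rfl | rfl | rfl
      · exact c1
      · exact c2
      · exact c7
      )
    refine ⟨w, hw, h3 _ (by simp), fun j hj => h2 j ?_⟩
    fin_cases j <;> first | exact absurd rfl hj | simp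
  · obtain ⟨w, hw, -, h2, h3⟩ := cover (W := slack (pts f)) [{1, 4, 9}, {2, 3, 10}, {0, 3, 4, 7}, {1, 2, 5, 6}] (by
      intro C hC
      simp only [List.mem_cons, List.not_mem_nil, or_false] at hC
      rcases hC with rfl | rfl | rfl | rfl
      · exact c1
      · exact c2
      · exact c4
      · exact c9
      )
    refine ⟨w, hw, h3 _ (by simp), fun j hj => h2 j ?_⟩
    fin_cases j <;> first | exact absurd rfl hj | simp
  · obtain ⟨w, hw, -, h2, h3⟩ := cover (W := slack (pts f)) [{2, 3, 10}, {6, 7, 8}, {0, 3, 4, 7}, {1, 2, 5, 6}] (by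
      intro C hC
      simp only [List.mem_cons, List.not_mem_nil, or_false] at hC
      rcases hC with rfl | rfl | rfl | rfl
      · exact c2
      · exact c3
      · exact c4
      · exact c9
      )
    refine ⟨w, hw, h3 _ (by simp), fun j hj => h2 j ?_⟩
    fin_cases j <;> first | exact absurd rfl hj | simp
  · obtain ⟨w, hw, -, h2, h3⟩ := cover (W := slack (pts f)) [{1, 4, 9}, {6, 7, 8}, {0, 5, 6, 8}, {1, 2, 4, 7}, {1, 3, 5, 9}] (by
      intro C hC
      simp only [List.mem_cons, List.not_mem_nil, or_false] at hC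
      rcases hC with rfl | rfl | rfl | rfl | rfl
      · exact c1
      · exact c3
      · exact c7
      · exact c8
      · exact c10
      )
    refine ⟨w, hw, h3 _ (by simp), fun j hj => h2 j ?_⟩
    fin_cases j <;> first | exact absurd rfl hj | simp

/-- There is a convex polytope with fewer than 12 vertices, given as points in convex position in some R^d, such that no family of rational points in any R^e has exactly the same vertex sets of faces. -/
theorem result :
    ∃ d n : ℕ, n < 12 ∧ ∃ p : Fin n → (Fin d → ℝ),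
      Function.Injective p ∧
      (∀ i : Fin n, p i ∉ convexHull ℝ (p '' {j | j ≠ i})) ∧
      ∀ e : ℕ, ∀ q : Fin n → (Fin e → ℚ),
        ¬ ∀ S : Set (Fin n),
          ((∃ a : Fin d → ℝ, ∃ c : ℝ, ∀ i : Fin n,
              (∑ k, a k * p i k) ≤ c ∧ (i ∈ S ↔ (∑ k, a k * p i k) = c)) ↔
           (∃ a : Fin e → ℝ, ∃ c : ℝ, ∀ i : Fin n,
              (∑ k, a k * ((q i k : ℚ) : ℝ)) ≤ c ∧
                (i ∈ S ↔ (∑ k, a k * ((q i k : ℚ) : ℝ)) = c))) := by
  obtain ⟨f, hf, hf1, hf2⟩ : ∃ f : ℝ, f ^ 2 = f + 1 ∧ 1 < f ∧ f < 2 :=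
    ⟨Real.goldenRatio, Real.goldenRatio_sq, Real.one_lt_goldenRatio, Real.goldenRatio_lt_two⟩
  have hc := convex_position (pts f) (exposed hf hf1 hf2)
  refine ⟨6, 11, by norm_num, pts f, hc.1, hc.2, ?_⟩
  intro e q hS
  have hF : ∀ S, IsFace (slack (pts f)) S ↔
      IsFace (slack (fun i k => ((q i k : ℚ) : ℝ))) S := by
    intro S
    rw [isFace_slack_iff, isFace_slack_iff]
    exact hS S
  exact no_rational q
    ((circ1 hf hf1 hf2).transfer ⟨1, by simp⟩ hF)
    ((circ2 hf hf1 hf2).transfer ⟨2, by simp⟩ hF)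
    ((circ3 hf hf1 hf2).transfer ⟨6, by simp⟩ hF)
    ((circ4 hf hf1 hf2).transfer ⟨0, by simp⟩ hF)
    ((circ5 hf hf1 hf2).transfer ⟨0, by simp⟩ hF)
    ((circ6 hf hf1 hf2).transfer ⟨0, by simp⟩ hF)
    ((circ7 hf hf1 hf2).transfer ⟨0, by simp⟩ hF)
    ((circ8 hf hf1 hf2).transfer ⟨1, by simp⟩ hF)
    ((circ9 hf hf1 hf2).transfer ⟨1, by simp⟩ hF)
    ((circ10 hf hf1 hf2).transfer ⟨1, by simp⟩ hF)
    ((circ11 hf hf1 hf2).transfer ⟨1, by simp⟩ hF)
    ((circ12 hf hf1 hf2).transfer ⟨2, by simp⟩ hF)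
    ((circ13 hf hf1 hf2).transfer ⟨0, by simp⟩ hF)

end Pool.Agent.S09499
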