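import Pool.Statements.S09529
import Pool.Agent.WS.Sphere

set_option autoImplicit false
open Classical
open Pool Pool.MP_74f948_co

namespace Pool.Agent.S09529

/-- For 2 ≤ k ≤ n−2, the geometric realization of the flag complex of pairwise weakly separated k-subsets of {0..n−1}, with cyclic intervals removed, is homotopy equivalent to the (n−4)-sphere. -/
theorem result :
    ∀ k n : ℕ, 2 ≤ k → k + 2 ≤ n →
      ∀ W : Finset (Finset ℕ),
        W = (Finset.range n).powerset.filter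
              (fun S => S.card = k ∧
                ¬ ∃ i, i < n ∧ S = (Finset.range k).image (fun j => (i + j) % n)) →
        Nonempty (ContinuousMap.HomotopyEquiv
          {x : (↥W → ℝ) //
            (∀ v, 0 ≤ x v) ∧ (∑ v, x v) = 1 ∧
            ∀ v w : ↥W, x v ≠ 0 → x w ≠ 0 →
              ¬ ∃ a b c d : ℕ, a < b ∧ b < c ∧ c < d ∧
                ((a ∈ v.1 \ w.1 ∧ b ∈ w.1 \ v.1 ∧ c ∈ v.1 \ w.1 ∧ d ∈ w.1 \ v.1) ∨
                 (a ∈ w.1 \ v.1 ∧ b ∈ v.1 \ w.1 ∧ c ∈ w.1 \ v.1 ∧ d ∈ v.1 \ w.1))}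
          (Metric.sphere (0 : EuclideanSpace ℝ (Fin (n - 3))) 1)) := by
  intro k n h2 hn W hW
  subst hW
  obtain ⟨e1⟩ := Pool.Agent.WS.real_statement Pool.Agent.WS.R (Pool.Agent.WS.W k n)
  obtain ⟨e2⟩ := Pool.Agent.WS.level_two (n := n) k h2 hn
  obtain ⟨e3⟩ := Pool.Agent.WS.W2_sphere (n := n) (by omega)
  exact ⟨(e1.toHomotopyEquiv.trans e2).trans e3⟩

end Pool.Agent.S09529
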