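import Pool.Statements.S09590
import Pool.Agent.Helper18.TreeSpeed.Count

set_option autoImplicit false
open Pool Pool.MP_7797a8_co

namespace Pool.Agent.S09590

/-- The negation of the preceding statement: For every finite tree T there is C such that, for all n, the number of bipartite graphs on n labelled vertices with no induced copy of T or of T's bipartite complement is at most (n+1)^(Cn). -/
theorem result :
    ¬ (∀ (k : ℕ) (T : SimpleGraph (Fin k)), T.IsTree →
      ∃ C : ℕ, ∀ n : ℕ,
        Set.ncard {G : SimpleGraph (Fin n) |
            G.Colorable 2 ∧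
            IsEmpty (SimpleGraph.Embedding T G) ∧
            IsEmpty (SimpleGraph.Embedding
              (SimpleGraph.fromRel (fun u v : Fin k => Odd (T.dist u v) ∧ ¬ T.Adj u v)) G)}
          ≤ (n + 1) ^ (C * n)) := by
  intro h
  obtain ⟨C, hC⟩ := h 32 Pool.Agent.Helper18.TreeSpeed.T Pool.Agent.Helper18.TreeSpeed.T_isTree
  obtain ⟨n, hn⟩ := Pool.Agent.Helper18.TreeSpeed.main C
  exact absurd (hC n) (not_le.2 hn)

end Pool.Agent.S09590
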