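import Pool.Statements.S11147
import Pool.Agent.BLN.Pth.Main
import Pool.Agent.BLN.UUAsm
import Pool.Agent.BLN.OAll

set_option autoImplicit false
open Pool Pool.MP_be493c_co

namespace Pool.Agent.S11147

/-- Every finite connected cubic graph with a perfect matching that is not isomorphic to the Petersen graph has a 2-colouring with equal colour classes in which every monochromatic connected component has at most 2 vertices. -/
theorem result :
    ∀ (V : Type) [Fintype V] [DecidableEq V] (G : SimpleGraph V) [DecidableRel G.Adj],
      G.Connected → G.IsRegularOfDegree 3 → (∃ M : G.Subgraph, M.IsPerfectMatching) →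
      IsEmpty (G ≃g SimpleGraph.fromRel
        (fun s t : {s : Finset (Fin 5) // s.card = 2} => Disjoint s.1 t.1)) →
      ∃ c : V → Bool,
        (Finset.univ.filter (fun v => c v = true)).card
          = (Finset.univ.filter (fun v => c v = false)).card ∧
        ∀ v : V, {w : V | (G ⊓ SimpleGraph.fromRel (fun a b : V => c a = c b)).Reachable v w}.ncard ≤ 2 := by
  exact BLN.s11147_of_path (BLN.uuAll_of_live fun _ _ _ _ _ hcls hB => BLN.liveAll hcls hB)
    (BLN.triAll_of_live fun _ _ _ _ _ hcls hB => BLN.liveAll hcls hB)

end Pool.Agent.S11147
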