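import Pool.Statements.S11699
import Pool.Agent.Helper43.Halv.Main
import Pool.Agent.Helper43.Halv.R11x4
import Pool.Agent.Helper43.Halv.R11x5
import Pool.Agent.Helper43.Halv.R19x8
import Pool.Agent.Helper43.Halv.R19x9
import Pool.Agent.Helper43.Halv.R35x16
import Pool.Agent.Helper43.Halv.R35x17

set_option autoImplicit false
open Pool Pool.MP_d5da3b_co

namespace Pool.Agent.S11699

/-- If 3<k<v and C(v−i,k−i) is even for i=0,1,2,3, the k-subsets of a v-set split into two parts, each containing every 3-subset in exactly C(v−3,k−3)/2 blocks: a halving into two 3-designs. -/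
theorem result :
    ∀ v k : ℕ, 3 < k → k < v →
      (∀ i ∈ Finset.range 4, Even ((v - i).choose (k - i))) →
      ∃ B : Finset (Finset (Fin v)),
        B ⊆ Finset.powersetCard k (Finset.univ : Finset (Fin v)) ∧
        ∀ T : Finset (Fin v), T.card = 3 →
          2 * (B.filter (fun S => T ⊆ S)).card = (v - 3).choose (k - 3) := by
  exact Pool.Agent.Helper43.Halving.halving_main Pool.Agent.Helper43.Halving.H11_4
    Pool.Agent.Helper43.Halving.H11_5 Pool.Agent.Helper43.Halving.H19_8
    Pool.Agent.Helper43.Halving.H19_9 Pool.Agent.Helper43.Halving.H35_16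
    Pool.Agent.Helper43.Halving.H35_17

end Pool.Agent.S11699
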