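import Pool.Statements.S11747
import Pool.Agent.Hyp6.L3End

set_option autoImplicit false
open Pool Pool.MP_d86b7f_co

namespace Pool.Agent.S11747

/-- For every n, every family of exactly n distinct 5-element subsets of an n-element vertex set has a hitting set T, meeting every member, with ∣T∣ ≤ 4n/11. -/
theorem result :
    ∀ (n : ℕ) (E : Finset (Finset (Fin n))),
      (∀ e ∈ E, e.card = 5) → E.card = n →
      ∃ T : Finset (Fin n), (∀ e ∈ E, (e ∩ T).Nonempty) ∧ 11 * T.card ≤ 4 * n :=
  Pool.Agent.Hyp6.S11747_fin Pool.Agent.Hyp6.dual13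

end Pool.Agent.S11747
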