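import Pool.Statements.S12323

set_option autoImplicit false
open Pool Pool.MP_f03f2f_co

namespace Pool.Agent.S12323

open Finset

section general

variable {α : Type*} [DecidableEq α]

/-- total weight inside `V` -/
def T (w : Sym2 α → ℕ) (V : Finset α) : ℕ := ∑ e ∈ V.sym2.filter (fun e => ¬ e.IsDiag), w e

lemma sym2_filter_insert (V : Finset α) (v : α) (hv : v ∉ V) :
    (insert v V).sym2.filter (fun e => ¬ e.IsDiag) =
      (V.image (fun x => s(v,x))) ∪ V.sym2.filter (fun e => ¬ e.IsDiag) := by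
  ext e
  induction e using Sym2.ind with
  | _ a b =>
    simp only [mem_filter, mk_mem_sym2_iff, mem_insert, Sym2.mk_isDiag_iff, mem_union, mem_image,
      Sym2.eq_iff]
    constructor
    · rintro ⟨⟨ha | ha, hb | hb⟩, hab⟩
      · subst ha; subst hb; exact absurd rfl hab
      · left; exact ⟨b, hb, Or.inl ⟨ha.symm, rfl⟩⟩
      · left; exact ⟨a, ha, Or.inr ⟨hb.symm, rfl⟩⟩
      · right; exact ⟨⟨ha, hb⟩, hab⟩
    · rintro (⟨x, hx, ⟨rfl, rfl⟩ | ⟨rfl, rfl⟩⟩ | ⟨⟨ha, hb⟩, hab⟩)
      · exact ⟨⟨Or.inl rfl, Or.inr hx⟩, fun h => hv (h ▸ hx)⟩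
      · exact ⟨⟨Or.inr hx, Or.inl rfl⟩, fun h => hv (h ▸ hx)⟩
      · exact ⟨⟨Or.inr ha, Or.inr hb⟩, hab⟩

lemma T_insert (w : Sym2 α → ℕ) (V : Finset α) (v : α) (hv : v ∉ V) :
    T w (insert v V) = T w V + ∑ x ∈ V, w s(v,x) := by
  unfold T
  rw [sym2_filter_insert V v hv, sum_union, sum_image, add_comm]
  · intro x _ y _ h
    rw [Sym2.congr_right] at h
    exact h
  · rw [disjoint_left]
    intro e he he'
    simp only [mem_image, mem_filter] at he he'
    obtain ⟨x, hx, rfl⟩ := he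
    have := he'.1
    rw [mk_mem_sym2_iff] at this
    exact hv this.1

lemma T_empty (w : Sym2 α → ℕ) : T w ∅ = 0 := by simp [T]

lemma T_mono (w : Sym2 α → ℕ) {X Y : Finset α} (h : X ⊆ Y) : T w X ≤ T w Y := by
  unfold T
  apply sum_le_sum_of_subset
  apply filter_subset_filter
  exact sym2_mono h

lemma deg_le_T (w : Sym2 α → ℕ) (X : Finset α) (x : α) (hx : x ∈ X) :
    ∑ y ∈ X.erase x, w s(x,y) ≤ T w X := by
  have h := T_insert w (X.erase x) x (notMem_erase x X)
  rw [insert_erase hx] at h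
  omega

/-- Turan number -/
def tt (r s : ℕ) : ℕ := ∑ i ∈ range s, (i - i / r)

/-- the greedy lower bound -/
def GG (a r s : ℕ) : ℕ := ∑ i ∈ range s, (i * a + i - (i-1)/r)

lemma GG_eq (a r s : ℕ) : GG a r (s+1) = a * (s+1).choose 2 + tt r (s+1) + s / r := by
  induction s with
  | zero => simp [GG, tt]
  | succ s ih =>
    have h1 : GG a r (s+1+1) = GG a r (s+1) + ((s+1) * a + (s+1) - (s+1-1)/r) := by
      unfold GG; rw [sum_range_succ]
    have h2 : tt r (s+1+1) = tt r (s+1) + ((s+1) - (s+1)/r) := by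
      unfold tt; rw [sum_range_succ]
    have h3 : (s+1+1).choose 2 = (s+1).choose 2 + (s+1) := by
      rw [Nat.choose_succ_succ' (s+1) 1, Nat.choose_one_right]; ring
    rw [h1, h2, h3, ih]
    have h4 : (s+1)/r ≤ s+1 := Nat.div_le_self _ _
    have h5 : s / r ≤ (s+1)/r := Nat.div_le_div_right (by omega)
    have h6 : s+1-1 = s := rfl
    rw [h6, mul_add, mul_comm a (s+1)]
    omega

lemma step_arith (a r i x : ℕ) (hr : 1 ≤ r) (hi : 1 ≤ i) (h : i * (a * r + (r - 1)) < r * x) :
    i * a + i - (i-1)/r ≤ x := by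
  obtain ⟨i, rfl⟩ : ∃ j, i = j + 1 := ⟨i-1, by omega⟩
  obtain ⟨r, rfl⟩ : ∃ j, r = j + 1 := ⟨r-1, by omega⟩
  simp only [Nat.add_sub_cancel] at *
  by_contra hcon
  push Not at hcon
  have h1 : x + 1 + i/(r+1) ≤ (i+1)*a + (i+1) := by omega
  have h2 := Nat.div_add_mod i (r+1)
  have h3 : i % (r+1) < r+1 := Nat.mod_lt i (Nat.succ_pos r)
  have h4 : (r+1) * (x + 1 + i/(r+1)) ≤ (r+1) * ((i+1)*a + (i+1)) := Nat.mul_le_mul_left _ h1
  have h5 : (i+1) * (a * (r+1) + r) + (i + 1) = (r+1) * ((i+1)*a + (i+1)) := by ring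
  have h6 : (r+1) * (x + 1 + i/(r+1)) = (r+1) * x + (r+1) + (r+1) * (i/(r+1)) := by ring
  omega

lemma greedy (w : Sym2 α → ℕ) (a r s q : ℕ) (hr : 1 ≤ r) (V : Finset α)
    (hV : s ≤ V.card) (hq : ∀ S : Finset α, S.card = s → T w S ≤ q)
    (hdeg : ∀ x ∈ V, (a * r + (r-1)) * (V.card - 1) + r * q < r * ∑ y ∈ V.erase x, w s(x,y)) :
    ∀ i, i < s → ∃ X ⊆ V, X.card = i + 1 ∧ GG a r (i+1) ≤ T w X := by
  intro i
  induction i with
  | zero =>
    intro hs
    have : 0 < V.card := by omega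
    obtain ⟨x, hx⟩ := card_pos.mp this
    refine ⟨{x}, by simpa using hx, by simp, ?_⟩
    simp [GG]
  | succ i ih =>
    intro hs
    obtain ⟨X, hXV, hXc, hXT⟩ := ih (by omega)
    have hTX : T w X ≤ q := by
      obtain ⟨S, hXS, hSV, hSc⟩ := exists_subsuperset_card_eq hXV (by omega : X.card ≤ s) hV
      exact (T_mono w hXS).trans (hq S hSc)
    have hcard : (V \ X).card = V.card - (i+1) := by
      rw [card_sdiff_of_subset hXV, hXc]
    have key : ∀ x ∈ X, (a * r + (r-1)) * (V \ X).card < r * ∑ y ∈ V \ X, w s(x,y) := by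
      intro x hx
      have h1 := hdeg x (hXV hx)
      have h2 := deg_le_T w X x hx
      have h3 : ∑ y ∈ V.erase x, w s(x,y) = ∑ y ∈ X.erase x, w s(x,y) + ∑ y ∈ V \ X, w s(x,y) := by
        rw [← sum_union]
        · congr 1
          ext y
          simp only [mem_erase, mem_union, mem_sdiff]
          constructor
          · rintro ⟨h1, h2⟩
            by_cases h : y ∈ X
            · exact Or.inl ⟨h1, h⟩
            · exact Or.inr ⟨h2, h⟩
          · rintro (⟨h1, h2⟩ | ⟨h1, h2⟩)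
            · exact ⟨h1, hXV h2⟩
            · exact ⟨fun h => h2 (h ▸ hx), h1⟩
        · rw [disjoint_left]
          intro y hy hy'
          exact (mem_sdiff.mp hy').2 (mem_of_mem_erase hy)
      rw [h3, mul_add] at h1
      have h4 : r * ∑ y ∈ X.erase x, w s(x,y) ≤ r * q := Nat.mul_le_mul_left _ (h2.trans hTX)
      have h5 : (a * r + (r-1)) * (V \ X).card ≤ (a * r + (r-1)) * (V.card - 1) := by
        apply Nat.mul_le_mul_left
        rw [hcard]; omega
      omega
    have hsum : ∑ y ∈ V \ X, (i+1) * (a * r + (r-1)) < ∑ y ∈ V \ X, r * ∑ x ∈ X, w s(y,x) := by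
      have e1 : ∑ y ∈ V \ X, r * ∑ x ∈ X, w s(y,x) = ∑ x ∈ X, r * ∑ y ∈ V \ X, w s(x,y) := by
        simp only [mul_sum]
        rw [sum_comm]
        apply sum_congr rfl; intro x _
        apply sum_congr rfl; intro y _
        rw [Sym2.eq_swap]
      rw [e1]
      have e2 : ∑ y ∈ V \ X, (i+1) * (a * r + (r-1)) = ∑ x ∈ X, (a * r + (r-1)) * (V \ X).card := by
        rw [sum_const, sum_const, hXc, smul_eq_mul, smul_eq_mul]; ring
      rw [e2]
      apply sum_lt_sum_of_nonempty _ key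
      rw [← card_pos]; omega
    obtain ⟨y, hy, hlt⟩ := exists_lt_of_sum_lt hsum
    have hyX : y ∉ X := (mem_sdiff.mp hy).2
    refine ⟨insert y X, ?_, ?_, ?_⟩
    · exact insert_subset (mem_sdiff.mp hy).1 hXV
    · rw [card_insert_of_notMem hyX, hXc]
    · rw [T_insert w X y hyX]
      have := step_arith a r (i+1) _ hr (by omega) hlt
      unfold GG at hXT ⊢
      rw [sum_range_succ]
      omega

lemma weight_bound (w : Sym2 α → ℕ) (a r s q : ℕ) (hr : 1 ≤ r) (hs : 1 ≤ s)
    (hq : ∀ S : Finset α, S.card = s → T w S ≤ q)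
    (hq' : q + 1 ≤ a * s.choose 2 + tt r s + (s-1)/r) :
    ∀ n : ℕ, s ≤ n → ∀ V : Finset α, V.card = n →
      r * T w V ≤ (a * r + (r-1)) * n.choose 2 + r * q * n := by
  intro n hn
  induction n, hn using Nat.le_induction with
  | base =>
    intro V hV
    have := hq V hV
    calc r * T w V ≤ r * q := Nat.mul_le_mul_left _ this
      _ ≤ r * q * s := Nat.le_mul_of_pos_right _ hs
      _ ≤ _ := Nat.le_add_left _ _
  | succ n hn ih =>
    intro V hV
    by_cases hdeg : ∀ x ∈ V, (a * r + (r-1)) * (V.card - 1) + r * q < r * ∑ y ∈ V.erase x, w s(x,y)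
    · exfalso
      obtain ⟨X, hX, hXc, hXT⟩ := greedy w a r s q hr V (by omega) hq hdeg (s-1) (by omega)
      obtain ⟨s, rfl⟩ : ∃ j, s = j + 1 := ⟨s-1, by omega⟩
      simp only [Nat.add_sub_cancel] at *
      rw [GG_eq] at hXT
      have := hq X hXc
      omega
    · push Not at hdeg
      obtain ⟨x, hx, hle⟩ := hdeg
      have h1 := ih (V.erase x) (by rw [card_erase_of_mem hx]; omega)
      have h2 := T_insert w (V.erase x) x (notMem_erase x V)
      rw [insert_erase hx] at h2
      rw [h2, mul_add]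
      have h3 : (n+1).choose 2 = n.choose 2 + n := by
        rw [Nat.choose_succ_succ' n 1, Nat.choose_one_right]; ring
      rw [h3]
      have h4 : V.card - 1 = n := by omega
      rw [h4] at hle
      have h5 : (a * r + (r-1)) * (n.choose 2 + n) + r * q * (n+1) =
        ((a * r + (r-1)) * n.choose 2 + r * q * n) + ((a * r + (r-1)) * n + r * q) := by ring
      rw [h5]
      exact Nat.add_le_add h1 hle

/-- crossing indicator of a colouring -/
def cr (f : α → ℕ) : Sym2 α → ℕ := Sym2.lift ⟨fun x y => if f x = f y then 0 else 1, by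
  intro x y
  simp only [eq_comm]⟩

omit [DecidableEq α] in
lemma cr_mk (f : α → ℕ) (x y : α) : cr f s(x,y) = if f x = f y then 0 else 1 := rfl

lemma cr_bound (f : α → ℕ) (r : ℕ) (hf : ∀ x, f x < r) :
    ∀ m : ℕ, ∀ S : Finset α, S.card = m → T (cr f) S ≤ tt r m := by
  intro m
  induction m with
  | zero =>
    intro S hS
    rw [card_eq_zero] at hS
    subst hS
    simp [T_empty]
  | succ m ih =>
    intro S hS
    have hpig : ∃ y ∈ range r, m / r < (S.filter (fun x => f x = y)).card := by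
      apply exists_lt_card_fiber_of_mul_lt_card_of_maps_to
      · intro x _; simpa using hf x
      · rw [card_range, hS]
        have := Nat.mul_div_le m r
        omega
    obtain ⟨y, _, hy⟩ := hpig
    have hpos : 0 < (S.filter (fun x => f x = y)).card := Nat.lt_of_le_of_lt (Nat.zero_le _) hy
    obtain ⟨v, hv⟩ := card_pos.mp hpos
    rw [mem_filter] at hv
    have h2 := T_insert (cr f) (S.erase v) v (notMem_erase v S)
    rw [insert_erase hv.1] at h2
    rw [h2]
    have hcard : (S.erase v).card = m := by rw [card_erase_of_mem hv.1]; omega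
    have h3 := ih (S.erase v) hcard
    have h4 : ∑ x ∈ S.erase v, cr f s(v,x) = ((S.erase v).filter (fun x => ¬ f x = f v)).card := by
      rw [card_filter]
      apply sum_congr rfl
      intro x _
      rw [cr_mk]
      by_cases h : f v = f x
      · simp [h]
      · have h' : ¬ f x = f v := fun h' => h (Eq.symm h')
        simp [h, h']
    have h5 := card_filter_add_card_filter_not (s := S.erase v) (fun x => f x = f v)
    have h6 : ((S.erase v).filter (fun x => f x = f v)).card + 1 = (S.filter (fun x => f x = y)).card := by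
      rw [filter_erase, hv.2, card_erase_of_mem (by rw [mem_filter]; exact hv)]
      omega
    have h7 : m / r ≤ m := Nat.div_le_self _ _
    have h8 : tt r (m+1) = tt r m + (m - m / r) := by unfold tt; rw [sum_range_succ]
    rw [h8, h4]
    omega

end general

lemma count_mod (r i : ℕ) (hr : 1 ≤ r) : ((range i).filter (fun j => j % r = i % r)).card = i / r := by
  have h := Nat.count_modEq_card i (show 0 < r by omega) i
  rw [Nat.count_eq_card_filter_range] at h
  simp only [lt_self_iff_false, if_false, add_zero] at h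
  exact h

lemma tt_eq (r s : ℕ) (hr : 1 ≤ r) :
    ((Finset.univ : Finset (Fin s × Fin s)).filter
                      (fun p => p.1 < p.2 ∧ p.1.val % r ≠ p.2.val % r)).card = tt r s := by
  rw [card_filter, ← univ_product_univ, sum_product_right]
  unfold tt
  rw [← Fin.sum_univ_eq_sum_range (fun i => i - i / r) s]
  apply sum_congr rfl
  intro y _
  rw [← card_filter]
  have h1 := count_mod r y.val hr
  have h2 := card_filter_add_card_filter_not (s := range y.val) (fun j => j % r = y.val % r)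
  rw [card_range] at h2
  have h3 : (univ.filter (fun x : Fin s => x < y ∧ x.val % r ≠ y.val % r)).card =
      ((range y.val).filter (fun j => ¬ j % r = y.val % r)).card := by
    apply card_bij (fun (x : Fin s) _ => x.val)
    · intro x hx
      simp only [mem_filter, mem_univ, true_and] at hx
      simp only [mem_filter, mem_range]
      exact ⟨hx.1, hx.2⟩
    · intro x _ x' _ h
      exact Fin.ext h
    · intro j hj
      simp only [mem_filter, mem_range] at hj
      refine ⟨⟨j, by omega⟩, ?_, rfl⟩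
      simp only [mem_filter, mem_univ, true_and]
      exact ⟨hj.1, hj.2⟩
  rw [h3]
  omega

/-- within-class count -/
def II (r n : ℕ) : ℕ := ∑ i ∈ range n, i / r

lemma II_add_tt (r n : ℕ) : II r n + tt r n = n.choose 2 := by
  induction n with
  | zero => simp [II, tt]
  | succ n ih =>
    have h1 : II r (n+1) = II r n + n / r := by unfold II; rw [sum_range_succ]
    have h2 : tt r (n+1) = tt r n + (n - n / r) := by unfold tt; rw [sum_range_succ]
    have h3 : (n+1).choose 2 = n.choose 2 + n := by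
      rw [Nat.choose_succ_succ' n 1, Nat.choose_one_right]; ring
    have h4 : n / r ≤ n := Nat.div_le_self _ _
    omega

lemma II_le (r n : ℕ) (hr : 1 ≤ r) : (II r n : ℝ) ≤ (n.choose 2 : ℝ) / r := by
  have hr' : (0:ℝ) < r := by exact_mod_cast hr
  rw [le_div_iff₀ hr']
  have : II r n * r ≤ n.choose 2 := by
    unfold II
    rw [sum_mul]
    calc ∑ i ∈ range n, i / r * r ≤ ∑ i ∈ range n, i := sum_le_sum fun i _ => Nat.div_mul_le_self i r
      _ = n.choose 2 := sum_range_id n ▸ (Nat.choose_two_right n).symm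
  exact_mod_cast this

lemma II_ge (r n : ℕ) (hr : 1 ≤ r) : (n.choose 2 : ℝ) / r - n ≤ (II r n : ℝ) := by
  have hr' : (0:ℝ) < r := by exact_mod_cast hr
  have : n.choose 2 ≤ II r n * r + n * r := by
    have e : n.choose 2 = ∑ i ∈ range n, i := by rw [sum_range_id, Nat.choose_two_right]
    have e2 : n * r = ∑ i ∈ range n, r := by rw [sum_const, card_range, smul_eq_mul]
    unfold II
    rw [e, e2, sum_mul, ← sum_add_distrib]
    apply sum_le_sum
    intro i _
    have h1 := Nat.div_add_mod i r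
    have h2 := Nat.mod_lt i (show 0 < r by omega)
    rw [mul_comm] at h1
    omega
  have h : (n.choose 2 : ℝ) ≤ II r n * r + n * r := by exact_mod_cast this
  rw [sub_le_iff_le_add, div_le_iff₀ hr']
  linarith

lemma pointwise (a w : ℕ) (ha : 1 ≤ a) :
    (w:ℝ) * (((a:ℝ)+1)/a)^a ≤ a * (((a:ℝ)+1)/a)^w := by
  have ha' : (0:ℝ) < a := by exact_mod_cast ha
  have hρ : (0:ℝ) < ((a:ℝ)+1)/a := by positivity
  rcases le_total a w with h | h
  · obtain ⟨t, rfl⟩ := Nat.exists_eq_add_of_le h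
    have hb := one_add_mul_le_pow (show (-2:ℝ) ≤ 1/a by
      have : (0:ℝ) < 1/a := by positivity
      linarith) t
    have e : (1:ℝ) + 1/a = ((a:ℝ)+1)/a := by field_simp
    rw [e] at hb
    have h2 : ((a + t : ℕ) : ℝ) ≤ a * (((a:ℝ)+1)/a)^t := by
      have : (a:ℝ) * (1 + t * (1/a)) = ((a+t : ℕ) : ℝ) := by
        push_cast; field_simp
      rw [← this]
      exact mul_le_mul_of_nonneg_left hb ha'.le
    calc ((a + t : ℕ) : ℝ) * (((a:ℝ)+1)/a)^a ≤ (a * (((a:ℝ)+1)/a)^t) * (((a:ℝ)+1)/a)^a :=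
          mul_le_mul_of_nonneg_right h2 (by positivity)
      _ = a * (((a:ℝ)+1)/a)^(a+t) := by rw [pow_add]; ring
  · obtain ⟨t, ht⟩ := Nat.exists_eq_add_of_le h
    have hb := one_add_mul_le_pow (show (-2:ℝ) ≤ -(1/((a:ℝ)+1)) by
      have : 1/((a:ℝ)+1) ≤ 1 := by
        rw [div_le_one (by positivity)]; linarith
      linarith) t
    have e : (1:ℝ) + -(1/((a:ℝ)+1)) = (((a:ℝ)+1)/a)⁻¹ := by
      field_simp; ring
    rw [e, inv_pow] at hb
    have h3 : (w:ℝ) ≤ a * ((((a:ℝ)+1)/a)^t)⁻¹ := by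
      have h4 : (w:ℝ) ≤ (a:ℝ) * (1 + t * (-(1/((a:ℝ)+1)))) := by
        have e5 : (w:ℝ) = (a:ℝ) - t := by
          rw [ht]; push_cast; ring
        rw [e5]
        have h6 : (a:ℝ) * (1/((a:ℝ)+1)) ≤ 1 := by
          rw [mul_one_div, div_le_one (by positivity)]; linarith
        have h7 : (0:ℝ) ≤ t := Nat.cast_nonneg t
        nlinarith
      exact h4.trans (mul_le_mul_of_nonneg_left hb ha'.le)
    have h5 : (0:ℝ) < (((a:ℝ)+1)/a)^t := by positivity
    have h6 : (w:ℝ) * (((a:ℝ)+1)/a)^t ≤ a := by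
      rw [← div_eq_mul_inv, le_div_iff₀ h5] at h3
      exact h3
    calc (w:ℝ) * (((a:ℝ)+1)/a)^a = ((w:ℝ) * (((a:ℝ)+1)/a)^t) * (((a:ℝ)+1)/a)^w := by
          have e7 := pow_add (((a:ℝ)+1)/a) w t
          rw [← ht] at e7
          rw [e7]; ring
      _ ≤ a * (((a:ℝ)+1)/a)^w := mul_le_mul_of_nonneg_right h6 (by positivity)

lemma card_E (n : ℕ) :
    ((Finset.univ : Finset (Sym2 (Fin n))).filter (fun e => ¬ e.IsDiag)).card = n.choose 2 := by
  have := Sym2.card_subtype_not_diag (α := Fin n)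
  rw [Fintype.card_fin] at this
  rw [← this, Fintype.card_subtype]

lemma prod_bound (n a : ℕ) (ha : 1 ≤ a) (w : Sym2 (Fin n) → ℕ) :
    (∏ e ∈ (Finset.univ : Finset (Sym2 (Fin n))).filter (fun e => ¬ e.IsDiag), (w e : ℝ)) *
      ((((a:ℝ)+1)/a)^a)^(n.choose 2) ≤ (a:ℝ)^(n.choose 2) * (((a:ℝ)+1)/a)^(T w univ) := by
  have e1 : T w univ = ∑ e ∈ (Finset.univ : Finset (Sym2 (Fin n))).filter (fun e => ¬ e.IsDiag), w e := by
    unfold T; rw [sym2_univ]
  rw [e1, ← card_E n, ← prod_const, ← prod_mul_distrib, ← prod_const, ← prod_pow_eq_pow_sum,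
    ← prod_mul_distrib]
  apply prod_le_prod
  · intro i _; positivity
  · intro i _; exact pointwise a (w i) ha


open Filter Topology

lemma tendsto_n_div_choose : Tendsto (fun n : ℕ => (n:ℝ) / (n.choose 2 : ℝ)) atTop (𝓝 0) := by
  have h1 : Tendsto (fun n : ℕ => (2:ℝ) / ((n:ℝ) - 1)) atTop (𝓝 0) := by
    apply Tendsto.div_atTop tendsto_const_nhds
    apply tendsto_atTop_add_const_right
    exact tendsto_natCast_atTop_atTop
  refine h1.congr' ?_
  filter_upwards [eventually_ge_atTop 2] with n hn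
  rw [Nat.cast_choose_two]
  have h2 : (2:ℝ) ≤ n := by exact_mod_cast hn
  have h3 : (n:ℝ) - 1 ≠ 0 := by linarith
  have h4 : (n:ℝ) ≠ 0 := by linarith
  field_simp

lemma tendsto_II (r : ℕ) (hr : 1 ≤ r) :
    Tendsto (fun n : ℕ => (II r n : ℝ) / (n.choose 2 : ℝ)) atTop (𝓝 (1 / r)) := by
  have h1 : Tendsto (fun n : ℕ => (1:ℝ)/r - (n:ℝ) / (n.choose 2 : ℝ)) atTop (𝓝 (1 / r - 0)) :=
    tendsto_const_nhds.sub tendsto_n_div_choose
  rw [sub_zero] at h1
  refine tendsto_of_tendsto_of_tendsto_of_le_of_le' h1 tendsto_const_nhds ?_ ?_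
  · filter_upwards [eventually_ge_atTop 2] with n hn
    have hN : (0:ℝ) < n.choose 2 := by exact_mod_cast Nat.choose_pos hn
    have := II_ge r n hr
    rw [le_div_iff₀ hN, sub_mul, div_mul_cancel₀ _ hN.ne']
    calc 1 / (r:ℝ) * (n.choose 2 : ℝ) - n = (n.choose 2 : ℝ) / r - n := by ring
      _ ≤ _ := this
  · filter_upwards [eventually_ge_atTop 2] with n hn
    have hN : (0:ℝ) < n.choose 2 := by exact_mod_cast Nat.choose_pos hn
    have := II_le r n hr
    rw [div_le_iff₀ hN]
    calc (II r n : ℝ) ≤ (n.choose 2 : ℝ) / r := this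
      _ = 1 / (r:ℝ) * (n.choose 2 : ℝ) := by ring

lemma tendsto_tt (r : ℕ) (hr : 1 ≤ r) :
    Tendsto (fun n : ℕ => (tt r n : ℝ) / (n.choose 2 : ℝ)) atTop (𝓝 (((r:ℝ) - 1) / r)) := by
  have hr' : (r:ℝ) ≠ 0 := by
    have : (1:ℝ) ≤ r := by exact_mod_cast hr
    linarith
  have h1 := (tendsto_const_nhds (x := (1:ℝ)) (f := (atTop : Filter ℕ))).sub (tendsto_II r hr)
  have e : (1:ℝ) - 1 / r = ((r:ℝ) - 1)/r := by field_simp
  rw [e] at h1
  refine h1.congr' ?_
  filter_upwards [eventually_ge_atTop 2] with n hn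
  have hN : (0:ℝ) < n.choose 2 := by exact_mod_cast Nat.choose_pos hn
  have h2 : (II r n : ℝ) + tt r n = n.choose 2 := by exact_mod_cast II_add_tt r n
  rw [eq_div_iff hN.ne', sub_mul, div_mul_cancel₀ _ hN.ne', one_mul]
  linarith

/-- the family of admissible products -/
def Fam (s q n : ℕ) : Set ℝ := {x : ℝ | ∃ w : Sym2 (Fin n) → ℕ,
              (∀ S : Finset (Fin n), S.card = s →
                ∑ e ∈ S.sym2.filter (fun e => ¬ e.IsDiag), w e ≤ q) ∧
              x = ∏ e ∈ (Finset.univ : Finset (Sym2 (Fin n))).filter (fun e => ¬ e.IsDiag),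
                    (w e : ℝ)}

/-- Upper bound for the products. -/
lemma fam_upper (r a s q : ℕ) (hr : 1 ≤ r) (ha : 1 ≤ a) (hs : 1 ≤ s)
    (hq' : q + 1 ≤ a * s.choose 2 + tt r s + (s-1)/r) (n : ℕ) (hn : s ≤ n) (x : ℝ)
    (hx : x ∈ Fam s q n) :
    x ≤ (a:ℝ)^(n.choose 2 : ℝ) * (((a:ℝ)+1)/a)^((((r:ℝ) - 1) / r) * (n.choose 2 : ℝ) + q * n) := by
  obtain ⟨w, hw, rfl⟩ := hx
  have ha' : (0:ℝ) < a := by exact_mod_cast ha
  have hr' : (0:ℝ) < r := by exact_mod_cast hr
  have hρ : (0:ℝ) < ((a:ℝ)+1)/a := by positivity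
  have hρ1 : (1:ℝ) ≤ ((a:ℝ)+1)/a := by rw [le_div_iff₀ ha']; linarith
  have h1 := prod_bound n a ha w
  have h2 := weight_bound w a r s q hr hs hw hq' n hn univ (by rw [card_univ, Fintype.card_fin])
  have h3 : (T w univ : ℝ) ≤ (a + ((r:ℝ) - 1)/r) * (n.choose 2 : ℝ) + q * n := by
    have h4 : (r:ℝ) * (T w univ : ℝ) ≤ ((a:ℝ) * r + ((r:ℝ)-1)) * (n.choose 2 : ℝ) + r * q * n := by
      have h5 : (((r - 1 : ℕ)) : ℝ) = (r:ℝ) - 1 := by push_cast [hr]; ring
      rw [← h5]
      exact_mod_cast h2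
    rw [← mul_le_mul_iff_right₀ hr']
    calc (r:ℝ) * (T w univ : ℝ) ≤ _ := h4
      _ = r * ((a + ((r:ℝ) - 1)/r) * (n.choose 2 : ℝ) + q * n) := by field_simp
  have h6 : ((((a:ℝ)+1)/a)^a)^(n.choose 2) = (((a:ℝ)+1)/a)^((a:ℝ) * (n.choose 2 : ℝ)) := by
    rw [← pow_mul, ← Real.rpow_natCast]; push_cast; rfl
  have h7 : (((a:ℝ)+1)/a)^(T w univ) ≤
      (((a:ℝ)+1)/a)^((a + ((r:ℝ) - 1)/r) * (n.choose 2 : ℝ) + q * n) := by
    rw [← Real.rpow_natCast]
    exact Real.rpow_le_rpow_of_exponent_le hρ1 h3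
  rw [h6] at h1
  have h8 : (a:ℝ)^(n.choose 2) = (a:ℝ)^(n.choose 2 : ℝ) := (Real.rpow_natCast _ _).symm
  rw [h8] at h1
  have hpos : (0:ℝ) < (((a:ℝ)+1)/a)^((a:ℝ) * (n.choose 2 : ℝ)) := Real.rpow_pos_of_pos hρ _
  rw [← mul_le_mul_iff_left₀ hpos]
  refine h1.trans ?_
  rw [mul_assoc]
  apply mul_le_mul_of_nonneg_left _ (by positivity)
  refine h7.trans (le_of_eq ?_)
  rw [← Real.rpow_add hρ]
  congr 1
  ring

lemma card_pairs {n : ℕ} (S : Finset (Fin n)) :
    (S.sym2.filter (fun e => ¬ e.IsDiag)).card = S.card.choose 2 := by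
  induction S using Finset.induction_on with
  | empty => simp
  | insert v S hv ih =>
    have h3 := T_insert (fun _ => 1) S v hv
    unfold T at h3
    simp only [sum_const, smul_eq_mul, mul_one] at h3
    rw [h3, ih, card_insert_of_notMem hv, Nat.choose_succ_succ' S.card 1, Nat.choose_one_right]
    ring

/-- The extremal construction. -/
def wex (a r n : ℕ) : Sym2 (Fin n) → ℕ := fun e => a + cr (fun x : Fin n => x.val % r) e

lemma wex_fam (r a s k n : ℕ) (hr : 1 ≤ r) :
    ((a:ℝ)^(II r n) * ((a:ℝ)+1)^(tt r n)) ∈ Fam s (a * s.choose 2 + tt r s + k) n := by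
  refine ⟨wex a r n, ?_, ?_⟩
  · intro S hS
    have h1 := cr_bound (fun x : Fin n => x.val % r) r (fun x => Nat.mod_lt _ (by omega)) s S hS
    unfold T at h1
    unfold wex
    rw [sum_add_distrib, sum_const, smul_eq_mul]
    have h2 : (S.sym2.filter (fun e => ¬ e.IsDiag)).card = s.choose 2 := by
      rw [← hS]
      exact card_pairs S
    rw [h2, mul_comm]
    omega
  · have hcr : ∀ e, cr (fun x : Fin n => x.val % r) e = 0 ∨ cr (fun x : Fin n => x.val % r) e = 1 := by
      intro e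
      induction e using Sym2.ind with
      | _ x y =>
        rw [cr_mk]
        split_ifs
        · left; rfl
        · right; rfl
    have h1 : ∀ e, ((wex a r n e : ℕ) : ℝ) = (a:ℝ)^(1 - cr (fun x : Fin n => x.val % r) e) *
        ((a:ℝ)+1)^(cr (fun x : Fin n => x.val % r) e) := by
      intro e
      unfold wex
      rcases hcr e with h | h <;> rw [h] <;> simp
    rw [prod_congr rfl (fun e _ => h1 e), prod_mul_distrib, prod_pow_eq_pow_sum, prod_pow_eq_pow_sum]
    have h2 : ∑ e ∈ (Finset.univ : Finset (Sym2 (Fin n))).filter (fun e => ¬ e.IsDiag),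
        cr (fun x : Fin n => x.val % r) e = tt r n := by
      rw [← tt_eq r n hr, ← sym2_univ, sum_sym2_filter_not_isDiag, card_filter]
      rw [← sum_filter_add_sum_filter_not (univ : Finset (Fin n × Fin n)) (fun p => p.1 < p.2)
        (fun p => if p.1 < p.2 ∧ p.1.val % r ≠ p.2.val % r then 1 else 0)]
      have h3 : ∑ x ∈ (univ : Finset (Fin n × Fin n)) with ¬ x.1 < x.2,
          (if x.1 < x.2 ∧ x.1.val % r ≠ x.2.val % r then 1 else 0) = 0 := by
        apply sum_eq_zero
        intro x hx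
        rw [mem_filter] at hx
        rw [if_neg]
        exact fun h => hx.2 h.1
      rw [h3, add_zero]
      apply sum_congr
      · ext p
        simp only [mem_filter, mem_offDiag, mem_univ, true_and]
        constructor
        · exact fun h => h.2
        · exact fun h => ⟨h.ne, h⟩
      · intro p hp
        rw [mem_filter] at hp
        rw [cr_mk]
        by_cases h : p.1.val % r = p.2.val % r
        · simp [h]
        · simp [h, hp.2]
    have h4 : ∑ e ∈ (Finset.univ : Finset (Sym2 (Fin n))).filter (fun e => ¬ e.IsDiag),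
        (1 - cr (fun x : Fin n => x.val % r) e) = II r n := by
      have h5 := II_add_tt r n
      have h6 := card_E n
      rw [card_eq_sum_ones] at h6
      have h7 : ∑ e ∈ (Finset.univ : Finset (Sym2 (Fin n))).filter (fun e => ¬ e.IsDiag),
          (1 - cr (fun x : Fin n => x.val % r) e) +
          ∑ e ∈ (Finset.univ : Finset (Sym2 (Fin n))).filter (fun e => ¬ e.IsDiag),
          cr (fun x : Fin n => x.val % r) e = n.choose 2 := by
        rw [← sum_add_distrib, ← h6]
        apply sum_congr rfl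
        intro e _
        rcases hcr e with h | h <;> rw [h]
      rw [h2] at h7
      omega
    rw [h2, h4]

lemma main_pos (r a s k : ℕ) (hr : 1 ≤ r) (ha : 1 ≤ a) (hs : 1 ≤ s) (hk : k + 1 ≤ (s - 1) / r) :
    Tendsto (fun n : ℕ => (sSup (Fam s (a * s.choose 2 + tt r s + k) n)) ^ ((1 : ℝ) / (n.choose 2 : ℝ)))
      atTop (𝓝 ((a : ℝ) ^ ((1 : ℝ) / r) * ((a : ℝ) + 1) ^ (((r : ℝ) - 1) / r))) := by
  set q := a * s.choose 2 + tt r s + k with hq
  have hq' : q + 1 ≤ a * s.choose 2 + tt r s + (s-1)/r := by omega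
  have ha' : (0:ℝ) < a := by exact_mod_cast ha
  have hr' : (0:ℝ) < r := by exact_mod_cast hr
  have hρ : (0:ℝ) < ((a:ℝ)+1)/a := by positivity
  -- lower function
  have hlow : Tendsto (fun n : ℕ => (a:ℝ)^((II r n : ℝ) / (n.choose 2 : ℝ)) *
      ((a:ℝ)+1)^((tt r n : ℝ) / (n.choose 2 : ℝ))) atTop
      (𝓝 ((a : ℝ) ^ ((1 : ℝ) / r) * ((a : ℝ) + 1) ^ (((r : ℝ) - 1) / r))) := by
    apply Tendsto.mul
    · exact (Real.continuousAt_const_rpow ha'.ne').tendsto.comp (tendsto_II r hr)
    · exact (Real.continuousAt_const_rpow (by positivity)).tendsto.comp (tendsto_tt r hr)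
  have hup : Tendsto (fun n : ℕ => (a:ℝ) * (((a:ℝ)+1)/a)^((((r:ℝ) - 1) / r) +
      q * ((n:ℝ) / (n.choose 2 : ℝ)))) atTop
      (𝓝 ((a : ℝ) ^ ((1 : ℝ) / r) * ((a : ℝ) + 1) ^ (((r : ℝ) - 1) / r))) := by
    have e : (a : ℝ) ^ ((1 : ℝ) / r) * ((a : ℝ) + 1) ^ (((r : ℝ) - 1) / r) =
        (a:ℝ) * (((a:ℝ)+1)/a)^((((r:ℝ) - 1) / r) + q * 0) := by
      rw [mul_zero, add_zero, Real.div_rpow (by positivity) (by positivity)]
      have e1 : (a:ℝ) ^ ((1 : ℝ) / r) = (a:ℝ) / (a:ℝ)^(((r : ℝ) - 1) / r) := by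
        rw [eq_div_iff (Real.rpow_pos_of_pos ha' _).ne', ← Real.rpow_add ha']
        have : (1:ℝ)/r + ((r:ℝ)-1)/r = 1 := by field_simp; ring
        rw [this, Real.rpow_one]
      rw [e1]; ring
    rw [e]
    apply Tendsto.mul tendsto_const_nhds
    have h1 : Tendsto (fun n : ℕ => (((r:ℝ) - 1) / r) + q * ((n:ℝ) / (n.choose 2 : ℝ))) atTop
        (𝓝 ((((r:ℝ) - 1) / r) + q * 0)) :=
      tendsto_const_nhds.add (tendsto_n_div_choose.const_mul _)
    exact (Real.continuousAt_const_rpow hρ.ne').tendsto.comp h1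
  refine tendsto_of_tendsto_of_tendsto_of_le_of_le' hlow hup ?_ ?_
  · filter_upwards [eventually_ge_atTop (max 2 s)] with n hn
    have hn2 : 2 ≤ n := (le_max_left _ _).trans hn
    have hns : s ≤ n := (le_max_right _ _).trans hn
    have hN : (0:ℝ) < n.choose 2 := by exact_mod_cast Nat.choose_pos hn2
    have hmem := wex_fam r a s k n hr
    have hbdd : BddAbove (Fam s q n) := ⟨_, fun x hx => fam_upper r a s q hr ha hs hq' n hns x hx⟩
    have h1 := le_csSup hbdd hmem
    have h2 := Real.rpow_le_rpow (by positivity) h1 (by positivity : (0:ℝ) ≤ 1 / (n.choose 2 : ℝ))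
    refine le_trans (le_of_eq ?_) h2
    rw [Real.mul_rpow (by positivity) (by positivity), ← Real.rpow_natCast, ← Real.rpow_natCast,
      ← Real.rpow_mul (by positivity), ← Real.rpow_mul (by positivity), mul_one_div, mul_one_div]
  · filter_upwards [eventually_ge_atTop (max 2 s)] with n hn
    have hn2 : 2 ≤ n := (le_max_left _ _).trans hn
    have hns : s ≤ n := (le_max_right _ _).trans hn
    have hN : (0:ℝ) < n.choose 2 := by exact_mod_cast Nat.choose_pos hn2
    have hmem := wex_fam r a s k n hr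
    have hbdd : BddAbove (Fam s q n) := ⟨_, fun x hx => fam_upper r a s q hr ha hs hq' n hns x hx⟩
    have h0 : 0 ≤ sSup (Fam s q n) := le_trans (by positivity) (le_csSup hbdd hmem)
    have h1 : sSup (Fam s q n) ≤ _ := csSup_le ⟨_, hmem⟩
      (fun x hx => fam_upper r a s q hr ha hs hq' n hns x hx)
    have h2 := Real.rpow_le_rpow h0 h1 (by positivity : (0:ℝ) ≤ 1 / (n.choose 2 : ℝ))
    refine h2.trans (le_of_eq ?_)
    rw [Real.mul_rpow (by positivity) (by positivity), ← Real.rpow_mul (by positivity),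
      ← Real.rpow_mul (by positivity), mul_one_div, mul_one_div, div_self hN.ne', Real.rpow_one]
    congr 2
    field_simp

lemma fam_zero (r s k n : ℕ) (hr : 1 ≤ r) (hs : 2 ≤ s) (hk : k + 1 ≤ (s - 1) / r) (hn : s ≤ n) :
    Fam s (0 * s.choose 2 + tt r s + k) n = {0} := by
  ext x
  rw [Set.mem_singleton_iff]
  constructor
  · rintro ⟨w, hw, rfl⟩
    by_contra hne
    have hw1 : ∀ e ∈ (Finset.univ : Finset (Sym2 (Fin n))).filter (fun e => ¬ e.IsDiag), 1 ≤ w e := by
      intro e he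
      by_contra hcon
      apply hne
      apply prod_eq_zero he
      have : w e = 0 := by omega
      rw [this]; simp
    obtain ⟨S, _, hS⟩ := exists_subset_card_eq (s := (univ : Finset (Fin n))) (n := s)
      (by rw [card_univ, Fintype.card_fin]; exact hn)
    have h1 := hw S hS
    have h2 : (S.sym2.filter (fun e => ¬ e.IsDiag)).card ≤
        ∑ e ∈ S.sym2.filter (fun e => ¬ e.IsDiag), w e := by
      rw [card_eq_sum_ones]
      apply sum_le_sum
      intro e he
      apply hw1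
      rw [mem_filter] at he ⊢
      exact ⟨mem_univ _, he.2⟩
    have h3 : (S.sym2.filter (fun e => ¬ e.IsDiag)).card = s.choose 2 := by
      rw [← hS]
      exact card_pairs S
    have h4 := II_add_tt r s
    have h5 : (s-1)/r ≤ II r s := by
      unfold II
      exact single_le_sum (f := fun i => i / r) (fun _ _ => Nat.zero_le _)
        (mem_range.mpr (by omega : s - 1 < s))
    omega
  · rintro rfl
    refine ⟨fun _ => 0, ?_, ?_⟩
    · intro S _
      simp
    · have hE : 0 < ((Finset.univ : Finset (Sym2 (Fin n))).filter (fun e => ¬ e.IsDiag)).card := by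
        rw [card_E]
        exact Nat.choose_pos (by omega)
      obtain ⟨e, he⟩ := card_pos.mp hE
      exact (prod_eq_zero he (by simp)).symm

/-- For r≥1, s≥2r+1 and 0≤k<⌊(s−1)/r⌋: take multigraphs where every s-set spans at most a·C(s,2)+t_r(s)+k edges. Their max product of multiplicities, raised to 1/C(n,2), tends to a^{1/r}(a+1)^{(r−1)/r}. -/
theorem result :
    ∀ r a s : ℕ, 1 ≤ r → 2 * r + 1 ≤ s → ∀ k : ℕ, k + 1 ≤ (s - 1) / r →
      Filter.Tendsto
        (fun n : ℕ =>
          (sSup {x : ℝ | ∃ w : Sym2 (Fin n) → ℕ,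
              (∀ S : Finset (Fin n), S.card = s →
                ∑ e ∈ S.sym2.filter (fun e => ¬ e.IsDiag), w e ≤
                  a * s.choose 2 +
                    ((Finset.univ : Finset (Fin s × Fin s)).filter
                      (fun p => p.1 < p.2 ∧ p.1.val % r ≠ p.2.val % r)).card + k) ∧
              x = ∏ e ∈ (Finset.univ : Finset (Sym2 (Fin n))).filter (fun e => ¬ e.IsDiag),
                    (w e : ℝ)}) ^ ((1 : ℝ) / (n.choose 2 : ℝ)))
        Filter.atTop
        (nhds ((a : ℝ) ^ ((1 : ℝ) / r) * ((a : ℝ) + 1) ^ (((r : ℝ) - 1) / r))) := by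
  intro r a s hr hs k hk
  rw [tt_eq r s hr]
  change Tendsto (fun n : ℕ => (sSup (Fam s (a * s.choose 2 + tt r s + k) n)) ^
    ((1 : ℝ) / (n.choose 2 : ℝ))) atTop _
  rcases Nat.eq_zero_or_pos a with rfl | ha
  · have hr' : (0:ℝ) < r := by exact_mod_cast hr
    have e : ((0:ℕ) : ℝ) ^ ((1 : ℝ) / r) * (((0:ℕ) : ℝ) + 1) ^ (((r : ℝ) - 1) / r) = 0 := by
      rw [Nat.cast_zero, Real.zero_rpow (by positivity), zero_mul]
    rw [e]
    apply tendsto_const_nhds.congr'
    filter_upwards [eventually_ge_atTop (max 2 s)] with n hn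
    have hn2 : 2 ≤ n := (le_max_left _ _).trans hn
    have hns : s ≤ n := (le_max_right _ _).trans hn
    have hN : (0:ℝ) < n.choose 2 := by exact_mod_cast Nat.choose_pos hn2
    rw [fam_zero r s k n hr (by omega) hk hns, csSup_singleton, Real.zero_rpow (by positivity)]
  · exact main_pos r a s k hr ha (by omega) hk

end Pool.Agent.S12323
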