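import Pool.Statements.S12390
-- import your own Pool.Agent.* helpers here
import Pool.Agent.GL.Blow
import Pool.Agent.GL.Comp
import Pool.Agent.GL.Base

set_option autoImplicit false
open Pool Pool.MP_f34ea0_co

namespace Pool.Agent.S12390

/-- The negation of the preceding statement: For r ≥ 2, take two non-empty finite families of edges over the same r-partition, each edge having exactly one vertex per part, with every A-edge meeting every B-edge. Then some set of at most 2r−2 vertices meets every edge of A ∪ B. -/
theorem result :
    ¬ (∀ (r : ℕ), 2 ≤ r →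
    ∀ (V : Type) [Fintype V] [DecidableEq V] (part : V → Fin r)
      (A B : Finset (Finset V)),
      (∀ e ∈ A, ∀ i : Fin r, (e.filter (fun v => part v = i)).card = 1) →
      (∀ e ∈ B, ∀ i : Fin r, (e.filter (fun v => part v = i)).card = 1) →
      A.Nonempty → B.Nonempty →
      (∀ e ∈ A, ∀ f ∈ B, (e ∩ f).Nonempty) →
      ∃ T : Finset V, T.card ≤ 2 * r - 2 ∧ ∀ e ∈ A ∪ B, (T ∩ e).Nonempty) := by
  have h := Pool.Agent.GL.Good.pow Pool.Agent.GL.good_base (by norm_num) (by norm_num) 25
  exact Pool.Agent.GL.blow h (by norm_num) (by norm_num) (by norm_num)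

end Pool.Agent.S12390
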