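import Pool.Statements.S12445
import Pool.Agent.Hyp6.L3End

set_option autoImplicit false
open Pool Pool.MP_f665f6_co

namespace Pool.Agent.S12445

/-- Every finite connected simple graph with minimum degree at least 5 on n vertices has a set S, with 11·∣S∣ ≤ 4n, such that every vertex is adjacent to some vertex of S (i.e. total domination number at most 4n/11). -/
theorem result :
    ∀ (V : Type) [Fintype V] (G : SimpleGraph V) [DecidableRel G.Adj],
      G.Connected → 5 ≤ G.minDegree →
        ∃ S : Finset V, (∀ v : V, ∃ u ∈ S, G.Adj v u) ∧
          11 * S.card ≤ 4 * Fintype.card V :=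
  Pool.Agent.Hyp6.S12445_fin Pool.Agent.Hyp6.dual13

end Pool.Agent.S12445
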