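import Pool.Statements.S12556
import Pool.Agent.Helper61.SteinitzF

set_option autoImplicit false
open Pool Pool.MP_fb0137_co

namespace Pool.Agent.S12556

/-- The negation of the preceding statement: For every m ≥ 3 there is a norm on R^m whose Steinitz constant (least K such that any unit-norm vectors summing to 0 can be ordered with all partial sums of norm ≤ K) equals m − 1 + 1/m. -/
theorem result :
    ¬ (∀ m : ℕ, 3 ≤ m → ∃ N : (Fin m → ℝ) → ℝ,
      (∀ x, N x = 0 ↔ x = 0) ∧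
      (∀ x y, N (x + y) ≤ N x + N y) ∧
      (∀ (c : ℝ) (x : Fin m → ℝ), N (c • x) = |c| * N x) ∧
      IsLeast {K : ℝ | ∀ (n : ℕ) (v : Fin n → Fin m → ℝ),
          (∀ j, N (v j) ≤ 1) → ∑ j, v j = 0 →
          ∃ σ : Equiv.Perm (Fin n), ∀ k : ℕ, k ≤ n →
            N (∑ j ∈ Finset.univ.filter (fun j : Fin n => j.val < k), v (σ j)) ≤ K}
        ((m : ℝ) - 1 + 1 / (m : ℝ))) := by
  intro hall
  obtain ⟨N, -, hadd, hsmul, -, hlow⟩ := hall 3 le_rfl
  have hN : Pool.Agent.Helper61.Steinitz.IsN N := ⟨hadd, hsmul⟩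
  have hmem : (2333 / 1000 : ℝ) ∈ {K : ℝ | ∀ (n : ℕ) (v : Fin n → Fin 3 → ℝ),
          (∀ j, N (v j) ≤ 1) → ∑ j, v j = 0 →
          ∃ σ : Equiv.Perm (Fin n), ∀ k : ℕ, k ≤ n →
            N (∑ j ∈ Finset.univ.filter (fun j : Fin n => j.val < k), v (σ j)) ≤ K} := by
    intro n v hv h0
    exact Pool.Agent.Helper61.Steinitz.perm_of_fins hN (by norm_num) n v h0
      (Pool.Agent.Helper61.Steinitz.fins_three hN (by simp) v Finset.univ (fun i _ => hv i) h0)
  have h := hlow hmem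
  norm_num at h

end Pool.Agent.S12556
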