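-- Proof of the frozen statement S13853 (MP_bf94fe_gt): cancellation law 2α = 2β → α = β for
-- regular-open equidecomposability types on the line.
import Pool.Statements.S13853
import Pool.Agent.Helper16.GMTop

set_option autoImplicit false
open Pool Pool.MP_bf94fe_gt

namespace Pool.Agent.S13853

/-- For bounded regular-open A, B in the line, with regular-open equidecomposability under isometries using joins: if the join of A with a disjoint translate is equidecomposable to the join of B with a disjoint translate, then A and B are equidecomposable. -/
theorem result :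
    ∀ E : Set ℝ → Set ℝ → Prop,
      (∀ X Y : Set ℝ, E X Y ↔
        ∃ n : ℕ, ∃ P : Fin n → Set ℝ, ∃ g : Fin n → (ℝ ≃ᵢ ℝ),
          (∀ i, interior (closure (P i)) = P i ∧ Bornology.IsBounded (P i)) ∧
          Pairwise (fun i j => Disjoint (P i) (P j)) ∧
          Pairwise (fun i j => Disjoint ((g i) '' (P i)) ((g j) '' (P j))) ∧
          interior (closure (⋃ i, P i)) = X ∧
          interior (closure (⋃ i, (g i) '' (P i))) = Y) →
      ∀ A B : Set ℝ,
        interior (closure A) = A → Bornology.IsBounded A →
        interior (closure B) = B → Bornology.IsBounded B →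
        ∀ s t : ℝ,
          Disjoint A ((fun x => x + s) '' A) →
          Disjoint B ((fun x => x + t) '' B) →
          E (interior (closure (A ∪ (fun x => x + s) '' A)))
            (interior (closure (B ∪ (fun x => x + t) '' B))) →
          E A B := by
  intro E hE A B hA hAb hB _ s t hs ht hEAB
  rw [hE] at hEAB ⊢
  obtain ⟨n, P, g, hP, hPd, hQd, h1, h2⟩ := hEAB
  rcases A.eq_empty_or_nonempty with hA0 | hne
  · subst hA0
    have hPe : ∀ i, P i = ∅ := by
      intro i
      rw [Set.image_empty, Set.union_empty, closure_empty, interior_empty] at h1
      rw [Set.eq_empty_iff_forall_notMem]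
      intro x hx
      have h3 : IsOpen (P i) := by
        rw [← (hP i).1]
        exact isOpen_interior
      have h4 : P i ⊆ interior (closure (⋃ i, P i)) :=
        h3.subset_interior_iff.mpr ((Set.subset_iUnion P i).trans subset_closure)
      rw [h1] at h4
      exact h4 hx
    have hB0 : B = ∅ := by
      have h3 : (⋃ i, (g i) '' (P i)) = ∅ := by
        simp [hPe]
      rw [h3, closure_empty, interior_empty] at h2
      rw [Set.eq_empty_iff_forall_notMem]
      intro x hx
      have h4 : B ⊆ interior (closure (B ∪ (fun x => x + t) '' B)) := by
        conv_lhs => rw [← hB]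
        exact interior_mono (closure_mono Set.subset_union_left)
      rw [← h2] at h4
      exact h4 hx
    subst hB0
    refine ⟨0, fun i => i.elim0, fun i => i.elim0, fun i => i.elim0, fun i => i.elim0,
      fun i => i.elim0, ?_, ?_⟩
    · simp
    · simp
  · exact Helper16.GM.top P g s t hA hAb hB (fun i => (hP i).1) hPd hQd hs ht h1 h2 hne

end Pool.Agent.S13853
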