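import Pool.Statements.S14350
import Pool.Agent.Helper63.CKFinal

set_option autoImplicit false
open Pool Pool.MP_09b933_lc

namespace Pool.Agent.S14350

/-- The negation of the preceding statement: For some optimal plain machine U and optimal prefix-free machine V, there is a partial computable ψ and a constant c such that for every string x, ψ(x, K(x)) is defined and lies within c of C(x). -/
theorem result :
    ¬ (∃ U V : List Bool →. List Bool,
      Partrec U ∧
      (∀ M : List Bool →. List Bool, Partrec M →
        ∃ c : ℕ, ∀ (x p : List Bool), x ∈ M p →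
          ∃ q : List Bool, x ∈ U q ∧ q.length ≤ p.length + c) ∧
      Partrec V ∧
      (∀ p q : List Bool, (V p).Dom → (V q).Dom → p <+: q → p = q) ∧
      (∀ M : List Bool →. List Bool, Partrec M →
        (∀ p q : List Bool, (M p).Dom → (M q).Dom → p <+: q → p = q) →
        ∃ c : ℕ, ∀ (x p : List Bool), x ∈ M p →
          ∃ q : List Bool, x ∈ V q ∧ q.length ≤ p.length + c) ∧
      ∃ ψ : List Bool × ℕ →. ℕ, Partrec ψ ∧
        ∃ c : ℕ, ∀ x : List Bool,
          ∃ y : ℕ, y ∈ ψ (x, sInf (List.length '' {p : List Bool | x ∈ V p})) ∧
            sInf (List.length '' {p : List Bool | x ∈ U p}) ≤ y + c ∧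
            y ≤ sInf (List.length '' {p : List Bool | x ∈ U p}) + c) := by
  exact Pool.Agent.Helper63.CK.main

end Pool.Agent.S14350
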