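import Pool.Statements.S14998

set_option autoImplicit false
open Pool Pool.MP_855a95_lc

namespace Pool.Agent.S14998

/-- The negation of the preceding statement: There is a symmetric colouring of pairs of countable ordinals by natural numbers with no monochromatic triangle such that for every partition of ω₁ into countably many pieces, some piece has every colour appearing on one of its pairs. -/
theorem result :
    ¬ (∃ c : {o : Ordinal.{0} // o < (Cardinal.aleph 1).ord} →
        {o : Ordinal.{0} // o < (Cardinal.aleph 1).ord} → ℕ,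
      (∀ a b, c a b = c b a) ∧
      (∀ a b d, a ≠ b → b ≠ d → a ≠ d → ¬ (c a b = c b d ∧ c a b = c a d)) ∧
      ∀ f : {o : Ordinal.{0} // o < (Cardinal.aleph 1).ord} → ℕ,
        ∃ i : ℕ, ∀ n : ℕ, ∃ a b, a ≠ b ∧ f a = i ∧ f b = i ∧ c a b = n) := by
  classical
  rintro ⟨c, -, htri, hpart⟩
  -- fix one vertex `z` (the ordinal 0) and partition the other vertices by the colour of the
  -- pair they form with `z`; the piece with label `m + 1` omits the colour `m`
  have hz : (0 : Ordinal.{0}) < (Cardinal.aleph 1).ord := by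
    rw [Cardinal.lt_ord, Ordinal.card_zero]
    exact Cardinal.aleph_pos 1
  obtain ⟨i, hi⟩ := hpart (fun b => if b = ⟨0, hz⟩ then 0 else c ⟨0, hz⟩ b + 1)
  rcases i with _ | m
  · obtain ⟨a, b, hab, ha, hb, -⟩ := hi 0
    have ha' : a = ⟨0, hz⟩ := by
      by_contra h
      simp [h] at ha
    have hb' : b = ⟨0, hz⟩ := by
      by_contra h
      simp [h] at hb
    exact hab (ha'.trans hb'.symm)
  · obtain ⟨a, b, hab, ha, hb, hc⟩ := hi m
    have ha0 : a ≠ ⟨0, hz⟩ := by
      intro h
      simp [h] at ha
    have hb0 : b ≠ ⟨0, hz⟩ := by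
      intro h
      simp [h] at hb
    simp only [ha0, hb0, if_false, Nat.add_right_cancel_iff] at ha hb
    exact htri ⟨0, hz⟩ a b ha0.symm hab hb0.symm ⟨ha.trans hc.symm, ha.trans hb.symm⟩

end Pool.Agent.S14998
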