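import Pool.Statements.S15558
import Pool.Agent.Helper61.RW.FinA

set_option autoImplicit false
open Pool Pool.MP_e8ba80_lc

namespace Pool.Agent.S15558

/-- The negation of the preceding statement: Every computable tournament on the naturals has an infinite subset on which it is transitive and which is non-computable with minimal Turing degree: every set reducible to it is computable or computes it. -/
theorem result :
    ¬ (∀ R : ℕ → ℕ → Bool, Computable₂ R →
      (∀ x, R x x = false) →
      (∀ x y, x ≠ y → (R x y = true ↔ R y x = false)) →
      ∃ h : ℕ → Bool, {n | h n = true}.Infinite ∧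
        (∀ x y z, h x = true → h y = true → h z = true →
          R x y = true → R y z = true → R x z = true) ∧
        ¬ Computable h ∧
        ∀ c : ℕ → Bool,
          TuringReducible (fun n => Part.some (c n).toNat) (fun n => Part.some (h n).toNat) →
            (Computable c ∨
              TuringReducible (fun n => Part.some (h n).toNat) (fun n => Part.some (c n).toNat))) := by
  intro H
  obtain ⟨v, hS⟩ := Pool.Agent.Helper61.RW.construction
  obtain ⟨h, hinf, htr, -, hmin⟩ := H (Pool.Agent.Helper61.RW.RR Pool.Agent.Helper61.RW.SS)
    (Pool.Agent.Helper61.RW.comp_RR hS.comp) (Pool.Agent.Helper61.RW.RR_self _)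
    (fun x y hxy => Pool.Agent.Helper61.RW.RR_ne _ x y hxy)
  obtain ⟨p, hp1, hp2, col, hcol⟩ := Pool.Agent.Helper61.RW.em_p hS hinf htr
  obtain ⟨Z, hZ, hpZ⟩ := Pool.Agent.Helper61.RW.main_lemma hS hp2 hcol
  exact Pool.Agent.Helper61.RW.not_minimal hZ (hp1.trans hpZ) hmin

end Pool.Agent.S15558
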