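import Pool.Statements.S15566
import Pool.Agent.Helper27.Machine
import Pool.Agent.Helper27.RegR
import Pool.Agent.Helper27.Table

set_option autoImplicit false
open Pool Pool.MP_ea5d49_lc

namespace Pool.Agent.S15566

open Pool.Agent.Helper27 Turing Nat.Partrec

/-- A primitive recursive inverse of `n ↦ 2 ^ n - 1`. -/
def lg (m : ℕ) : ℕ := (List.range (m + 1)).findIdx (fun k => decide (m + 1 ≤ 2 ^ k))

theorem lg_pow (n : ℕ) : lg (2 ^ n - 1) = n := by
  have h1 : 2 ^ n - 1 + 1 = 2 ^ n := by
    have := Nat.one_le_two_pow (n := n); omega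
  unfold lg
  rw [h1]
  have hn : n < (List.range (2 ^ n)).length := by
    rw [List.length_range]; exact Nat.lt_two_pow_self
  rw [List.findIdx_eq hn]
  refine ⟨by simp, ?_⟩
  intro j hj
  simp only [List.getElem_range, decide_eq_false_iff_not, not_le]
  exact Nat.pow_lt_pow_right (by norm_num) hj

theorem primrec_lg : Primrec lg := by
  have hpow : Primrec₂ (fun a b : ℕ => a ^ b) := Primrec₂.unpaired'.1 Nat.Primrec.pow
  unfold lg
  refine Primrec.list_findIdx (Primrec.list_range.comp Primrec.succ) ?_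
  have h : PrimrecPred fun p : ℕ × ℕ => p.1 + 1 ≤ 2 ^ p.2 :=
    Primrec.nat_le.comp (Primrec.succ.comp Primrec.fst)
      (hpow.comp (Primrec.const 2) Primrec.snd)
  exact h.decide

/-- A universal code. -/
theorem exists_universal : ∃ U : ToPartrec.Code, ∀ n : ℕ, (U.eval [2 ^ n - 1]).Dom ↔
    (Nat.Partrec.Code.eval (Denumerable.ofNat Nat.Partrec.Code n) 0).Dom := by
  let h : ℕ →. ℕ := fun m => Nat.Partrec.Code.eval (Denumerable.ofNat Nat.Partrec.Code (lg m)) 0
  have hh : Partrec h := by
    have h1 : Partrec₂ Nat.Partrec.Code.eval := Nat.Partrec.Code.eval_part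
    exact h1.comp ((Primrec.ofNat Nat.Partrec.Code).comp primrec_lg).to_comp (Computable.const 0)
  obtain ⟨U, hU⟩ := ToPartrec.Code.exists_code (Nat.Partrec'.part_iff₁.2 hh)
  refine ⟨U, fun n => ?_⟩
  have := hU (List.Vector.cons (2 ^ n - 1) List.Vector.nil)
  have e : (List.Vector.cons (2 ^ n - 1) List.Vector.nil : List.Vector ℕ 1).1 = [2 ^ n - 1] := rfl
  rw [e] at this
  rw [this]
  simp only [List.Vector.head_cons, h, lg_pow]
  rfl

/-- There is an algorithm that, given an alphabet size and a finite automaton, decides whether its language equals the shuffle of two languages L1, L2, neither equal to the language containing only the empty word. (negated) -/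
theorem result :
    ¬ (ComputablePred (fun p : ℕ × List ℕ × List ℕ =>
      ∃ L₁ L₂ : Set (List (Fin p.1)),
        L₁ ≠ {[]} ∧ L₂ ≠ {[]} ∧
        ∀ w : List (Fin p.1),
          (w.foldl (fun q a => p.2.1.getD (q * p.1 + a.val) 0) 0 ∈ p.2.2) ↔
            ∃ u ∈ L₁, ∃ v ∈ L₂, ∃ m : List Bool, m.length = w.length ∧
              ((w.zip m).filter (fun x => x.2)).map Prod.fst = u ∧
              ((w.zip m).filter (fun x => !x.2)).map Prod.fst = v)) := by
  intro hP
  classical
  obtain ⟨U, hU⟩ := exists_universal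
  have fX : Finite XX := by
    have hk : Finite PartrecToTM2.K' := by
      apply Finite.of_surjective (fun i : Fin 4 => match i with
        | 0 => PartrecToTM2.K'.main
        | 1 => PartrecToTM2.K'.rev
        | 2 => PartrecToTM2.K'.aux
        | 3 => PartrecToTM2.K'.stack)
      intro k
      cases k
      · exact ⟨0, rfl⟩
      · exact ⟨1, rfl⟩
      · exact ⟨2, rfl⟩
      · exact ⟨3, rfl⟩
    infer_instance
  have fC : Finite (CC U) := inferInstance
  have fB : Finite (Bs (CC U) XX) := Bs.finite_bs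
  have fL : Finite (Lt (Bs (CC U) XX)) := finite_lt
  obtain ⟨k, ⟨e⟩⟩ := Finite.exists_equiv_fin (Lt (Bs (CC U) XX))
  let M := mach U
  let y0 : XX := (PartrecToTM2.K'.main, PartrecToTM2.Γ'.bit1)
  let y1 : XX := (PartrecToTM2.K'.main, PartrecToTM2.Γ'.cons)
  have hy : y1 ≠ y0 := by decide
  have hfm : ∀ w : List (Fin k), w.filterMap (fun a => some (e.symm a)) = w.map e.symm :=
    fun w => List.filterMap_eq_map' ▸ rfl
  have hLA : RegP (fun w : List (Fin k) => RA M (w.map e.symm)) :=
    (RegP.comap (fun a => some (e.symm a)) (reg_RA M)).congr (fun w => by rw [hfm])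
  have hLB : RegP (fun w : List (Fin k) => RB (cstart U) y0 y1 (w.map e.symm)) :=
    (RegP.comap (fun a => some (e.symm a)) (reg_RB (cstart U) y0 y1)).congr
      (fun w => by rw [hfm])
  obtain ⟨g, hg, hgacc⟩ := exists_family k _ _ hLA hLB (e (Lt.N (Bs.x true y0)))
  let p : ℕ → CC U × List XX := fun n => (cstart U, List.replicate n y0 ++ [y1])
  have hmem : ∀ n w, tabAcc k (g n) w ↔ w.map e.symm ∈ (M.core (p n)).R := by
    intro n w
    rw [hgacc, mem_core_R' M (cstart U) y0 y1 hy n (w.map e.symm)]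
    have hc : (w.map e.symm).count (Lt.N (Bs.x true y0)) = w.count (e (Lt.N (Bs.x true y0))) := by
      have := List.count_map_of_injective w e.symm e.symm.injective (e (Lt.N (Bs.x true y0)))
      rw [Equiv.symm_apply_apply] at this
      exact this
    rw [hc]
    rfl
  have key : ∀ n, (∃ L₁ L₂ : Set (List (Fin k)), L₁ ≠ {[]} ∧ L₂ ≠ {[]} ∧
      ∀ w : List (Fin k),
          (w.foldl (fun q a => (g n).1.getD (q * k + a.val) 0) 0 ∈ (g n).2) ↔
            ∃ u ∈ L₁, ∃ v ∈ L₂, ∃ m : List Bool, m.length = w.length ∧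
              ((w.zip m).filter (fun x => x.2)).map Prod.fst = u ∧
              ((w.zip m).filter (fun x => !x.2)).map Prod.fst = v) ↔
      ¬ (Nat.Partrec.Code.eval (Denumerable.ofNat Nat.Partrec.Code n) 0).Dom := by
    intro n
    rw [← hU n, ← hlt_start U n, ← M.sep_iff (mach_det U) (p n), ← Core.dec_iff]
    have hne : ∀ {α β : Type} (f : α ≃ β) (L : Set (List α)), L ≠ {[]} →
        {w : List β | w.map f.symm ∈ L} ≠ {[]} := by
      intro α β f L hL h
      apply hL
      ext w
      have h1 : (w.map f) ∈ {w : List β | w.map f.symm ∈ L} ↔ (w.map f) ∈ ({[]} : Set (List β)) := by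
        rw [h]
      simpa using h1
    constructor
    · rintro ⟨L₁, L₂, h1, h2, h3⟩
      refine ⟨{w | w.map e.symm.symm ∈ L₁}, {w | w.map e.symm.symm ∈ L₂}, hne e.symm L₁ h1,
        hne e.symm L₂ h2, ?_⟩
      intro w
      have h4 := hmem n (w.map e)
      rw [List.map_map, Equiv.symm_comp_self, List.map_id] at h4
      rw [← h4]
      refine (h3 (w.map e)).trans ?_
      constructor
      · rintro ⟨u, hu, v, hv, hm⟩
        have hs := shuf_iff_mask.2 hm
        obtain ⟨u', v', hs', rfl, rfl⟩ := shuf_map_inv _ hs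
        exact ⟨u', by simpa using hu, v', by simpa using hv, hs'⟩
      · rintro ⟨u, hu, v, hv, hs⟩
        exact ⟨u.map e, by simpa using hu, v.map e, by simpa using hv, shuf_iff_mask.1 (hs.map e)⟩
    · rintro ⟨L₁, L₂, h1, h2, h3⟩
      refine ⟨{w | w.map e.symm ∈ L₁}, {w | w.map e.symm ∈ L₂}, hne e L₁ h1,
        hne e L₂ h2, ?_⟩
      intro w
      refine (hmem n w).trans ?_
      rw [h3]
      constructor
      · rintro ⟨u, hu, v, hv, hs⟩
        obtain ⟨u', v', hs', rfl, rfl⟩ := shuf_map_inv _ hs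
        exact ⟨u', hu, v', hv, shuf_iff_mask.1 hs'⟩
      · rintro ⟨u, hu, v, hv, hm⟩
        exact ⟨u.map e.symm, hu, v.map e.symm, hv, (shuf_iff_mask.2 hm).map _⟩
  have hred : (fun c : Nat.Partrec.Code => ¬ (Nat.Partrec.Code.eval c 0).Dom) ≤₀
      (fun p : ℕ × List ℕ × List ℕ =>
      ∃ L₁ L₂ : Set (List (Fin p.1)),
        L₁ ≠ {[]} ∧ L₂ ≠ {[]} ∧
        ∀ w : List (Fin p.1),
          (w.foldl (fun q a => p.2.1.getD (q * p.1 + a.val) 0) 0 ∈ p.2.2) ↔
            ∃ u ∈ L₁, ∃ v ∈ L₂, ∃ m : List Bool, m.length = w.length ∧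
              ((w.zip m).filter (fun x => x.2)).map Prod.fst = u ∧
              ((w.zip m).filter (fun x => !x.2)).map Prod.fst = v) := by
    refine ⟨fun c => (k, g (Encodable.encode c)), ?_, ?_⟩
    · exact (Computable.const k).pair (hg.to_comp.comp Computable.encode)
    · intro c
      have := key (Encodable.encode c)
      rw [Denumerable.ofNat_encode] at this
      exact this.symm
  have h1 := ComputablePred.computable_of_manyOneReducible hred hP
  have h2 := h1.not
  have h3 : ComputablePred fun c : Nat.Partrec.Code => (Nat.Partrec.Code.eval c 0).Dom :=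
    h2.of_eq (fun c => not_not)
  exact ComputablePred.halting_problem 0 h3

end Pool.Agent.S15566
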