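import Pool.Statements.S15715
import Pool.Agent.Helper2.TB.Limit

set_option autoImplicit false
open Pool Pool.MP_436870_mp

namespace Pool.Agent.S15715

open Pool.Agent.Helper2.TB Filter Topology

theorem erase0 : (Finset.univ.erase (0 : Fin 3)) = {1, 2} := by decide
theorem erase1 : (Finset.univ.erase (1 : Fin 3)) = {0, 2} := by decide
theorem erase2 : (Finset.univ.erase (2 : Fin 3)) = {0, 1} := by decide
theorem ioi0 : (Finset.Ioi (0 : Fin 3)) = {1, 2} := by decide
theorem ioi1 : (Finset.Ioi (1 : Fin 3)) = {2} := by decide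
theorem ioi2 : (Finset.Ioi (2 : Fin 3)) = ∅ := by decide

theorem usum (m : ℝ) (v : Fin 3 → ℂ) :
    ∑ i, ∑ j ∈ Finset.Ioi i, m * m / ‖v i - v j‖
      = m ^ 2 * (1 / ‖v 2 - v 1‖ + 1 / ‖v 2 - v 0‖ + 1 / ‖v 1 - v 0‖) := by
  rw [Fin.sum_univ_three, ioi0, ioi1, ioi2, Finset.sum_pair (by decide), Finset.sum_singleton,
    Finset.sum_empty, norm_sub_rev (v 0) (v 1), norm_sub_rev (v 0) (v 2), norm_sub_rev (v 1) (v 2)]
  ring

theorem force (m : ℝ) (a b : ℂ) : (m * m / ‖a - b‖ ^ 3) • (a - b) = (m * m) • G (a - b) := by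
  unfold G; rw [smul_smul]; rfl

theorem cancel_m {m : ℝ} (hm : 0 < m) {A B : ℂ} (h : m • A = (m * m) • B) : A = m • B := by
  rw [mul_smul] at h
  exact smul_right_injective ℂ hm.ne' h

theorem toSol {m : ℝ} (hm : 0 < m) {q : ℝ → Fin 3 → ℂ}
    (h1 : ∀ i, ContDiff ℝ 2 (fun s => q s i))
    (h2 : ∀ t : ℝ, ∀ i j : Fin 3, i ≠ j → q t i ≠ q t j)
    (h3 : ∀ t : ℝ, ∑ i, q t i = 0)
    (h4 : ∀ t : ℝ, ∀ i : Fin 3,
          m • deriv (deriv (fun s => q s i)) t =
            ∑ j ∈ Finset.univ.erase i,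
              (m * m / ‖q t j - q t i‖ ^ 3) • (q t j - q t i))
    (h6 : ∀ t : ℝ, ∑ i, m * ((starRingEnd ℂ) (q t i) * deriv (fun s => q s i) t).im = 0) :
    Sol m (fun s => q s 0) (fun s => q s 1) (fun s => q s 2)
      (deriv (fun s => q s 0)) (deriv (fun s => q s 1)) (deriv (fun s => q s 2)) := by
  have hd : ∀ i, ∀ t, HasDerivAt (fun s => q s i) (deriv (fun s => q s i) t) t := by
    intro i t
    exact ((h1 i).differentiable (by norm_num) t).hasDerivAt
  have hdd : ∀ i, ∀ t, HasDerivAt (deriv (fun s => q s i)) (deriv (deriv (fun s => q s i)) t) t := by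
    intro i t
    have hc : ContDiff ℝ 1 (deriv (fun s => q s i)) := by
      have h0 : ContDiff ℝ (1 + 1) (fun s => q s i) := by
        rw [one_add_one_eq_two]; exact h1 i
      exact (contDiff_succ_iff_deriv.1 h0).2.2
    exact (hc.differentiable (by norm_num) t).hasDerivAt
  have hmom : ∀ t, deriv (fun s => q s 0) t + deriv (fun s => q s 1) t
      + deriv (fun s => q s 2) t = 0 := by
    intro t
    have e1 := ((hd 0 t).fun_add (hd 1 t)).fun_add (hd 2 t)
    have e2 : (fun s => q s 0 + q s 1 + q s 2) = fun _ => (0:ℂ) := by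
      funext s; have := h3 s; rwa [Fin.sum_univ_three] at this
    rw [e2] at e1
    exact e1.unique (hasDerivAt_const t (0:ℂ))
  have acc0 : ∀ t, deriv (deriv (fun s => q s 0)) t
      = m • (G (q t 1 - q t 0) + G (q t 2 - q t 0)) := by
    intro t
    apply cancel_m hm
    rw [h4 t 0, erase0, Finset.sum_pair (by decide), force, force, smul_add]
  have acc1 : ∀ t, deriv (deriv (fun s => q s 1)) t
      = m • (G (q t 0 - q t 1) + G (q t 2 - q t 1)) := by
    intro t
    apply cancel_m hm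
    rw [h4 t 1, erase1, Finset.sum_pair (by decide), force, force, smul_add]
  have acc2 : ∀ t, deriv (deriv (fun s => q s 2)) t
      = m • (G (q t 0 - q t 2) + G (q t 1 - q t 2)) := by
    intro t
    apply cancel_m hm
    rw [h4 t 2, erase2, Finset.sum_pair (by decide), force, force, smul_add]
  exact
    { hm := hm
      hx := hd 0
      hy := hd 1
      hz := hd 2
      hp := fun t => (hdd 0 t).congr_deriv (acc0 t)
      hq := fun t => (hdd 1 t).congr_deriv (acc1 t)
      hr := fun t => (hdd 2 t).congr_deriv (acc2 t)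
      com := fun t => by have := h3 t; rwa [Fin.sum_univ_three] at this
      mom := hmom
      nxy := fun t => h2 t 0 1 (by decide)
      nxz := fun t => h2 t 0 2 (by decide)
      nyz := fun t => h2 t 1 2 (by decide)
      ang := fun t => by
        have := h6 t
        rw [Fin.sum_univ_three] at this
        simp only [Complex.mul_im, Complex.conj_re, Complex.conj_im] at this
        have h7 : m * (cr (q t 0) (deriv (fun s => q s 0) t) + cr (q t 1) (deriv (fun s => q s 1) t)
          + cr (q t 2) (deriv (fun s => q s 2) t)) = 0 := by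
          simp only [cr]; linear_combination this
        exact (mul_eq_zero.1 h7).resolve_left hm.ne' }

/-- For all equal masses m>0 and E>0 there is ε>0 such that no bounded, collision-free, all-time planar three-body solution with centre of mass 0, angular momentum 0 and energy −E keeps U(q(t)) strictly between 2(E−ε) and 2(E+ε) for all t. -/
theorem result :
    ∀ m : ℝ, 0 < m → ∀ E : ℝ, 0 < E → ∃ ε : ℝ, 0 < ε ∧
      ∀ q : ℝ → Fin 3 → ℂ,
        (∀ i, ContDiff ℝ 2 (fun s => q s i)) →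
        (∀ t : ℝ, ∀ i j : Fin 3, i ≠ j → q t i ≠ q t j) →
        (∀ t : ℝ, ∑ i, q t i = 0) →
        (∀ t : ℝ, ∀ i : Fin 3,
          m • deriv (deriv (fun s => q s i)) t =
            ∑ j ∈ Finset.univ.erase i,
              (m * m / ‖q t j - q t i‖ ^ 3) • (q t j - q t i)) →
        (∀ t : ℝ, (1 / 2 : ℝ) * ∑ i, m * ‖deriv (fun s => q s i) t‖ ^ 2
            - ∑ i, ∑ j ∈ Finset.Ioi i, m * m / ‖q t i - q t j‖ = -E) →
        (∀ t : ℝ, ∑ i, m * ((starRingEnd ℂ) (q t i) * deriv (fun s => q s i) t).im = 0) →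
        (∃ C : ℝ, ∀ t : ℝ, ∀ i : Fin 3, ‖q t i‖ ≤ C) →
        ¬ (∀ t : ℝ,
            2 * (E - ε) < ∑ i, ∑ j ∈ Finset.Ioi i, m * m / ‖q t i - q t j‖ ∧
            ∑ i, ∑ j ∈ Finset.Ioi i, m * m / ‖q t i - q t j‖ < 2 * (E + ε)) := by
  intro m hm E hE
  by_contra hcon
  have key : ∀ n : ℕ, ∃ X Y Z P Q R : ℝ → ℂ, Sol m X Y Z P Q R ∧
      (∀ t, 1 / 2 * (m * (‖P t‖ ^ 2 + ‖Q t‖ ^ 2 + ‖R t‖ ^ 2)) - m ^ 2 * (1 / ‖Z t - Y t‖
        + 1 / ‖Z t - X t‖ + 1 / ‖Y t - X t‖) = - E) ∧
      (∀ t, 2 * (E - E / (2 * (n + 1))) < m ^ 2 * (1 / ‖Z t - Y t‖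
        + 1 / ‖Z t - X t‖ + 1 / ‖Y t - X t‖)) ∧
      (∀ t, m ^ 2 * (1 / ‖Z t - Y t‖
        + 1 / ‖Z t - X t‖ + 1 / ‖Y t - X t‖) < 2 * (E + E / (2 * (n + 1)))) := by
    intro n
    by_contra hn
    apply hcon
    refine ⟨E / (2 * (n + 1)), by positivity, ?_⟩
    intro q h1 h2 h3 h4 h5 h6 _ h8
    apply hn
    refine ⟨_, _, _, _, _, _, toSol hm h1 h2 h3 h4 h6, ?_, ?_, ?_⟩
    · intro t
      have := h5 t
      rw [usum, Fin.sum_univ_three] at this
      linear_combination this
    · intro t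
      have := (h8 t).1
      rwa [usum] at this
    · intro t
      have := (h8 t).2
      rwa [usum] at this
  choose X Y Z P Q R hS hEn hL hH using key
  have hεle : ∀ n : ℕ, E / (2 * ((n : ℝ) + 1)) ≤ E / 2 := by
    intro n
    apply div_le_div_of_nonneg_left hE.le (by norm_num)
    have : (0:ℝ) ≤ n := Nat.cast_nonneg n
    linarith
  set V : ℕ → ℝ → ℝ := fun n t => 1 / ‖Z n t - Y n t‖
        + 1 / ‖Z n t - X n t‖ + 1 / ‖Y n t - X n t‖ with hV
  set K : ℕ → ℝ → ℝ := fun n t => ‖P n t‖ ^ 2 + ‖Q n t‖ ^ 2 + ‖R n t‖ ^ 2 with hKdef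
  have hKV : ∀ n t, K n t = 2 / m * (m ^ 2 * V n t - E) := by
    intro n t
    have h1 := hEn n t
    have h2 : m * K n t = 2 * (m ^ 2 * V n t - E) := by
      simp only [hV, hKdef]; linear_combination 2 * h1
    field_simp
    linarith
  have hVL : ∀ n t, E / m ^ 2 < V n t := by
    intro n t
    have h1 := hL n t
    have h2 := hεle n
    rw [div_lt_iff₀ (by positivity)]
    simp only [hV]
    linarith
  have hVH : ∀ n t, V n t ≤ 3 * E / m ^ 2 := by
    intro n t
    have h1 := hH n t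
    have h2 := hεle n
    rw [le_div_iff₀ (by positivity)]
    simp only [hV]
    linarith
  have hKH : ∀ n t, K n t ≤ 4 * E / m := by
    intro n t
    rw [hKV]
    have h1 := hVH n t
    rw [le_div_iff₀ (by positivity)] at h1
    have h2 : 2 / m * (m ^ 2 * V n t - E) ≤ 2 / m * (2 * E) :=
      mul_le_mul_of_nonneg_left (by linarith) (by positivity)
    have h3 : 2 / m * (2 * E) = 4 * E / m := by ring
    linarith
  -- constants
  set uL : ℝ := E / m ^ 2 with huL
  have huL0 : 0 < uL := by positivity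
  set k : ℝ := 4 * E / m with hk
  have hk0 : 0 < k := by positivity
  set ρ : ℝ := 3 / uL with hρ
  have hρ0 : 0 < ρ := by positivity
  set R0 : ℝ := ρ + (4 * (2 * k * ρ ^ 2 / 9) + 1) / m with hR0
  have hR0a : ρ ≤ R0 := by
    have : 0 ≤ (4 * (2 * k * ρ ^ 2 / 9) + 1) / m := by positivity
    linarith
  have hR0b : 4 * (2 * k * ρ ^ 2 / 9) < m * R0 := by
    have : m * R0 = m * ρ + (4 * (2 * k * ρ ^ 2 / 9) + 1) := by
      rw [hR0]; field_simp
    rw [this]
    have : 0 < m * ρ := by positivity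
    linarith
  set D : ℝ := 3 / 2 * (R0 + ρ) with hD
  have hvis : ∀ n, ∃ t, ‖Z n t - Y n t‖ ≤ D ∧ ‖Z n t - X n t‖ ≤ D ∧ ‖Y n t - X n t‖ ≤ D :=
    fun n => (hS n).visit huL0 hk0 hρ hR0a hR0b le_rfl (fun t => hVL n t) (fun t => hKH n t)
  choose T hT1 hT2 hT3 using hvis
  -- limits
  have hε : Tendsto (fun n : ℕ => E / (2 * ((n : ℝ) + 1))) atTop (𝓝 0) := by
    have h1 := (tendsto_one_div_add_atTop_nhds_zero_nat (𝕜 := ℝ)).const_mul (E / 2)
    rw [mul_zero] at h1
    refine h1.congr (fun n => ?_)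
    have : (n : ℝ) + 1 ≠ 0 := by positivity
    field_simp
  have limV : ∀ s : ℕ → ℝ, Tendsto (fun n => V n (s n)) atTop (𝓝 (2 * E / m ^ 2)) := by
    intro s
    have hlo : Tendsto (fun n : ℕ => 2 * (E - E / (2 * ((n : ℝ) + 1))) / m ^ 2) atTop
        (𝓝 (2 * E / m ^ 2)) := by
      have := ((tendsto_const_nhds (x := E)).sub hε).const_mul 2 |>.div_const (m ^ 2)
      simpa using this
    have hhi : Tendsto (fun n : ℕ => 2 * (E + E / (2 * ((n : ℝ) + 1))) / m ^ 2) atTop
        (𝓝 (2 * E / m ^ 2)) := by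
      have := ((tendsto_const_nhds (x := E)).add hε).const_mul 2 |>.div_const (m ^ 2)
      simpa using this
    refine tendsto_of_tendsto_of_tendsto_of_le_of_le hlo hhi ?_ ?_
    · intro n
      simp only
      rw [div_le_iff₀ (by positivity)]
      have := hL n (s n)
      simp only [hV]
      linarith
    · intro n
      simp only
      rw [le_div_iff₀ (by positivity)]
      have := hH n (s n)
      simp only [hV]
      linarith
  have limK : ∀ s : ℕ → ℝ, Tendsto (fun n => K n (s n)) atTop (𝓝 (m * (2 * E / m ^ 2))) := by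
    intro s
    have h1 := (((limV s).const_mul (m ^ 2)).sub_const E).const_mul (2 / m)
    have h2 : 2 / m * (m ^ 2 * (2 * E / m ^ 2) - E) = m * (2 * E / m ^ 2) := by
      field_simp; ring
    rw [h2] at h1
    refine h1.congr (fun n => ?_)
    rw [hKV]
  -- positions at time T n
  have posB : ∀ a b c : ℂ, a + b + c = 0 → ‖b - a‖ ≤ D → ‖c - a‖ ≤ D → ‖a‖ ≤ D := by
    intro a b c h0 h1 h2
    have e : a = -((1/3 : ℝ) • ((b - a) + (c - a))) := by
      have h3 : (b - a) + (c - a) = (-3 : ℝ) • a := by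
        apply Complex.ext
        · have := congrArg Complex.re h0
          simp only [Complex.add_re, Complex.zero_re, Complex.sub_re, Complex.smul_re,
            smul_eq_mul] at this ⊢
          linarith
        · have := congrArg Complex.im h0
          simp only [Complex.add_im, Complex.zero_im, Complex.sub_im, Complex.smul_im,
            smul_eq_mul] at this ⊢
          linarith
      rw [h3, smul_smul]; norm_num
    have h4 : ‖a‖ ≤ 1 / 3 * (‖b - a‖ + ‖c - a‖) := by
      rw [e, norm_neg, norm_smul, Real.norm_of_nonneg (by norm_num : (0:ℝ) ≤ 1/3), ← e]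
      exact mul_le_mul_of_nonneg_left (norm_add_le _ _) (by norm_num)
    have hD0 : 0 ≤ D := (norm_nonneg _).trans h1
    linarith
  refine limit_contra (m := m) (k := k) (u := 2 * E / m ^ 2) (uH := 3 * E / m ^ 2) (D := D)
    (fun n t => X n (t + T n)) (fun n t => Y n (t + T n)) (fun n t => Z n (t + T n))
    (fun n t => P n (t + T n)) (fun n t => Q n (t + T n)) (fun n t => R n (t + T n))
    (fun n => (hS n).shift (T n)) (fun n t => hKH n (t + T n)) (fun n t => hVH n (t + T n))
    ?_ ?_ ?_ (fun t => limV (fun n => t + T n)) (fun t => limK (fun n => t + T n))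
  · intro n
    simp only [zero_add]
    exact posB _ _ _ ((hS n).com (T n)) (hT3 n) (hT2 n)
  · intro n
    simp only [zero_add]
    refine posB _ (X n (T n)) (Z n (T n)) (by rw [← (hS n).com (T n)]; ring) ?_ (hT1 n)
    rw [norm_sub_rev]; exact hT3 n
  · intro n
    simp only [zero_add]
    refine posB _ (X n (T n)) (Y n (T n)) (by rw [← (hS n).com (T n)]; ring) ?_ ?_
    · rw [norm_sub_rev]; exact hT2 n
    · rw [norm_sub_rev]; exact hT1 n

end Pool.Agent.S15715
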