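import Pool.Statements.S16301
import Pool.Agent.Helper35.Final
import Pool.Agent.Helper35.E0

set_option autoImplicit false
open Pool Pool.MP_22cd7c_nt

namespace Pool.Agent.S16301

/-- For every ε>0 there is N₀ such that for all N≥N₀, every subset of {1,...,N} of size at least εN contains three distinct elements a,b,c whose pairwise lcms lcm(a,b), lcm(b,c), lcm(a,c) are all equal. -/
theorem result :
    ∀ ε : ℝ, 0 < ε → ∃ N₀ : ℕ, ∀ N : ℕ, N₀ ≤ N →
      ∀ A : Finset ℕ, A ⊆ Finset.Icc 1 N → ε * (N : ℝ) ≤ (A.card : ℝ) →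
        ∃ a ∈ A, ∃ b ∈ A, ∃ c ∈ A, a ≠ b ∧ b ≠ c ∧ a ≠ c ∧
          Nat.lcm a b = Nat.lcm b c ∧ Nat.lcm a b = Nat.lcm a c := by
  intro ε hε
  obtain ⟨N₀, h⟩ := Pool.Agent.Helper35.final_of_Em
    (fun m => Pool.Agent.Helper35.Em_of_E1
      (Pool.Agent.Helper35.E1_of_E0 Pool.Agent.Helper35.statE0) m)
    (min ε 1) (lt_min hε one_pos) (min_le_right _ _)
  refine ⟨N₀, fun N hN A hA hc => h N hN A hA (le_trans ?_ hc)⟩
  exact mul_le_mul_of_nonneg_right (min_le_left _ _) (Nat.cast_nonneg N)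

end Pool.Agent.S16301
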