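import Pool.Statements.S16490
-- import your own Pool.Agent.* helpers here

set_option autoImplicit false
open Pool Pool.MP_319fd9_nt

namespace Pool.Agent.S16490

/-- The full residue classes modulo 252. -/
def T : List ℕ := [3, 18, 25, 30, 31, 53, 58, 59, 81, 86, 87, 92, 109, 114, 115, 126, 137, 138,
  143, 152, 165, 166, 171, 180, 193, 194, 199, 208, 221, 222, 227, 232, 234, 249]

/-- The dynamic residue classes modulo 252. -/
def D : List ℕ := [4, 8, 16, 32, 64, 128]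

/-- Small elements used for covering. -/
def C : List ℕ := [3, 18, 25, 30, 31, 53, 58, 59, 81, 86, 87, 92, 109, 114, 115, 126, 137, 138,
  143, 152, 165, 166, 171, 180, 193, 194, 199, 208, 221, 222, 227, 232, 234, 249,
  4, 260, 268, 284, 316, 128]

/-- Blocks: `c * 8^k ≤ u ≤ 2 * c * 8^k` for some `k ≥ 1`. -/
def B (c u : ℕ) : Prop := ∃ k : ℕ, 1 ≤ k ∧ c * 8 ^ k ≤ u ∧ u ≤ 2 * c * 8 ^ k

def A0 (s : ℕ) : Prop := s = 0 ∨ ∃ k : ℕ, 1 ≤ k ∧ 8 ^ k ≤ s ∧ s < 2 * 8 ^ k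
def A1 (s : ℕ) : Prop := s = 1 ∨ B 4 (s + 1)
def A2 (s : ℕ) : Prop := s = 1 ∨ B 2 (s + 1)
def A3 (s : ℕ) : Prop := s = 1 ∨ B 1 (s + 1)
def A5 (s : ℕ) : Prop := s = 0 ∨ B 2 (s + 1)

/-- The set. -/
def S : Set ℕ := {n | n % 252 ∈ T ∨
  (∃ s, n = 252 * s + 4 ∧ A0 s) ∨ (∃ s, n = 252 * s + 8 ∧ A1 s) ∨
  (∃ s, n = 252 * s + 16 ∧ A2 s) ∨ (∃ s, n = 252 * s + 32 ∧ A3 s) ∨
  (∃ s, n = 252 * s + 64 ∧ A1 s) ∨ (∃ s, n = 252 * s + 128 ∧ A5 s)}

theorem TT : ∀ a ∈ T, ∀ b ∈ T, (a + b) % 252 ∉ T ∧ (a + b) % 252 ∉ D := by decide +kernel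
theorem TD : ∀ a ∈ T, ∀ b ∈ D, (a + b) % 252 ∉ T ∧ (a + b) % 252 ∉ D := by decide +kernel
theorem DDT : ∀ a ∈ D, ∀ b ∈ D, (a + b) % 252 ∉ T := by decide +kernel
theorem DDD : ∀ a ∈ D, ∀ b ∈ D, (a + b) % 252 ∈ D → a = b := by decide +kernel
theorem cov : ∀ r < 252, r ∈ T ∨ r ∈ D ∨ ∃ c ∈ C, (r + 504 - c) % 252 ∈ T := by decide +kernel

/-- comparison of powers of eight -/
theorem pow_cmp (j k : ℕ) : 8 ^ j = 8 ^ k ∨ 8 * 8 ^ j ≤ 8 ^ k ∨ 8 * 8 ^ k ≤ 8 ^ j := by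
  rcases lt_trichotomy j k with h | h | h
  · right; left
    calc 8 * 8 ^ j = 8 ^ (j + 1) := by ring
      _ ≤ 8 ^ k := Nat.pow_le_pow_right (by norm_num) h
  · left; rw [h]
  · right; right
    calc 8 * 8 ^ k = 8 ^ (k + 1) := by ring
      _ ≤ 8 ^ j := Nat.pow_le_pow_right (by norm_num) h

theorem pow_ge (k : ℕ) (hk : 1 ≤ k) : 8 ≤ 8 ^ k := by
  calc 8 = 8 ^ 1 := by norm_num
    _ ≤ 8 ^ k := Nat.pow_le_pow_right (by norm_num) hk

/-- every `s ≥ 8` lies in some `[8^k, 8^(k+1))`, `k ≥ 1` -/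
theorem scale (s : ℕ) (hs : 8 ≤ s) : ∃ k, 1 ≤ k ∧ 8 ^ k ≤ s ∧ s < 8 * 8 ^ k := by
  refine ⟨Nat.log 8 s, ?_, ?_, ?_⟩
  · exact Nat.log_pos (by norm_num) hs
  · exact Nat.pow_log_le_self 8 (by omega)
  · have := Nat.lt_pow_succ_log_self (b := 8) (by norm_num) s
    calc s < 8 ^ (Nat.log 8 s + 1) := this
      _ = 8 * 8 ^ (Nat.log 8 s) := by ring

/-! ### sum-freeness between consecutive dynamic classes -/

theorem f01 (s t : ℕ) (hs : A0 s) (ht : A0 t) : ¬ A1 (s + t) := by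
  rintro (h | ⟨l, hl, h1, h2⟩)
  · rcases hs with rfl | ⟨j, hj, a1, a2⟩ <;> rcases ht with rfl | ⟨k, hk, b1, b2⟩
    · omega
    · have := pow_ge k hk; omega
    · have := pow_ge j hj; omega
    · have := pow_ge j hj; omega
  · have hl8 := pow_ge l hl
    rcases hs with rfl | ⟨j, hj, a1, a2⟩ <;> rcases ht with rfl | ⟨k, hk, b1, b2⟩
    · omega
    · rcases pow_cmp k l with h | h | h <;> omega
    · rcases pow_cmp j l with h | h | h <;> omega
    · have := pow_ge j hj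
      have := pow_ge k hk
      rcases pow_cmp j l with h | h | h <;> rcases pow_cmp k l with h' | h' | h' <;> omega

theorem f12 (s t : ℕ) (hs : A1 s) (ht : A1 t) : ¬ A2 (s + t) := by
  rintro (h | ⟨l, hl, h1, h2⟩)
  · rcases hs with rfl | ⟨j, hj, a1, a2⟩ <;> rcases ht with rfl | ⟨k, hk, b1, b2⟩
    · omega
    · have := pow_ge k hk; omega
    · have := pow_ge j hj; omega
    · have := pow_ge j hj; omega
  · have hl8 := pow_ge l hl
    rcases hs with rfl | ⟨j, hj, a1, a2⟩ <;> rcases ht with rfl | ⟨k, hk, b1, b2⟩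
    · omega
    · rcases pow_cmp k l with h | h | h <;> omega
    · rcases pow_cmp j l with h | h | h <;> omega
    · have := pow_ge j hj
      have := pow_ge k hk
      rcases pow_cmp j l with h | h | h <;> rcases pow_cmp k l with h' | h' | h' <;> omega

theorem f23 (s t : ℕ) (hs : A2 s) (ht : A2 t) : ¬ A3 (s + t) := by
  rintro (h | ⟨l, hl, h1, h2⟩)
  · rcases hs with rfl | ⟨j, hj, a1, a2⟩ <;> rcases ht with rfl | ⟨k, hk, b1, b2⟩
    · omega
    · have := pow_ge k hk; omega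
    · have := pow_ge j hj; omega
    · have := pow_ge j hj; omega
  · have hl8 := pow_ge l hl
    rcases hs with rfl | ⟨j, hj, a1, a2⟩ <;> rcases ht with rfl | ⟨k, hk, b1, b2⟩
    · omega
    · rcases pow_cmp k l with h | h | h <;> omega
    · rcases pow_cmp j l with h | h | h <;> omega
    · have := pow_ge j hj
      have := pow_ge k hk
      rcases pow_cmp j l with h | h | h <;> rcases pow_cmp k l with h' | h' | h' <;> omega

theorem f34 (s t : ℕ) (hs : A3 s) (ht : A3 t) : ¬ A1 (s + t) := by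
  rintro (h | ⟨l, hl, h1, h2⟩)
  · rcases hs with rfl | ⟨j, hj, a1, a2⟩ <;> rcases ht with rfl | ⟨k, hk, b1, b2⟩
    · omega
    · have := pow_ge k hk; omega
    · have := pow_ge j hj; omega
    · have := pow_ge j hj; omega
  · have hl8 := pow_ge l hl
    rcases hs with rfl | ⟨j, hj, a1, a2⟩ <;> rcases ht with rfl | ⟨k, hk, b1, b2⟩
    · omega
    · rcases pow_cmp k l with h | h | h <;> omega
    · rcases pow_cmp j l with h | h | h <;> omega
    · have := pow_ge j hj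
      have := pow_ge k hk
      rcases pow_cmp j l with h | h | h <;> rcases pow_cmp k l with h' | h' | h' <;> omega

theorem f45 (s t : ℕ) (hs : A1 s) (ht : A1 t) : ¬ A5 (s + t) := by
  rintro (h | ⟨l, hl, h1, h2⟩)
  · rcases hs with rfl | ⟨j, hj, a1, a2⟩ <;> rcases ht with rfl | ⟨k, hk, b1, b2⟩
    · omega
    · have := pow_ge k hk; omega
    · have := pow_ge j hj; omega
    · have := pow_ge j hj; omega
  · have hl8 := pow_ge l hl
    rcases hs with rfl | ⟨j, hj, a1, a2⟩ <;> rcases ht with rfl | ⟨k, hk, b1, b2⟩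
    · omega
    · rcases pow_cmp k l with h | h | h <;> omega
    · rcases pow_cmp j l with h | h | h <;> omega
    · have := pow_ge j hj
      have := pow_ge k hk
      rcases pow_cmp j l with h | h | h <;> rcases pow_cmp k l with h' | h' | h' <;> omega

theorem f50 (s t : ℕ) (hs : A5 s) (ht : A5 t) : ¬ A0 (s + t + 1) := by
  rintro (h | ⟨l, hl, h1, h2⟩)
  · omega
  · have hl8 := pow_ge l hl
    rcases hs with rfl | ⟨j, hj, a1, a2⟩ <;> rcases ht with rfl | ⟨k, hk, b1, b2⟩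
    · omega
    · rcases pow_cmp k l with h | h | h <;> omega
    · rcases pow_cmp j l with h | h | h <;> omega
    · have := pow_ge j hj
      have := pow_ge k hk
      rcases pow_cmp j l with h | h | h <;> rcases pow_cmp k l with h' | h' | h' <;> omega

/-! ### covering between consecutive dynamic classes -/

theorem c01 (s : ℕ) (hs : 8 ≤ s) (h : ¬ A1 s) : ∃ x y, A0 x ∧ A0 y ∧ x + y = s := by
  obtain ⟨k, hk, h1, h2⟩ := scale s hs
  have hlt : s < 4 * 8 ^ k - 1 := by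
    by_contra hc
    exact h (Or.inr ⟨k, hk, by omega, by omega⟩)
  by_cases h3 : s < 2 * 8 ^ k
  · exact ⟨0, s, Or.inl rfl, Or.inr ⟨k, hk, h1, h3⟩, by omega⟩
  · exact ⟨s / 2, s - s / 2, Or.inr ⟨k, hk, by omega, by omega⟩,
      Or.inr ⟨k, hk, by omega, by omega⟩, by omega⟩

theorem c12 (s : ℕ) (hs : 64 ≤ s) (h : ¬ A2 s) : ∃ x y, A1 x ∧ A1 y ∧ x + y = s := by
  obtain ⟨k, hk, h1, h2⟩ := scale s (by omega)
  have e : 8 ^ (k - 1) * 8 = 8 ^ k := by rw [← pow_succ]; congr 1; omega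
  by_cases h0 : s + 1 < 2 * 8 ^ k
  · -- then `s` is at most `2 * 8^k - 2`, written with `k - 1`
    have hk2 : 1 ≤ k - 1 := by
      by_contra hc
      have : k = 1 := by omega
      subst this
      omega
    exact ⟨s / 2, s - s / 2, Or.inr ⟨k - 1, hk2, by omega, by omega⟩,
      Or.inr ⟨k - 1, hk2, by omega, by omega⟩, by omega⟩
  · have h4 : 4 * 8 ^ k ≤ s := by
      by_contra hc
      exact h (Or.inr ⟨k, hk, by omega, by omega⟩)
    exact ⟨1, s - 1, Or.inl rfl, Or.inr ⟨k, hk, by omega, by omega⟩, by omega⟩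

theorem c23 (s : ℕ) (hs : 64 ≤ s) (h : ¬ A3 s) : ∃ x y, A2 x ∧ A2 y ∧ x + y = s := by
  obtain ⟨k, hk, h1, h2⟩ := scale s (by omega)
  have h4 : 2 * 8 ^ k ≤ s := by
    by_contra hc
    exact h (Or.inr ⟨k, hk, by omega, by omega⟩)
  have h5 : s + 1 < 8 * 8 ^ k := by
    by_contra hc
    have e : 8 ^ (k + 1) = 8 * 8 ^ k := by ring
    exact h (Or.inr ⟨k + 1, by omega, by omega, by omega⟩)
  by_cases h3 : s ≤ 4 * 8 ^ k
  · exact ⟨1, s - 1, Or.inl rfl, Or.inr ⟨k, hk, by omega, by omega⟩, by omega⟩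
  · exact ⟨s / 2, s - s / 2, Or.inr ⟨k, hk, by omega, by omega⟩,
      Or.inr ⟨k, hk, by omega, by omega⟩, by omega⟩

theorem c34 (s : ℕ) (hs : 64 ≤ s) (h : ¬ A1 s) : ∃ x y, A3 x ∧ A3 y ∧ x + y = s := by
  obtain ⟨k, hk, h1, h2⟩ := scale s (by omega)
  have hlt : s + 1 < 4 * 8 ^ k := by
    by_contra hc
    exact h (Or.inr ⟨k, hk, by omega, by omega⟩)
  by_cases h3 : s ≤ 2 * 8 ^ k
  · exact ⟨1, s - 1, Or.inl rfl, Or.inr ⟨k, hk, by omega, by omega⟩, by omega⟩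
  · exact ⟨s / 2, s - s / 2, Or.inr ⟨k, hk, by omega, by omega⟩,
      Or.inr ⟨k, hk, by omega, by omega⟩, by omega⟩

theorem c45 (s : ℕ) (hs : 64 ≤ s) (h : ¬ A5 s) : ∃ x y, A1 x ∧ A1 y ∧ x + y = s := by
  apply c12 s hs
  rintro (h' | h')
  · omega
  · exact h (Or.inr h')

theorem c50 (s : ℕ) (hs : 64 ≤ s) (h : ¬ A0 s) : ∃ x y, A5 x ∧ A5 y ∧ x + y + 1 = s := by
  obtain ⟨k, hk, h1, h2⟩ := scale s (by omega)
  have hlt : 2 * 8 ^ k ≤ s := by
    by_contra hc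
    exact h (Or.inr ⟨k, hk, by omega, by omega⟩)
  by_cases h3 : s ≤ 4 * 8 ^ k
  · exact ⟨0, s - 1, Or.inl rfl, Or.inr ⟨k, hk, by omega, by omega⟩, by omega⟩
  · exact ⟨(s - 1) / 2, s - 1 - (s - 1) / 2, Or.inr ⟨k, hk, by omega, by omega⟩,
      Or.inr ⟨k, hk, by omega, by omega⟩, by omega⟩

/-! ### residues of elements -/

theorem mem_cases (n : ℕ) (h : n ∈ S) : n % 252 ∈ T ∨
    (n % 252 = 4 ∧ A0 (n / 252)) ∨ (n % 252 = 8 ∧ A1 (n / 252)) ∨
    (n % 252 = 16 ∧ A2 (n / 252)) ∨ (n % 252 = 32 ∧ A3 (n / 252)) ∨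
    (n % 252 = 64 ∧ A1 (n / 252)) ∨ (n % 252 = 128 ∧ A5 (n / 252)) := by
  rcases h with h | ⟨s, rfl, h⟩ | ⟨s, rfl, h⟩ | ⟨s, rfl, h⟩ | ⟨s, rfl, h⟩ | ⟨s, rfl, h⟩ |
    ⟨s, rfl, h⟩
  · exact Or.inl h
  all_goals
    right
    have e : (252 * s + 4) / 252 = s ∧ (252 * s + 8) / 252 = s ∧ (252 * s + 16) / 252 = s ∧
      (252 * s + 32) / 252 = s ∧ (252 * s + 64) / 252 = s ∧ (252 * s + 128) / 252 = s := by
      omega
    obtain ⟨e1, e2, e3, e4, e5, e6⟩ := e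
  · left; rw [e1]; exact ⟨by omega, h⟩
  · right; left; rw [e2]; exact ⟨by omega, h⟩
  · right; right; left; rw [e3]; exact ⟨by omega, h⟩
  · right; right; right; left; rw [e4]; exact ⟨by omega, h⟩
  · right; right; right; right; left; rw [e5]; exact ⟨by omega, h⟩
  · right; right; right; right; right; rw [e6]; exact ⟨by omega, h⟩

theorem mem_of_cases (n : ℕ) (h : n % 252 ∈ T ∨
    (n % 252 = 4 ∧ A0 (n / 252)) ∨ (n % 252 = 8 ∧ A1 (n / 252)) ∨
    (n % 252 = 16 ∧ A2 (n / 252)) ∨ (n % 252 = 32 ∧ A3 (n / 252)) ∨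
    (n % 252 = 64 ∧ A1 (n / 252)) ∨ (n % 252 = 128 ∧ A5 (n / 252))) : n ∈ S := by
  rcases h with h | ⟨h, h'⟩ | ⟨h, h'⟩ | ⟨h, h'⟩ | ⟨h, h'⟩ | ⟨h, h'⟩ | ⟨h, h'⟩
  · exact Or.inl h
  · exact Or.inr (Or.inl ⟨n / 252, by omega, h'⟩)
  · exact Or.inr (Or.inr (Or.inl ⟨n / 252, by omega, h'⟩))
  · exact Or.inr (Or.inr (Or.inr (Or.inl ⟨n / 252, by omega, h'⟩)))
  · exact Or.inr (Or.inr (Or.inr (Or.inr (Or.inl ⟨n / 252, by omega, h'⟩))))
  · exact Or.inr (Or.inr (Or.inr (Or.inr (Or.inr (Or.inl ⟨n / 252, by omega, h'⟩)))))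
  · exact Or.inr (Or.inr (Or.inr (Or.inr (Or.inr (Or.inr ⟨n / 252, by omega, h'⟩)))))

theorem resid (n : ℕ) (h : n ∈ S) : n % 252 ∈ T ∨ n % 252 ∈ D := by
  rcases mem_cases n h with h | ⟨h, -⟩ | ⟨h, -⟩ | ⟨h, -⟩ | ⟨h, -⟩ | ⟨h, -⟩ | ⟨h, -⟩
  · exact Or.inl h
  all_goals right; rw [h]; decide

theorem not_T (r : ℕ) (h : r ∈ D) : r ∉ T := by
  revert r
  decide +kernel

theorem S_pos : ∀ s ∈ S, 0 < s := by
  intro s hs
  rcases Nat.eq_zero_or_pos s with rfl | h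
  · exfalso
    rcases resid 0 hs with h | h <;> revert h <;> decide
  · exact h

theorem S_sumfree : ∀ s ∈ S, ∀ t ∈ S, s + t ∉ S := by
  intro s hs t ht hst
  have hmod : (s + t) % 252 = (s % 252 + t % 252) % 252 := by omega
  have hr := resid _ hst
  rcases resid s hs with h1 | h1
  · rcases resid t ht with h2 | h2
    · have := TT _ h1 _ h2
      rw [hmod] at hr
      rcases hr with hr | hr
      · exact this.1 hr
      · exact this.2 hr
    · have := TD _ h1 _ h2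
      rw [hmod] at hr
      rcases hr with hr | hr
      · exact this.1 hr
      · exact this.2 hr
  · rcases resid t ht with h2 | h2
    · have := TD _ h2 _ h1
      rw [hmod, Nat.add_comm (s % 252)] at hr
      rcases hr with hr | hr
      · exact this.1 hr
      · exact this.2 hr
    · rw [hmod] at hr
      rcases hr with hr | hr
      · exact DDT _ h1 _ h2 hr
      · have heq := DDD _ h1 _ h2 hr
        have n1 := not_T _ h1
        have n2 := not_T _ h2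
        have n3 : (s + t) % 252 ∉ T := by rw [hmod]; exact not_T _ hr
        have c1 := (mem_cases s hs).resolve_left n1
        have c2 := (mem_cases t ht).resolve_left n2
        have c3 := (mem_cases _ hst).resolve_left n3
        rcases c1 with ⟨e, a⟩ | ⟨e, a⟩ | ⟨e, a⟩ | ⟨e, a⟩ | ⟨e, a⟩ | ⟨e, a⟩
        · rcases c2 with ⟨e', a'⟩ | ⟨e', a'⟩ | ⟨e', a'⟩ | ⟨e', a'⟩ | ⟨e', a'⟩ | ⟨e', a'⟩ <;>
            try omega
          rcases c3 with ⟨e'', a''⟩ | ⟨e'', a''⟩ | ⟨e'', a''⟩ | ⟨e'', a''⟩ | ⟨e'', a''⟩ |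
            ⟨e'', a''⟩ <;> try omega
          have : (s + t) / 252 = s / 252 + t / 252 := by omega
          rw [this] at a''
          exact f01 _ _ a a' a''
        · rcases c2 with ⟨e', a'⟩ | ⟨e', a'⟩ | ⟨e', a'⟩ | ⟨e', a'⟩ | ⟨e', a'⟩ | ⟨e', a'⟩ <;>
            try omega
          rcases c3 with ⟨e'', a''⟩ | ⟨e'', a''⟩ | ⟨e'', a''⟩ | ⟨e'', a''⟩ | ⟨e'', a''⟩ |
            ⟨e'', a''⟩ <;> try omega
          have : (s + t) / 252 = s / 252 + t / 252 := by omega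
          rw [this] at a''
          exact f12 _ _ a a' a''
        · rcases c2 with ⟨e', a'⟩ | ⟨e', a'⟩ | ⟨e', a'⟩ | ⟨e', a'⟩ | ⟨e', a'⟩ | ⟨e', a'⟩ <;>
            try omega
          rcases c3 with ⟨e'', a''⟩ | ⟨e'', a''⟩ | ⟨e'', a''⟩ | ⟨e'', a''⟩ | ⟨e'', a''⟩ |
            ⟨e'', a''⟩ <;> try omega
          have : (s + t) / 252 = s / 252 + t / 252 := by omega
          rw [this] at a''
          exact f23 _ _ a a' a''
        · rcases c2 with ⟨e', a'⟩ | ⟨e', a'⟩ | ⟨e', a'⟩ | ⟨e', a'⟩ | ⟨e', a'⟩ | ⟨e', a'⟩ <;>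
            try omega
          rcases c3 with ⟨e'', a''⟩ | ⟨e'', a''⟩ | ⟨e'', a''⟩ | ⟨e'', a''⟩ | ⟨e'', a''⟩ |
            ⟨e'', a''⟩ <;> try omega
          have : (s + t) / 252 = s / 252 + t / 252 := by omega
          rw [this] at a''
          exact f34 _ _ a a' a''
        · rcases c2 with ⟨e', a'⟩ | ⟨e', a'⟩ | ⟨e', a'⟩ | ⟨e', a'⟩ | ⟨e', a'⟩ | ⟨e', a'⟩ <;>
            try omega
          rcases c3 with ⟨e'', a''⟩ | ⟨e'', a''⟩ | ⟨e'', a''⟩ | ⟨e'', a''⟩ | ⟨e'', a''⟩ |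
            ⟨e'', a''⟩ <;> try omega
          have : (s + t) / 252 = s / 252 + t / 252 := by omega
          rw [this] at a''
          exact f45 _ _ a a' a''
        · rcases c2 with ⟨e', a'⟩ | ⟨e', a'⟩ | ⟨e', a'⟩ | ⟨e', a'⟩ | ⟨e', a'⟩ | ⟨e', a'⟩ <;>
            try omega
          rcases c3 with ⟨e'', a''⟩ | ⟨e'', a''⟩ | ⟨e'', a''⟩ | ⟨e'', a''⟩ | ⟨e'', a''⟩ |
            ⟨e'', a''⟩ <;> try omega
          have : (s + t) / 252 = s / 252 + t / 252 + 1 := by omega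
          rw [this] at a''
          exact f50 _ _ a a' a''

theorem C_dec : ∀ c ∈ C, c % 252 ∈ T ∨ (c % 252 = 4 ∧ c / 252 = 0) ∨
    (c % 252 = 8 ∧ c / 252 = 1) ∨ (c % 252 = 16 ∧ c / 252 = 1) ∨ (c % 252 = 32 ∧ c / 252 = 1) ∨
    (c % 252 = 64 ∧ c / 252 = 1) ∨ (c % 252 = 128 ∧ c / 252 = 0) := by decide +kernel

theorem C_mem : ∀ c ∈ C, c ∈ S := by
  intro c hc
  apply mem_of_cases
  rcases C_dec c hc with h | ⟨h, h'⟩ | ⟨h, h'⟩ | ⟨h, h'⟩ | ⟨h, h'⟩ | ⟨h, h'⟩ | ⟨h, h'⟩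
  · exact Or.inl h
  · exact Or.inr (Or.inl ⟨h, Or.inl h'⟩)
  · exact Or.inr (Or.inr (Or.inl ⟨h, Or.inl h'⟩))
  · exact Or.inr (Or.inr (Or.inr (Or.inl ⟨h, Or.inl h'⟩)))
  · exact Or.inr (Or.inr (Or.inr (Or.inr (Or.inl ⟨h, Or.inl h'⟩))))
  · exact Or.inr (Or.inr (Or.inr (Or.inr (Or.inr (Or.inl ⟨h, Or.inl h'⟩)))))
  · exact Or.inr (Or.inr (Or.inr (Or.inr (Or.inr (Or.inr ⟨h, Or.inl h'⟩)))))

theorem C_le : ∀ c ∈ C, c ≤ 316 := by decide +kernel

theorem S_complete : ∀ n : ℕ, 100000 ≤ n → (n ∈ S ∨ ∃ s ∈ S, ∃ t ∈ S, s + t = n) := by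
  intro n hn
  rcases cov (n % 252) (Nat.mod_lt _ (by norm_num)) with h | h | ⟨c, hc, h⟩
  · exact Or.inl (Or.inl h)
  · simp only [D, List.mem_cons, List.not_mem_nil, or_false] at h
    rcases h with h | h | h | h | h | h
    · by_cases hA : A0 (n / 252)
      · exact Or.inl (mem_of_cases n (Or.inr (Or.inl ⟨h, hA⟩)))
      · obtain ⟨x, y, hx, hy, hxy⟩ := c50 _ (by omega) hA
        refine Or.inr ⟨252 * x + 128, ?_, 252 * y + 128, ?_, by omega⟩
        · right; right; right; right; right; right; exact ⟨x, rfl, hx⟩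
        · right; right; right; right; right; right; exact ⟨y, rfl, hy⟩
    · by_cases hA : A1 (n / 252)
      · exact Or.inl (mem_of_cases n (Or.inr (Or.inr (Or.inl ⟨h, hA⟩))))
      · obtain ⟨x, y, hx, hy, hxy⟩ := c01 _ (by omega) hA
        refine Or.inr ⟨252 * x + 4, ?_, 252 * y + 4, ?_, by omega⟩
        · right; left; exact ⟨x, rfl, hx⟩
        · right; left; exact ⟨y, rfl, hy⟩
    · by_cases hA : A2 (n / 252)
      · exact Or.inl (mem_of_cases n (Or.inr (Or.inr (Or.inr (Or.inl ⟨h, hA⟩)))))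
      · obtain ⟨x, y, hx, hy, hxy⟩ := c12 _ (by omega) hA
        refine Or.inr ⟨252 * x + 8, ?_, 252 * y + 8, ?_, by omega⟩
        · right; right; left; exact ⟨x, rfl, hx⟩
        · right; right; left; exact ⟨y, rfl, hy⟩
    · by_cases hA : A3 (n / 252)
      · exact Or.inl (mem_of_cases n (Or.inr (Or.inr (Or.inr (Or.inr (Or.inl ⟨h, hA⟩))))))
      · obtain ⟨x, y, hx, hy, hxy⟩ := c23 _ (by omega) hA
        refine Or.inr ⟨252 * x + 16, ?_, 252 * y + 16, ?_, by omega⟩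
        · right; right; right; left; exact ⟨x, rfl, hx⟩
        · right; right; right; left; exact ⟨y, rfl, hy⟩
    · by_cases hA : A1 (n / 252)
      · exact Or.inl (mem_of_cases n (Or.inr (Or.inr (Or.inr (Or.inr (Or.inr
          (Or.inl ⟨h, hA⟩)))))))
      · obtain ⟨x, y, hx, hy, hxy⟩ := c34 _ (by omega) hA
        refine Or.inr ⟨252 * x + 32, ?_, 252 * y + 32, ?_, by omega⟩
        · right; right; right; right; left; exact ⟨x, rfl, hx⟩
        · right; right; right; right; left; exact ⟨y, rfl, hy⟩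
    · by_cases hA : A5 (n / 252)
      · exact Or.inl (mem_of_cases n (Or.inr (Or.inr (Or.inr (Or.inr (Or.inr
          (Or.inr ⟨h, hA⟩)))))))
      · obtain ⟨x, y, hx, hy, hxy⟩ := c45 _ (by omega) hA
        refine Or.inr ⟨252 * x + 64, ?_, 252 * y + 64, ?_, by omega⟩
        · right; right; right; right; right; left; exact ⟨x, rfl, hx⟩
        · right; right; right; right; right; left; exact ⟨y, rfl, hy⟩
  · have hcle := C_le c hc
    refine Or.inr ⟨c, C_mem c hc, n - c, Or.inl ?_, by omega⟩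
    have : (n - c) % 252 = (n % 252 + 504 - c) % 252 := by omega
    rw [this]
    exact h

theorem S_aper : ¬ ∃ m : ℕ, 0 < m ∧ ∃ N : ℕ, ∀ n : ℕ, N ≤ n → (n ∈ S ↔ n + m ∈ S) := by
  rintro ⟨m, hm, N, h⟩
  have hmul : ∀ j n : ℕ, N ≤ n → (n ∈ S ↔ n + j * m ∈ S) := by
    intro j
    induction j with
    | zero => intro n hn; simp
    | succ j ih =>
      intro n hn
      rw [ih n hn, h (n + j * m) (by omega)]
      have : n + j * m + m = n + (j + 1) * m := by ring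
      rw [this]
  have hA : ∀ s : ℕ, 252 * s + 4 ∈ S ↔ A0 s := by
    intro s
    constructor
    · intro hs
      have e1 : (252 * s + 4) % 252 = 4 := by omega
      have e2 : (252 * s + 4) / 252 = s := by omega
      rcases mem_cases _ hs with h | ⟨h, h'⟩ | ⟨h, -⟩ | ⟨h, -⟩ | ⟨h, -⟩ | ⟨h, -⟩ | ⟨h, -⟩
      · rw [e1] at h; exact absurd h (by decide)
      · rwa [e2] at h'
      all_goals omega
    · intro hs
      exact Or.inr (Or.inl ⟨s, rfl, hs⟩)
  -- choose a large scale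
  obtain ⟨k, hk⟩ : ∃ k : ℕ, N + m + 1 < 8 ^ k :=
    ⟨N + m + 1, Nat.lt_pow_self (by norm_num)⟩
  have hk1 : 1 ≤ k := by
    rcases Nat.eq_zero_or_pos k with rfl | h
    · simp at hk
    · exact h
  set s := 2 * 8 ^ k - 1 with hs
  have hs0 : A0 s := Or.inr ⟨k, hk1, by omega, by omega⟩
  have h1 := (hmul 252 (252 * s + 4) (by omega)).1 ((hA s).2 hs0)
  have e : 252 * s + 4 + 252 * m = 252 * (s + m) + 4 := by ring
  rw [e] at h1
  have h2 := (hA _).1 h1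
  rcases h2 with h2 | ⟨l, hl, h3, h4⟩
  · omega
  · rcases pow_cmp k l with h | h | h <;> omega

/-- The negation of the preceding statement: Every sum-free set of positive integers such that each sufficiently large integer is in the set or a sum of two of its elements is eventually periodic with some positive period. -/
theorem result :
    ¬ (∀ S : Set ℕ,
      (∀ s ∈ S, 0 < s) →
      (∀ s ∈ S, ∀ t ∈ S, s + t ∉ S) →
      (∃ N : ℕ, ∀ n : ℕ, N ≤ n → (n ∈ S ∨ ∃ s ∈ S, ∃ t ∈ S, s + t = n)) →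
      ∃ m : ℕ, 0 < m ∧ ∃ N : ℕ, ∀ n : ℕ, N ≤ n → (n ∈ S ↔ n + m ∈ S)) := by
  intro h
  exact S_aper (h S S_pos S_sumfree ⟨100000, S_complete⟩)

end Pool.Agent.S16490
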