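-- Proof of the frozen statement S16523 (affirmative answer).
import Pool.Statements.S16523
import Pool.Agent.Helper19.Khin9

set_option autoImplicit false
open Pool Pool.MP_33a4a7_nt

namespace Pool.Agent.S16523

open MeasureTheory Pool.Agent.Helper19

lemma norm_lt_iff (q : ℕ) (x y : ℝ × ℝ) (a : ℤ × ℤ) (c : ℝ) :
    ‖(q : ℝ) • x - ((a.1 : ℝ), (a.2 : ℝ)) - y‖ < c ↔
      |(q : ℝ) * x.1 - a.1 - y.1| < c ∧ |(q : ℝ) * x.2 - a.2 - y.2| < c := by
  rw [Prod.norm_def, max_lt_iff]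
  rfl

/-- For every y in R^2 and every nonnegative psi on N with sum of psi(q)^2 infinite, almost every x in [0,1]^2 has infinitely many q ≥ 1 with some integer vector a making the sup-norm of qx − a − y less than psi(q). -/
theorem result :
    ∀ (y : ℝ × ℝ) (ψ : ℕ → ℝ), (∀ q, 0 ≤ ψ q) →
      ¬ Summable (fun q : ℕ => ψ q ^ 2) →
      ∀ᵐ x ∂(MeasureTheory.volume.restrict (Set.Icc (0 : ℝ × ℝ) 1)),
        {q : ℕ | 0 < q ∧ ∃ a : ℤ × ℤ,
          ‖(q : ℝ) • x - ((a.1 : ℝ), (a.2 : ℝ)) - y‖ < ψ q}.Infinite := by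
  intro y ψ hψ0 hdiv
  by_cases hinf : {q : ℕ | 1 / 2 < ψ q}.Infinite
  · -- trivial case
    refine Filter.Eventually.of_forall (fun x => ?_)
    have h1 : ({q : ℕ | 1 / 2 < ψ q} \ {0}).Infinite := hinf.sdiff (Set.finite_singleton 0)
    refine h1.mono ?_
    rintro q ⟨hq, hq0⟩
    have hq' : 1 / 2 < ψ q := hq
    refine ⟨Nat.pos_of_ne_zero hq0,
      (round ((q : ℝ) * x.1 - y.1), round ((q : ℝ) * x.2 - y.2)), ?_⟩
    rw [norm_lt_iff]
    have r1 := abs_sub_round ((q : ℝ) * x.1 - y.1)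
    have r2 := abs_sub_round ((q : ℝ) * x.2 - y.2)
    constructor
    · have e : (q : ℝ) * x.1 - (round ((q : ℝ) * x.1 - y.1) : ℤ) - y.1
          = (q : ℝ) * x.1 - y.1 - round ((q : ℝ) * x.1 - y.1) := by ring
      rw [e]; linarith
    · have e : (q : ℝ) * x.2 - (round ((q : ℝ) * x.2 - y.2) : ℤ) - y.2
          = (q : ℝ) * x.2 - y.2 - round ((q : ℝ) * x.2 - y.2) := by ring
      rw [e]; linarith
  · rw [Set.not_infinite] at hinf
    classical
    set φ : ℕ → ℝ := fun q => if 1 / 2 < ψ q then 0 else ψ q with hφ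
    have hφ0 : ∀ q, 0 ≤ φ q := by
      intro q; simp only [hφ]; split_ifs
      · exact le_refl _
      · exact hψ0 q
    have hφ1 : ∀ q, φ q ≤ 1 / 2 := by
      intro q; simp only [hφ]; split_ifs with h
      · norm_num
      · exact not_lt.mp h
    have hφdiv : ¬ Summable (fun q : ℕ => φ q ^ 2) := by
      intro hs
      apply hdiv
      refine (summable_congr_cofinite ?_).mp hs
      rw [Filter.EventuallyEq, Filter.eventually_cofinite]
      refine hinf.subset ?_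
      intro q hq
      by_contra hcon
      have hcon' : ¬ (1 / 2 < ψ q) := hcon
      apply hq
      simp only [hφ]
      rw [if_neg hcon']
    rw [ae_restrict_iff' measurableSet_Icc]
    have hnull : volume (⋃ N : ℕ, {x : ℝ × ℝ |
        (x.1 ∈ Set.Icc (0 : ℝ) 1 ∧ x.2 ∈ Set.Icc (0 : ℝ) 1) ∧
        ∀ u, N ≤ u → x ∉ Aset y φ u}) = 0 :=
      measure_iUnion_null (fun N => main_step y φ hφ0 hφ1 hφdiv N)
    rw [ae_iff]
    refine measure_mono_null ?_ hnull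
    intro x hx
    have hx' : ¬ (x ∈ Set.Icc (0 : ℝ × ℝ) 1 → {q : ℕ | 0 < q ∧ ∃ a : ℤ × ℤ,
          ‖(q : ℝ) • x - ((a.1 : ℝ), (a.2 : ℝ)) - y‖ < ψ q}.Infinite) := hx
    rw [Classical.not_imp] at hx'
    obtain ⟨hxI, hxf⟩ := hx'
    rw [Set.not_infinite] at hxf
    obtain ⟨N, hN⟩ := hxf.bddAbove
    rw [Set.mem_iUnion]
    refine ⟨N + 1, ⟨⟨hxI.1.1, hxI.2.1⟩, ⟨hxI.1.2, hxI.2.2⟩⟩, ?_⟩
    rintro u hu ⟨a, b, ha, hb⟩
    have hle : φ u ≤ ψ u := by
      simp only [hφ]; split_ifs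
      · exact hψ0 u
      · exact le_refl _
    have hmem : u ∈ {q : ℕ | 0 < q ∧ ∃ a : ℤ × ℤ,
          ‖(q : ℝ) • x - ((a.1 : ℝ), (a.2 : ℝ)) - y‖ < ψ q} := by
      refine ⟨by omega, (a, b), ?_⟩
      rw [norm_lt_iff]
      exact ⟨lt_of_lt_of_le ha hle, lt_of_lt_of_le hb hle⟩
    have := hN hmem
    omega

end Pool.Agent.S16523
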