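-- Proof of the frozen statement: bases of order h stable exactly under finite deletions exist.
import Pool.Statements.S16631

set_option autoImplicit false
open Pool Pool.MP_3bec75_nt

namespace Pool.Agent.S16631

/-- `R B k n`: the number `n` is a sum of `k` elements of `B`. -/
def R (B : Set ℕ) (k n : ℕ) : Prop :=
  ∃ M : Multiset ℕ, Multiset.card M = k ∧ (∀ x ∈ M, x ∈ B) ∧ M.sum = n

theorem R_congr {B B' : Set ℕ} {k n : ℕ} (hB : ∀ x, x ≤ n → x ∈ B → x ∈ B') (h : R B k n) :
    R B' k n := by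
  obtain ⟨M, hc, hM, hs⟩ := h
  refine ⟨M, hc, fun x hx => hB x ?_ (hM x hx), hs⟩
  rw [← hs]
  exact Multiset.single_le_sum (fun _ _ => Nat.zero_le _) x hx

theorem R_cons {B : Set ℕ} {k n x : ℕ} (hx : x ∈ B) (h : R B k n) : R B (k + 1) (x + n) := by
  obtain ⟨M, hc, hM, hs⟩ := h
  refine ⟨x ::ₘ M, by simp [hc], ?_, by simp [hs]⟩
  intro y hy
  rcases Multiset.mem_cons.1 hy with rfl | hy
  · exact hx
  · exact hM y hy

theorem R_zero {B : Set ℕ} : R B 0 0 := ⟨0, by simp, by simp, by simp⟩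

theorem R_cons' {B : Set ℕ} {k n x : ℕ} (hx : x ∈ B) (hxn : x ≤ n) (h : R B k (n - x)) :
    R B (k + 1) n := by
  have := R_cons hx h
  rwa [Nat.add_sub_cancel' hxn] at this

theorem R_replicate {B : Set ℕ} {x : ℕ} (k : ℕ) (hx : x ∈ B) : R B k (k * x) := by
  induction k with
  | zero => simpa using R_zero
  | succ k ih =>
    have := R_cons hx ih
    rwa [show (k + 1) * x = x + k * x by ring]

theorem R_iff_fun {B : Set ℕ} {k n : ℕ} :
    R B k n ↔ ∃ f : Fin k → ℕ, (∀ i, f i ∈ B) ∧ ∑ i, f i = n := by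
  constructor
  · rintro ⟨M, hc, hM, hs⟩
    obtain ⟨l, rfl⟩ : ∃ l : List ℕ, (l : Multiset ℕ) = M := Quot.exists_rep M
    have hl : l.length = k := by simpa using hc
    subst hl
    refine ⟨fun i => l.get i, fun i => hM _ ?_, ?_⟩
    · simp
    · rw [← hs]
      simp [Fin.sum_univ_getElem]
  · rintro ⟨f, hf, hs⟩
    refine ⟨Finset.univ.val.map f, by simp, ?_, ?_⟩
    · intro x hx
      simp only [Multiset.mem_map] at hx
      obtain ⟨i, _, rfl⟩ := hx
      exact hf i
    · exact hs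

/-- Sums of `k` elements of an interval. -/
theorem R_interval {B : Set ℕ} {L N : ℕ} (hB : ∀ x, L ≤ x → x ≤ N → x ∈ B) (hLN : L ≤ N) (k : ℕ) :
    ∀ m, k * L ≤ m → m ≤ k * N → R B k m := by
  induction k with
  | zero =>
    intro m _ h2
    have : m = 0 := by omega
    subst this
    exact R_zero
  | succ k ih =>
    intro m h1 h2
    have e1 : (k + 1) * L = k * L + L := by ring
    have e2 : (k + 1) * N = k * N + N := by ring
    have hkk : k * L ≤ k * N := Nat.mul_le_mul_left k hLN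
    by_cases hc : m ≤ k * N + L
    · exact R_cons' (hB L le_rfl hLN) (by omega) (ih (m - L) (by omega) (by omega))
    · exact R_cons' (hB (m - k * N) (by omega) (by omega)) (by omega)
        (ih (m - (m - k * N)) (by omega) (by omega))

/-- Sums of `k` elements of an interval together with one larger element `t`. -/
theorem R_interval_pt {B : Set ℕ} {L y t : ℕ} (hB : ∀ x, L ≤ x → x < y → x ∈ B) (htB : t ∈ B)
    (hy : L < y) (hyt : y ≤ t) (ht : t + L + 1 ≤ 2 * y) (k : ℕ) :
    ∀ m, (k + 1) * L ≤ m → m < k * t + y → R B (k + 1) m := by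
  induction k with
  | zero =>
    intro m h1 h2
    exact R_cons' (hB m (by omega) (by omega)) le_rfl (by simpa using R_zero)
  | succ k ih =>
    intro m h1 h2
    have e1 : (k + 1 + 1) * L = (k + 1) * L + L := by ring
    have e2 : (k + 1) * t = k * t + t := by ring
    have e3 : (k + 1) * L = k * L + L := by ring
    have hkk : k * L ≤ k * t := Nat.mul_le_mul_left k (by omega)
    by_cases hc : t + (k + 1) * L ≤ m
    · exact R_cons' htB (by omega) (ih (m - t) (by omega) (by omega))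
    · by_cases hc2 : m < k * t + y + L
      · exact R_cons' (hB L le_rfl hy) (by omega) (ih (m - L) (by omega) (by omega))
      · exact R_cons' (hB (y - 1) (by omega) (by omega)) (by omega)
          (ih (m - (y - 1)) (by omega) (by omega))

/-- Shape of sums of elements that are at most `W` (and not `y`) or equal to `t`. -/
theorem shape {W y t : ℕ} (hWt : W ≤ t) (M : Multiset ℕ) :
    (∀ x ∈ M, (x ≤ W ∧ x ≠ y) ∨ x = t) →
      M.sum = Multiset.card M * t ∨
      (∃ b, b ≠ y ∧ b ≤ W ∧ M.sum + t = Multiset.card M * t + b) ∨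
      M.sum + 2 * t ≤ Multiset.card M * t + 2 * W := by
  induction M using Multiset.induction with
  | empty => intro _; left; simp
  | cons a M ih =>
    intro hM
    have hM' : ∀ x ∈ M, (x ≤ W ∧ x ≠ y) ∨ x = t :=
      fun x hx => hM x (Multiset.mem_cons_of_mem hx)
    have ha := hM a (Multiset.mem_cons_self a M)
    have e : (Multiset.card M + 1) * t = Multiset.card M * t + t := by ring
    simp only [Multiset.sum_cons, Multiset.card_cons]
    rw [e]
    rcases ha with ⟨ha1, ha2⟩ | ha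
    · rcases ih hM' with h1 | ⟨b, hb1, hb2, hb3⟩ | h3
      · right; left
        exact ⟨a, ha2, ha1, by omega⟩
      · right; right
        omega
      · right; right
        omega
    · subst ha
      rcases ih hM' with h1 | ⟨b, hb1, hb2, hb3⟩ | h3
      · left; omega
      · right; left
        exact ⟨b, hb1, hb2, by omega⟩
      · right; right
        omega

theorem excl {g W y t : ℕ} (hWt : W ≤ t) (hyt : y < t) (ht : 2 * W < y + t)
    (M : Multiset ℕ) (hc : Multiset.card M = g + 1)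
    (hM : ∀ x ∈ M, (x ≤ W ∧ x ≠ y) ∨ x = t) : M.sum ≠ g * t + y := by
  intro hs
  have e : (g + 1) * t = g * t + t := by ring
  have := shape hWt M hM
  rw [hc, hs, e] at this
  rcases this with h1 | ⟨b, hb1, hb2, hb3⟩ | h3
  · omega
  · omega
  · omega

/-- The gap steps: inside a cofinite set one can plant, for `j + 1 ≤ g`, a number `s` which is not
a sum of `j + 1` elements without using `a`, but is the sum of `a` and `j` large elements. -/
theorem chain (g : ℕ) (j : ℕ) (hj : j + 1 ≤ g) (A : Set ℕ) (L : ℕ) (hA : ∀ x, L ≤ x → x ∈ A)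
    (a : ℕ) :
    ∃ (A' : Set ℕ) (L' s s' : ℕ), (g + 1) * L < L' ∧ (∀ x, L' ≤ x → x ∈ A') ∧
      (∀ x, x ≤ (g + 1) * L → (x ∈ A' ↔ x ∈ A)) ∧ a < L' ∧ s < L' ∧
      (∀ m, (g + 1) * L ≤ m → R {x | x ∈ A' ∧ L ≤ x} (g + 1) m) ∧
      ¬ R (A' \ {a}) (j + 1) s ∧ s = a + s' ∧ R {x | x ∈ A' ∧ L ≤ x} j s' := by
  induction j with
  | zero =>
    refine ⟨A, (g + 1) * L + a + 1, a, 0, by omega, ?_, fun _ _ => Iff.rfl, by omega, by omega,
      ?_, ?_, by omega, R_zero⟩
    · intro x hx
      have : L ≤ (g + 1) * L := Nat.le_mul_of_pos_left L (by omega)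
      exact hA x (by omega)
    · intro m hm
      have h1 : m ≤ (g + 1) * m := Nat.le_mul_of_pos_left m (by omega)
      have h2 : L ≤ (g + 1) * L := Nat.le_mul_of_pos_left L (by omega)
      exact R_interval (B := {x | x ∈ A ∧ L ≤ x}) (fun x h1 _ => ⟨hA x h1, h1⟩)
        (show L ≤ m by omega) (g + 1) m hm h1
    · rintro ⟨M, hc, hM, hs⟩
      obtain ⟨x, rfl⟩ := Multiset.card_eq_one.1 hc
      simp only [Multiset.sum_singleton] at hs
      subst hs
      have := hM x (by simp)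
      exact this.2 rfl
  | succ j ih =>
    obtain ⟨A', L', s, s', h1, h2, h3, h4, h5, h6, h7, h8, h9⟩ := ih (by omega)
    obtain ⟨N, hN⟩ : ∃ N, N = (g + 1) * L' := ⟨_, rfl⟩
    obtain ⟨b, hb⟩ : ∃ b, b = g * N + 1 := ⟨_, rfl⟩
    have hLN : L' ≤ N := by rw [hN]; exact Nat.le_mul_of_pos_left L' (by omega)
    have hNg : N ≤ g * N := Nat.le_mul_of_pos_left N (by omega)
    have hL : L ≤ (g + 1) * L := Nat.le_mul_of_pos_left L (by omega)
    have e1 : (g + 1) * N = g * N + N := by ring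
    have e2 : (g + 1) * L' = g * L' + L' := by ring
    have hgL' : L' ≤ g * L' := Nat.le_mul_of_pos_left L' (by omega)
    -- the new set
    refine ⟨{x | (x ≤ N ∧ x ∈ A') ∨ x = b ∨ b + s + 1 ≤ x}, b + s + 1, s + b, b + s',
      by omega, fun x hx => Or.inr (Or.inr hx), ?_, by omega, by omega, ?_, ?_, by omega, ?_⟩
    · intro x hx
      rw [← h3 x hx]
      constructor
      · rintro (h | h | h)
        · exact h.2
        · omega
        · omega
      · intro h
        exact Or.inl ⟨by omega, h⟩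
    · intro m hm
      by_cases hmN : m ≤ N
      · refine R_congr ?_ (h6 m hm)
        rintro x hx ⟨hx1, hx2⟩
        exact ⟨Or.inl ⟨by omega, hx1⟩, hx2⟩
      · have hint : ∀ x, L' ≤ x → x ≤ N →
            x ∈ {x | x ∈ {x | (x ≤ N ∧ x ∈ A') ∨ x = b ∨ b + s + 1 ≤ x} ∧ L ≤ x} :=
          fun x hx1 hx2 => ⟨Or.inl ⟨hx2, h2 x hx1⟩, by omega⟩
        by_cases hm2 : m ≤ (g + 1) * N
        · exact R_interval hint hLN (g + 1) m (by omega) hm2
        · by_cases hm3 : m ≤ b + g * N
          · exact R_cons' (x := b) ⟨Or.inr (Or.inl rfl), by omega⟩ (by omega)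
              (R_interval hint hLN g (m - b) (by omega) (by omega))
          · have hgg : g * L' + s < g * N := by omega
            refine R_cons' (x := m - g * L') ⟨Or.inr (Or.inr (by omega)), by omega⟩ (by omega) ?_
            rw [show m - (m - g * L') = g * L' by omega]
            exact R_replicate g (hint L' le_rfl hLN)
    · rintro ⟨M, hc, hM, hs⟩
      by_cases hbM : b ∈ M
      · obtain ⟨M', rfl⟩ := Multiset.exists_cons_of_mem hbM
        apply h7
        have hsum : M'.sum = s := by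
          simp only [Multiset.sum_cons] at hs
          omega
        have hcard : Multiset.card M' = j + 1 := by
          simpa using hc
        refine ⟨M', hcard, ?_, hsum⟩
        intro x hx
        have hxs : x ≤ s := by
          rw [← hsum]
          exact Multiset.single_le_sum (fun _ _ => Nat.zero_le _) x hx
        obtain ⟨hx1, hx2⟩ := hM x (Multiset.mem_cons_of_mem hx)
        refine ⟨?_, hx2⟩
        rcases hx1 with h | h | h
        · exact h.2
        · omega
        · omega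
      · have hle : ∀ x ∈ M, x ≤ N := by
          intro x hx
          have hxs : x ≤ s + b := by
            rw [← hs]
            exact Multiset.single_le_sum (fun _ _ => Nat.zero_le _) x hx
          obtain ⟨hx1, hx2⟩ := hM x hx
          rcases hx1 with h | h | h
          · exact h.1
          · subst h
            exact absurd hx hbM
          · omega
        have hsum := Multiset.sum_le_card_nsmul M N hle
        rw [hc, hs, smul_eq_mul] at hsum
        have : (j + 1 + 1) * N ≤ g * N := Nat.mul_le_mul_right N hj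
        omega
    · refine R_cons ⟨Or.inr (Or.inl rfl), by omega⟩ (R_congr ?_ h9)
      rintro x hx ⟨hx1, hx2⟩
      exact ⟨Or.inl ⟨by omega, hx1⟩, hx2⟩

/-- The main step: modify a cofinite set far out so that exactly one number `n` is a sum of
`g + 1` elements only by using `a`, every other number having representations by
large elements. -/
theorem step (g : ℕ) (hg : 1 ≤ g) (A : Set ℕ) (L : ℕ) (hA : ∀ x, L ≤ x → x ∈ A) (a : ℕ) :
    ∃ (A' : Set ℕ) (L' n n' : ℕ), (g + 1) * L < n ∧ n < L' ∧ (∀ x, L' ≤ x → x ∈ A') ∧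
      (∀ x, x ≤ (g + 1) * L → (x ∈ A' ↔ x ∈ A)) ∧
      (∀ m, (g + 1) * L ≤ m → m ≠ n → R {x | x ∈ A' ∧ L ≤ x} (g + 1) m) ∧
      ¬ R (A' \ {a}) (g + 1) n ∧ n = a + n' ∧ R {x | x ∈ A' ∧ L ≤ x} g n' := by
  obtain ⟨j, hj⟩ : ∃ j, j + 1 = g := ⟨g - 1, by omega⟩
  obtain ⟨A', L', s, s', h1, h2, h3, h4, h5, h6, h7, h8, h9⟩ :=
    chain g j (le_of_eq hj) A L hA a
  rw [hj] at h7
  obtain ⟨J, hJ⟩ : ∃ J, J = (g + 1) * L' := ⟨_, rfl⟩
  obtain ⟨y, hy⟩ : ∃ y, y = 2 * J + L' + 2 := ⟨_, rfl⟩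
  obtain ⟨t, ht⟩ : ∃ t, t = y + 2 * J + 1 := ⟨_, rfl⟩
  obtain ⟨n, hn⟩ : ∃ n, n = g * t + y := ⟨_, rfl⟩
  have hLJ : L' ≤ J := by rw [hJ]; exact Nat.le_mul_of_pos_left L' (by omega)
  have hL : L ≤ (g + 1) * L := Nat.le_mul_of_pos_left L (by omega)
  have e2 : (g + 1) * L' = g * L' + L' := by ring
  have hgt : t ≤ g * t := Nat.le_mul_of_pos_left t (by omega)
  refine ⟨{x | (x ≤ y + J ∧ x ≠ y ∧ x ∈ A') ∨ x = t ∨ x = n - s ∨ n + 1 ≤ x}, n + 1, n,
    (n - s) + s', by omega, by omega, fun x hx => Or.inr (Or.inr (Or.inr hx)), ?_, ?_, ?_,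
    by omega, ?_⟩
  · intro x hx
    rw [← h3 x hx]
    constructor
    · rintro (h | h | h | h)
      · exact h.2.2
      · omega
      · omega
      · omega
    · intro h
      exact Or.inl ⟨by omega, by omega, h⟩
  · intro m hm hmn
    by_cases hmy : m < y
    · refine R_congr ?_ (h6 m hm)
      rintro x hx ⟨hx1, hx2⟩
      exact ⟨Or.inl ⟨by omega, by omega, hx1⟩, hx2⟩
    · by_cases hmn2 : m < n
      · refine R_interval_pt (L := L') (y := y) (t := t) ?_ ?_ (by omega) (by omega) (by omega) g m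
          (by omega) (by omega)
        · intro x hx1 hx2
          exact ⟨Or.inl ⟨by omega, by omega, h2 x hx1⟩, by omega⟩
        · exact ⟨Or.inr (Or.inl rfl), by omega⟩
      · by_cases hmJ : m ≤ n + J
        · refine R_cons' (x := m - g * t) ⟨Or.inl ⟨by omega, by omega, h2 _ (by omega)⟩, by omega⟩
            (by omega) ?_
          rw [show m - (m - g * t) = g * t by omega]
          exact R_replicate g ⟨Or.inr (Or.inl rfl), by omega⟩
        · refine R_cons' (x := m - g * L') ⟨Or.inr (Or.inr (Or.inr (by omega))), by omega⟩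
            (by omega) ?_
          rw [show m - (m - g * L') = g * L' by omega]
          exact R_replicate g ⟨Or.inl ⟨by omega, by omega, h2 _ le_rfl⟩, by omega⟩
  · rintro ⟨M, hc, hM, hs⟩
    by_cases hbM : n - s ∈ M
    · obtain ⟨M', rfl⟩ := Multiset.exists_cons_of_mem hbM
      apply h7
      have hsum : M'.sum = s := by
        simp only [Multiset.sum_cons] at hs
        omega
      have hcard : Multiset.card M' = g := by
        simpa using hc
      refine ⟨M', hcard, ?_, hsum⟩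
      intro x hx
      have hxs : x ≤ s := by
        rw [← hsum]
        exact Multiset.single_le_sum (fun _ _ => Nat.zero_le _) x hx
      obtain ⟨hx1, hx2⟩ := hM x (Multiset.mem_cons_of_mem hx)
      refine ⟨?_, hx2⟩
      rcases hx1 with h | h | h | h
      · exact h.2.2
      · omega
      · omega
      · omega
    · refine excl (g := g) (W := y + J) (y := y) (t := t) (by omega) (by omega) (by omega) M hc ?_
        (hs.trans hn)
      intro x hx
      have hxs : x ≤ n := by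
        rw [← hs]
        exact Multiset.single_le_sum (fun _ _ => Nat.zero_le _) x hx
      obtain ⟨hx1, hx2⟩ := hM x hx
      rcases hx1 with h | h | h | h
      · exact Or.inl ⟨h.1, h.2.1⟩
      · exact Or.inr h
      · subst h
        exact absurd hx hbM
      · omega
  · have key : R {x | x ∈ {x | (x ≤ y + J ∧ x ≠ y ∧ x ∈ A') ∨ x = t ∨ x = n - s ∨ n + 1 ≤ x} ∧
        L ≤ x} (j + 1) ((n - s) + s') := by
      refine R_cons ⟨Or.inr (Or.inr (Or.inl rfl)), by omega⟩ (R_congr ?_ h9)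
      rintro x hx ⟨hx1, hx2⟩
      exact ⟨Or.inl ⟨by omega, by omega, hx1⟩, hx2⟩
    rwa [hj] at key


/-- States of the construction: a set together with a bound from which on it contains
everything. -/
def St : Type := {p : Set ℕ × ℕ // ∀ x, p.2 ≤ x → x ∈ p.1}

/-- One stage of the construction; stage `k` treats the number `k`. -/
def StepRel (g k : ℕ) (σ τ : St) : Prop :=
  (g + 1) * σ.1.2 < τ.1.2 ∧
  (∀ x, x ≤ (g + 1) * σ.1.2 → (x ∈ τ.1.1 ↔ x ∈ σ.1.1)) ∧
  ∃ n n' : ℕ,
    (∀ m, (g + 1) * σ.1.2 ≤ m → (m ≠ n ∨ k ∉ σ.1.1) →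
      R {x | x ∈ τ.1.1 ∧ σ.1.2 ≤ x} (g + 1) m) ∧
    (k ∈ σ.1.1 → (g + 1) * σ.1.2 < n ∧ n < τ.1.2 ∧ ¬ R (τ.1.1 \ {k}) (g + 1) n ∧
      n = k + n' ∧ R {x | x ∈ τ.1.1 ∧ σ.1.2 ≤ x} g n')

theorem exists_step (g : ℕ) (hg : 1 ≤ g) (k : ℕ) (σ : St) : ∃ τ : St, StepRel g k σ τ := by
  obtain ⟨⟨A, L⟩, hA⟩ := σ
  by_cases hk : k ∈ A
  · obtain ⟨A', L', n, n', h1, h2, h3, h4, h5, h6, h7, h8⟩ := step g hg A L hA k
    refine ⟨⟨⟨A', L'⟩, h3⟩, ?_, h4, n, n', ?_, ?_⟩
    · show (g + 1) * L < L'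
      omega
    · intro m hm hmn
      rcases hmn with hmn | hmn
      · exact h5 m hm hmn
      · exact absurd hk hmn
    · intro _
      exact ⟨h1, h2, h6, h7, h8⟩
  · have hL : L ≤ (g + 1) * L := Nat.le_mul_of_pos_left L (by omega)
    refine ⟨⟨⟨A, (g + 1) * L + 1⟩, fun x hx => ?_⟩, ?_, fun _ _ => Iff.rfl, 0, 0, ?_, ?_⟩
    · have hx' : (g + 1) * L + 1 ≤ x := hx
      exact hA x (show L ≤ x by omega)
    · show (g + 1) * L < (g + 1) * L + 1
      omega
    · intro m hm _
      have hm' : (g + 1) * L ≤ m := hm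
      have h1 : m ≤ (g + 1) * m := Nat.le_mul_of_pos_left m (by omega)
      exact R_interval (B := {x | x ∈ A ∧ L ≤ x}) (fun x h1 _ => ⟨hA x h1, h1⟩)
        (show L ≤ m by omega) (g + 1) m hm' h1
    · intro hk'
      exact absurd hk' hk

/-- The whole sequence of stages. -/
theorem exists_seq (g : ℕ) (hg : 1 ≤ g) :
    ∃ σ : ℕ → St, 1 ≤ (σ 0).1.2 ∧ ∀ k, StepRel g k (σ k) (σ (k + 1)) := by
  choose F hF using exists_step g hg
  refine ⟨fun k => Nat.rec (⟨⟨Set.univ, 1⟩, fun x _ => Set.mem_univ x⟩ : St)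
    (fun k σ => F k σ) k, le_rfl, fun k => hF k _⟩

theorem main (g : ℕ) (hg : 1 ≤ g) :
    ∃ A : Set ℕ, ∀ S : Set ℕ, S ⊆ A →
      ((∃ N : ℕ, ∀ n : ℕ, N ≤ n → R (A \ S) (g + 1) n) ↔ S.Finite) := by
  obtain ⟨σ, h0, hσ⟩ := exists_seq g hg
  -- abbreviations
  obtain ⟨B, hB⟩ : ∃ B : ℕ → Set ℕ, ∀ k, B k = (σ k).1.1 := ⟨fun k => (σ k).1.1, fun _ => rfl⟩
  obtain ⟨L, hL⟩ : ∃ L : ℕ → ℕ, ∀ k, L k = (σ k).1.2 := ⟨fun k => (σ k).1.2, fun _ => rfl⟩
  have hs : ∀ k, (g + 1) * L k < L (k + 1) ∧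
      (∀ x, x ≤ (g + 1) * L k → (x ∈ B (k + 1) ↔ x ∈ B k)) ∧
      ∃ n n' : ℕ,
        (∀ m, (g + 1) * L k ≤ m → (m ≠ n ∨ k ∉ B k) →
          R {x | x ∈ B (k + 1) ∧ L k ≤ x} (g + 1) m) ∧
        (k ∈ B k → (g + 1) * L k < n ∧ n < L (k + 1) ∧ ¬ R (B (k + 1) \ {k}) (g + 1) n ∧
          n = k + n' ∧ R {x | x ∈ B (k + 1) ∧ L k ≤ x} g n') := by
    intro k
    rw [hL, hL, hB, hB]
    exact hσ k
  have hmul : ∀ z : ℕ, z ≤ (g + 1) * z := fun z => Nat.le_mul_of_pos_left z (by omega)
  have hlt : ∀ k, L k < L (k + 1) := fun k => lt_of_le_of_lt (hmul _) (hs k).1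
  have hmono : StrictMono L := strictMono_nat_of_lt_succ hlt
  have hge : ∀ k, k ≤ L k := fun k => hmono.id_le k
  -- agreement between stages
  have hagree : ∀ k d x, x ≤ (g + 1) * L k → (x ∈ B (k + d) ↔ x ∈ B k) := by
    intro k d
    induction d with
    | zero => intro x _; exact Iff.rfl
    | succ d ih =>
      intro x hx
      rw [← ih x hx]
      refine (hs (k + d)).2.1 x (hx.trans ?_)
      exact Nat.mul_le_mul_left _ (hmono.monotone (Nat.le_add_right k d))
  obtain ⟨A, hAdef⟩ : ∃ A : Set ℕ, ∀ x, x ∈ A ↔ x ∈ B x := ⟨{x | x ∈ B x}, fun _ => Iff.rfl⟩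
  have hA : ∀ k x, x ≤ (g + 1) * L k → (x ∈ A ↔ x ∈ B k) := by
    intro k x hx
    rw [hAdef]
    rcases le_total k x with hkx | hkx
    · obtain ⟨d, rfl⟩ := Nat.exists_eq_add_of_le hkx
      exact hagree k d _ hx
    · obtain ⟨d, rfl⟩ := Nat.exists_eq_add_of_le hkx
      exact (hagree x d x ((hge x).trans (hmul _))).symm
  refine ⟨A, fun S hSA => ⟨?_, ?_⟩⟩
  · -- an infinite set cannot be removed
    rintro ⟨N, hN⟩
    by_contra hinf
    obtain ⟨k, hkS, hkN⟩ := (Set.Infinite.exists_gt (s := S) hinf) N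
    have hkA : k ∈ B k := (hAdef k).1 (hSA hkS)
    obtain ⟨h1, h2, n, n', h3, h4⟩ := hs k
    obtain ⟨h5, h6, h7, h8, h9⟩ := h4 hkA
    apply h7
    have hk1 : k ≤ L k := hge k
    have hk2 := hmul (L k)
    refine R_congr ?_ (hN n (by omega))
    rintro x hx ⟨hxA, hxS⟩
    refine ⟨?_, ?_⟩
    · refine (hA (k + 1) x ?_).1 hxA
      exact (hx.trans h6.le).trans (hmul _)
    · intro hxk
      rw [Set.mem_singleton_iff] at hxk
      rw [hxk] at hxS
      exact hxS hkS
  · -- a finite set can be removed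
    intro hfin
    obtain ⟨K, hK⟩ := hfin.bddAbove
    refine ⟨(g + 1) * L (K + 1), fun m hm => ?_⟩
    -- find the stage of `m`
    have hex : ∃ k, m < (g + 1) * L (k + 1) := by
      refine ⟨m, lt_of_lt_of_le ?_ (hmul _)⟩
      exact lt_of_lt_of_le (Nat.lt_succ_self m) (hge (m + 1))
    classical
    obtain ⟨k, hk1, hk2⟩ : ∃ k, m < (g + 1) * L (k + 1) ∧ (g + 1) * L k ≤ m ∧ K + 1 ≤ k := by
      refine ⟨Nat.find hex, Nat.find_spec hex, ?_⟩
      have hKk : K + 1 ≤ Nat.find hex := by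
        by_contra hcon
        have h1 := Nat.find_spec hex
        have h2 : (g + 1) * L (Nat.find hex + 1) ≤ (g + 1) * L (K + 1) :=
          Nat.mul_le_mul_left _ (hmono.monotone (by omega))
        omega
      refine ⟨?_, hKk⟩
      have h3 := Nat.find_min hex (m := Nat.find hex - 1) (by omega)
      rw [show Nat.find hex - 1 + 1 = Nat.find hex by omega] at h3
      omega
    obtain ⟨hk2, hk3⟩ := hk2
    obtain ⟨h1, h2, n, n', h3, h4⟩ := hs k
    have hKL : K < L k := lt_of_lt_of_le (by omega) (hge k)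
    have conv : ∀ x, x ≤ m → x ∈ {x | x ∈ B (k + 1) ∧ L k ≤ x} → x ∈ A \ S := by
      rintro x hx ⟨hx1, hx2⟩
      refine ⟨(hA (k + 1) x (by omega)).2 hx1, fun hxS => ?_⟩
      have := hK hxS
      omega
    by_cases hc : m ≠ n ∨ k ∉ B k
    · exact R_congr conv (h3 m hk2 hc)
    · push Not at hc
      obtain ⟨hmn, hkB⟩ := hc
      obtain ⟨h5, h6, h7, h8, h9⟩ := h4 hkB
      rw [hmn, h8]
      refine R_cons ⟨(hAdef k).2 hkB, fun hkS => ?_⟩ (R_congr ?_ h9)
      · have := hK hkS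
        omega
      · intro x hx hx'
        exact conv x (by omega) hx'


/-- For every h ≥ 3 there is a set A of naturals such that all large n are sums of h elements of A, and for every subset S of A, removing S keeps this property exactly when S is finite. -/
theorem result :
    ∀ h : ℕ, 3 ≤ h →
      ∃ A : Set ℕ,
        (∃ N : ℕ, ∀ n : ℕ, N ≤ n →
          ∃ f : Fin h → ℕ, (∀ i, f i ∈ A) ∧ ∑ i, f i = n) ∧
        ∀ S : Set ℕ, S ⊆ A →
          ((∃ N : ℕ, ∀ n : ℕ, N ≤ n →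
              ∃ f : Fin h → ℕ, (∀ i, f i ∈ A \ S) ∧ ∑ i, f i = n) ↔ S.Finite) := by
  intro h hh
  obtain ⟨g, rfl⟩ : ∃ g, h = g + 1 := ⟨h - 1, by omega⟩
  obtain ⟨A, hA⟩ := main g (by omega)
  have hA' : ∀ S : Set ℕ, S ⊆ A →
      ((∃ N : ℕ, ∀ n : ℕ, N ≤ n →
        ∃ f : Fin (g + 1) → ℕ, (∀ i, f i ∈ A \ S) ∧ ∑ i, f i = n) ↔ S.Finite) := by
    intro S hS
    rw [← hA S hS]
    simp only [R_iff_fun]
  refine ⟨A, ?_, hA'⟩
  obtain ⟨N, hN⟩ := (hA' ∅ (Set.empty_subset A)).2 Set.finite_empty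
  refine ⟨N, fun n hn => ?_⟩
  obtain ⟨f, hf, hs⟩ := hN n hn
  exact ⟨f, fun i => (hf i).1, hs⟩

end Pool.Agent.S16631
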