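import Pool.Statements.S19182
import Pool.Agent.Helper57.Fin

set_option autoImplicit false
open MeasureTheory
open Pool Pool.MP_1775a6_pr

namespace Pool.Agent.S19182

/-- The negation of the preceding statement: For a countable infinite connected locally finite graph G where percolation at every p<1 has only finite clusters, Bernoulli(p) percolation on G×Z almost surely has every infinite cluster meeting each fiber {v}×Z in infinitely many points. -/
theorem result :
    ¬ (∀ (V : Type) [Countable V] [Infinite V] (G : SimpleGraph V),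
      G.Connected →
      (∀ v : V, (G.neighborSet v).Finite) →
      (∀ q : ℝ, 0 ≤ q → q < 1 →
        ∀ (Ω : Type) [MeasurableSpace Ω] (P : Measure Ω) [IsProbabilityMeasure P]
          (ξ : Ω → Set (Sym2 V)),
          (∀ e : Sym2 V, MeasurableSet {w : Ω | e ∈ ξ w}) →
          ProbabilityTheory.iIndepSet (fun e : Sym2 V => {w : Ω | e ∈ ξ w}) P →
          (∀ e : Sym2 V, P {w : Ω | e ∈ ξ w} = ENNReal.ofReal q) →
          ∀ᵐ w ∂P, ∀ x : V, Set.Finite {y : V |
            (G ⊓ SimpleGraph.fromEdgeSet (ξ w)).Reachable x y}) →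
      ∀ p : ℝ, 0 ≤ p → p ≤ 1 →
        ∀ (Ω : Type) [MeasurableSpace Ω] (P : Measure Ω) [IsProbabilityMeasure P]
          (ξ : Ω → Set (Sym2 (V × ℤ))),
          (∀ e : Sym2 (V × ℤ), MeasurableSet {w : Ω | e ∈ ξ w}) →
          ProbabilityTheory.iIndepSet (fun e : Sym2 (V × ℤ) => {w : Ω | e ∈ ξ w}) P →
          (∀ e : Sym2 (V × ℤ), P {w : Ω | e ∈ ξ w} = ENNReal.ofReal p) →
          ∀ᵐ w ∂P, ∀ x : V × ℤ,
            Set.Infinite {y : V × ℤ |
              (SimpleGraph.boxProd G (SimpleGraph.hasse ℤ) ⊓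
                SimpleGraph.fromEdgeSet (ξ w)).Reachable x y} →
            ∀ v : V, Set.Infinite {n : ℤ |
              (SimpleGraph.boxProd G (SimpleGraph.hasse ℤ) ⊓
                SimpleGraph.fromEdgeSet (ξ w)).Reachable x (v, n)}) := by
  intro H
  obtain ⟨M, h, ℓ, g⟩ := Pool.Agent.Helper57.exists_good
  have hM : ∀ j, 1 ≤ M j := fun j => by have := g.M_ge j; omega
  have hl : ∀ j, 1 ≤ ℓ j := g.l_pos
  have : Infinite (Pool.Agent.Helper57.VV Pool.Agent.Helper57.b0 M ℓ) :=
    Pool.Agent.Helper57.VV_infinite hM (by norm_num)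
  have key := H (Pool.Agent.Helper57.VV Pool.Agent.Helper57.b0 M ℓ)
    (Pool.Agent.Helper57.GG Pool.Agent.Helper57.b0 M ℓ)
    (Pool.Agent.Helper57.GG_conn hM hl) (fun v => Pool.Agent.Helper57.GG_locfin v)
    (fun q hq0 hq1 Ω _ P _ ξ hm hi hP =>
      Pool.Agent.Helper57.pc_one hM (Pool.Agent.Helper57.l_tendsto g) hq0 hq1 P ξ hm hi hP)
    (Pool.Agent.Helper57.p0 : ℝ) Pool.Agent.Helper57.p0.2.1 Pool.Agent.Helper57.p0.2.2
    (Sym2 (Pool.Agent.Helper57.Raw Pool.Agent.Helper57.b0 × ℤ) → Bool)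
    (Pool.Agent.Helper57.PB Pool.Agent.Helper57.p0 _)
    (Pool.Agent.Helper57.xi Pool.Agent.Helper57.b0 M ℓ)
    (fun e => Pool.Agent.Helper57.xi_meas e) Pool.Agent.Helper57.xi_indep
    (fun e => Pool.Agent.Helper57.xi_prob e)
  refine Pool.Agent.Helper57.prob_ZZ g (measure_mono_null ?_ (ae_iff.1 key))
  intro ω hω hall
  have h1 := hall (Pool.Agent.Helper57.xs hM) (Pool.Agent.Helper57.ZZ_infinite hM hω)
    ⟨Pool.Agent.Helper57.Raw.hub [] 0, hM _⟩
  rw [Pool.Agent.Helper57.ZZ_miss hM hω] at h1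
  exact h1 Set.finite_empty

end Pool.Agent.S19182
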